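import Mathlib

set_option autoImplicit false

/-! Affine maps of finite groups: basic facts. -/

namespace Pool.Agent.Helper32.Aff

universe u

section basic

variable {G : Type u} [Group G]

/-- The affine map `x ↦ t * α x`. -/
def affineMap (t : G) (α : MulAut G) : Equiv.Perm G := (MulEquiv.toEquiv α).trans (Equiv.mulLeft t)

theorem affineMap_apply (t : G) (α : MulAut G) (x : G) : affineMap t α x = t * α x := rfl

/-- Normal, `α`-invariant subgroups. -/
structure Adm (α : MulAut G) (K : Subgroup G) : Prop where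
  normal : K.Normal
  inv : ∀ x ∈ K, α x ∈ K

/-- `A ^ n` preserves all cosets of `K`. -/
def Per (t : G) (α : MulAut G) (K : Subgroup G) (n : ℕ) : Prop :=
  ∀ x, x⁻¹ * ((affineMap t α) ^ n) x ∈ K

variable {t : G} {α : MulAut G} {K L : Subgroup G}

theorem Per.mono (h : K ≤ L) {n : ℕ} (hn : Per t α K n) : Per t α L n := fun x => h (hn x)

theorem per_zero : Per t α K 0 := fun x => by simp [K.one_mem]

theorem Per.add {m n : ℕ} (hm : Per t α K m) (hn : Per t α K n) : Per t α K (m + n) := by
  intro x
  rw [pow_add, Equiv.Perm.mul_apply]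
  have h1 := hm ((affineMap t α ^ n) x)
  have h2 := hn x
  have := K.mul_mem h2 h1
  simpa [mul_assoc] using this

theorem Per.of_add {m n : ℕ} (hmn : Per t α K (m + n)) (hm : Per t α K m) : Per t α K n := by
  intro x
  have h0 := hmn x
  rw [pow_add, Equiv.Perm.mul_apply] at h0
  have h1 := hm ((affineMap t α ^ n) x)
  have := K.mul_mem h0 (K.inv_mem h1)
  simpa [mul_assoc] using this

theorem Per.mul {m : ℕ} (hm : Per t α K m) (j : ℕ) : Per t α K (m * j) := by
  induction j with
  | zero => exact per_zero
  | succ j ih => rw [Nat.mul_succ]; exact ih.add hm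

theorem aff_pow_one_apply (n : ℕ) (x : G) :
    (affineMap t α ^ n) x = (affineMap t α ^ n) 1 * (α ^ n) x := by
  induction n with
  | zero => simp
  | succ n ih =>
    rw [pow_succ', Equiv.Perm.mul_apply, Equiv.Perm.mul_apply, ih, affineMap_apply,
      affineMap_apply, map_mul, pow_succ', MulAut.mul_apply, mul_assoc]

theorem aff_pow_mul (n : ℕ) (x y : G) :
    (affineMap t α ^ n) (x * y) = (affineMap t α ^ n) x * (α ^ n) y := by
  rw [aff_pow_one_apply n (x * y), aff_pow_one_apply n x, map_mul, mul_assoc]

theorem Per.one_mem {n : ℕ} (h : Per t α K n) : (affineMap t α ^ n) 1 ∈ K := by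
  have := h 1
  simpa using this

theorem Per.lin (hK : K.Normal) {n : ℕ} (h : Per t α K n) (x : G) : x⁻¹ * (α ^ n) x ∈ K := by
  have h1 := h x
  rw [aff_pow_one_apply] at h1
  have h2 := hK.conj_mem _ (K.inv_mem h.one_mem) x⁻¹
  have := K.mul_mem h2 h1
  simpa [mul_assoc] using this

theorem pow_pow_apply (n j : ℕ) (x : G) : (α ^ (n * (j + 1))) x = (α ^ n) ((α ^ (n * j)) x) := by
  rw [← MulAut.mul_apply, ← pow_add, Nat.mul_succ, add_comm]

section fin

variable [Finite G]

theorem exists_per (t : G) (α : MulAut G) (K : Subgroup G) : ∃ n, 0 < n ∧ Per t α K n := by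
  refine ⟨orderOf (affineMap t α), orderOf_pos _, fun x => ?_⟩
  rw [pow_orderOf_eq_one]
  simp [K.one_mem]

open Classical in
/-- The order of the permutation induced by `A` on the cosets of `K`. -/
noncomputable def ord (t : G) (α : MulAut G) (K : Subgroup G) : ℕ := Nat.find (exists_per t α K)

theorem ord_pos (t : G) (α : MulAut G) (K : Subgroup G) : 0 < ord t α K := by
  classical
  exact (Nat.find_spec (exists_per t α K)).1

theorem ord_per (t : G) (α : MulAut G) (K : Subgroup G) : Per t α K (ord t α K) := by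
  classical
  exact (Nat.find_spec (exists_per t α K)).2

theorem ord_le {n : ℕ} (h0 : 0 < n) (h : Per t α K n) : ord t α K ≤ n := by
  classical
  exact Nat.find_min' _ ⟨h0, h⟩

theorem per_iff {n : ℕ} : Per t α K n ↔ ord t α K ∣ n := by
  constructor
  · intro h
    have h1 : Per t α K (ord t α K * (n / ord t α K)) := (ord_per t α K).mul _
    have h2 : Per t α K (n % ord t α K) := by
      apply Per.of_add (m := ord t α K * (n / ord t α K)) _ h1
      rwa [Nat.div_add_mod]
    rcases Nat.eq_zero_or_pos (n % ord t α K) with h3 | h3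
    · exact Nat.dvd_of_mod_eq_zero h3
    · have := ord_le h3 h2
      have := Nat.mod_lt n (ord_pos t α K)
      omega
  · rintro ⟨j, rfl⟩
    exact (ord_per t α K).mul j

theorem ord_dvd (h : K ≤ L) : ord t α L ∣ ord t α K :=
  per_iff.mp ((ord_per t α K).mono h)

theorem ord_bot : ord t α ⊥ = orderOf (affineMap t α) := by
  apply Nat.dvd_antisymm
  · rw [← per_iff]
    intro x
    rw [pow_orderOf_eq_one]
    simp
  · apply orderOf_dvd_of_pow_eq_one
    ext x
    have := ord_per t α (⊥ : Subgroup G) x
    rw [Subgroup.mem_bot, inv_mul_eq_one] at this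
    exact this.symm

theorem ord_top : ord t α ⊤ = 1 := by
  apply Nat.dvd_one.mp
  rw [← per_iff]
  intro x
  exact Subgroup.mem_top _

theorem Adm.mem_iff (hK : Adm α K) (x : G) : α x ∈ K ↔ x ∈ K := by
  constructor
  · intro h
    -- iterate
    have key : ∀ n : ℕ, (α ^ (n + 1)) x ∈ K := by
      intro n
      induction n with
      | zero => simpa using h
      | succ n ih =>
        rw [pow_succ', MulAut.mul_apply]
        exact hK.inv _ ih
    have hf : 0 < orderOf α := orderOf_pos α
    have h2 := key (orderOf α - 1)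
    rw [Nat.sub_add_cancel hf, pow_orderOf_eq_one] at h2
    simpa using h2
  · exact hK.inv x

omit [Finite G] in
theorem Adm.pow_mem (hK : Adm α K) (n : ℕ) {x : G} (hx : x ∈ K) : (α ^ n) x ∈ K := by
  induction n with
  | zero => simpa using hx
  | succ n ih =>
    rw [pow_succ', MulAut.mul_apply]
    exact hK.inv _ ih

theorem Adm.map_eq (hK : Adm α K) : K.map (MulEquiv.toMonoidHom α) = K := by
  ext x
  rw [Subgroup.mem_map]
  constructor
  · rintro ⟨y, hy, rfl⟩
    exact hK.inv y hy
  · intro hx
    refine ⟨(MulEquiv.symm α) x, ?_, ?_⟩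
    · rw [← hK.mem_iff]
      rw [MulEquiv.apply_symm_apply]
      exact hx
    · exact MulEquiv.apply_symm_apply α x

end fin

theorem adm_bot : Adm α (⊥ : Subgroup G) := ⟨inferInstance, by simp⟩

theorem adm_top : Adm α (⊤ : Subgroup G) := ⟨inferInstance, by simp⟩

theorem adm_commutator (hK : Adm α K) (hL : Adm α L) : Adm α ⁅K, L⁆ := by
  have := hK.normal
  have := hL.normal
  refine ⟨inferInstance, ?_⟩
  have h : ⁅K, L⁆.map (MulEquiv.toMonoidHom α) ≤ ⁅K, L⁆ := by
    rw [Subgroup.map_commutator]
    apply Subgroup.commutator_mono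
    · rintro _ ⟨x, hx, rfl⟩
      exact hK.inv x hx
    · rintro _ ⟨x, hx, rfl⟩
      exact hL.inv x hx
  intro x hx
  exact h ⟨x, hx, rfl⟩

end basic

end Pool.Agent.Helper32.Aff
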