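import Pool.Agent.Helper32.Aff1

set_option autoImplicit false

/-! Minimal admissible subgroups. -/

namespace Pool.Agent.Helper32.Aff

universe u

variable {G : Type u} [Group G] [Finite G] {t : G} {α : MulAut G} {V : Subgroup G}

/-- `V` is a minimal nontrivial admissible subgroup and abelian. -/
structure MinAb (α : MulAut G) (V : Subgroup G) : Prop where
  adm : Adm α V
  ab : ∀ x ∈ V, ∀ y ∈ V, x * y = y * x
  min : ∀ U : Subgroup G, Adm α U → U ≤ V → U = ⊥ ∨ U = V
  ne_bot : V ≠ ⊥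

omit [Finite G] in
theorem pow_comm_apply (m n : ℕ) (x : G) : (α ^ m) ((α ^ n) x) = (α ^ n) ((α ^ m) x) := by
  rw [← MulAut.mul_apply, ← MulAut.mul_apply, ← pow_add, ← pow_add, add_comm]

theorem conj_pow_comm (hV : MinAb α V) {m : ℕ} (hm : Per t α V m) (g : G) {v : G} (hv : v ∈ V) :
    (α ^ m) (g * v * g⁻¹) = g * (α ^ m) v * g⁻¹ := by
  have h1 := hm.lin hV.adm.normal g
  have h2 : (α ^ m) g = g * (g⁻¹ * (α ^ m) g) := by group
  have h3 := hV.ab _ h1 _ (hV.adm.pow_mem m hv)
  set l := g⁻¹ * (α ^ m) g with hl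
  rw [map_mul, map_mul, map_inv, h2]
  calc g * l * (α ^ m) v * (g * l)⁻¹ = g * (l * (α ^ m) v) * l⁻¹ * g⁻¹ := by group
    _ = g * ((α ^ m) v * l) * l⁻¹ * g⁻¹ := by rw [h3]
    _ = g * (α ^ m) v * g⁻¹ := by group

/-- Fixed points of `α ^ m` in `V`. -/
def fix (α : MulAut G) (V : Subgroup G) (m : ℕ) : Subgroup G where
  carrier := {v | v ∈ V ∧ (α ^ m) v = v}
  mul_mem' := by
    rintro a b ⟨ha, ha'⟩ ⟨hb, hb'⟩
    exact ⟨V.mul_mem ha hb, by rw [map_mul, ha', hb']⟩
  one_mem' := ⟨V.one_mem, map_one _⟩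
  inv_mem' := by
    rintro a ⟨ha, ha'⟩
    exact ⟨V.inv_mem ha, by rw [map_inv, ha']⟩

theorem adm_fix (hV : MinAb α V) {m : ℕ} (hm : Per t α V m) : Adm α (fix α V m) := by
  refine ⟨⟨?_⟩, ?_⟩
  · rintro v ⟨hv, hv'⟩ g
    refine ⟨hV.adm.normal.conj_mem v hv g, ?_⟩
    rw [conj_pow_comm hV hm g hv, hv']
  · rintro v ⟨hv, hv'⟩
    refine ⟨hV.adm.inv v hv, ?_⟩
    have h := pow_comm_apply (α := α) m 1 v
    rw [pow_one] at h
    rw [h, hv']

theorem fix_dich (hV : MinAb α V) {m : ℕ} (hm : Per t α V m) :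
    (∀ v ∈ V, (α ^ m) v = v → v = 1) ∨ (∀ v ∈ V, (α ^ m) v = v) := by
  rcases hV.min _ (adm_fix hV hm) (fun v hv => hv.1) with h | h
  · left
    intro v hv hv'
    have : v ∈ fix α V m := ⟨hv, hv'⟩
    rw [h, Subgroup.mem_bot] at this
    exact this
  · right
    intro v hv
    rw [← h] at hv
    exact hv.2

theorem exists_prime (hV : MinAb α V) : ∃ p : ℕ, p.Prime ∧ (∀ v ∈ V, v ^ p = 1) ∧
    ∃ e, Nat.card V = p ^ e := by
  have hcard : Nat.card V ≠ 1 := by
    intro h
    exact hV.ne_bot (Subgroup.card_eq_one.mp h)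
  obtain ⟨p, hp, hpd⟩ := Nat.exists_prime_and_dvd hcard
  have := Fact.mk hp
  obtain ⟨x, hx⟩ := exists_prime_orderOf_dvd_card' p hpd
  have hx1 : (x : G) ^ p = 1 := by
    have h := pow_orderOf_eq_one x
    rw [hx] at h
    exact_mod_cast congrArg Subtype.val h
  have hx2 : (x : G) ≠ 1 := by
    intro h
    have h2 : x = 1 := Subtype.ext h
    rw [h2, orderOf_one] at hx
    exact hp.one_lt.ne hx
  let U : Subgroup G :=
    { carrier := {v | v ∈ V ∧ v ^ p = 1}
      mul_mem' := by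
        rintro a b ⟨ha, ha'⟩ ⟨hb, hb'⟩
        refine ⟨V.mul_mem ha hb, ?_⟩
        rw [(show Commute a b from hV.ab a ha b hb).mul_pow, ha', hb', one_mul]
      one_mem' := ⟨V.one_mem, one_pow _⟩
      inv_mem' := by
        rintro a ⟨ha, ha'⟩
        exact ⟨V.inv_mem ha, by rw [inv_pow, ha', inv_one]⟩ }
  have hU : Adm α U := by
    refine ⟨⟨?_⟩, ?_⟩
    · rintro v ⟨hv, hv'⟩ g
      refine ⟨hV.adm.normal.conj_mem v hv g, ?_⟩
      rw [conj_pow, hv']
      simp
    · rintro v ⟨hv, hv'⟩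
      exact ⟨hV.adm.inv v hv, by rw [← map_pow, hv', map_one]⟩
  have hall : ∀ v ∈ V, v ^ p = 1 := by
    rcases hV.min U hU (fun v hv => hv.1) with h | h
    · exfalso
      have : (x : G) ∈ U := ⟨x.2, hx1⟩
      rw [h, Subgroup.mem_bot] at this
      exact hx2 this
    · intro v hv
      rw [← h] at hv
      exact hv.2
  refine ⟨p, hp, hall, ?_⟩
  have hP : IsPGroup p V := by
    intro v
    refine ⟨1, ?_⟩
    rw [pow_one]
    exact Subtype.ext (hall v v.2)
  exact IsPGroup.iff_card.mp hP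

theorem trans_case {p : ℕ} (hp : ∀ v ∈ V, v ^ p = 1)
    (h1 : ∀ v ∈ V, (α ^ (ord t α V)) v = v) : ord t α ⊥ ∣ ord t α V * p := by
  rw [← per_iff]
  intro x
  have hc : x⁻¹ * (affineMap t α ^ ord t α V) x ∈ V := ord_per t α V x
  have key : ∀ j : ℕ, (affineMap t α ^ (ord t α V * j)) x =
      x * (x⁻¹ * (affineMap t α ^ ord t α V) x) ^ j := by
    intro j
    induction j with
    | zero => simp
    | succ j ih =>
      rw [Nat.mul_succ, add_comm, pow_add, Equiv.Perm.mul_apply, ih, aff_pow_mul,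
        h1 _ (V.pow_mem hc j), pow_succ', ← mul_assoc x, mul_inv_cancel_left]
  rw [key p, hp _ hc]
  simp

theorem semi_case (hV : MinAb α V)
    (h1 : ∀ v ∈ V, (α ^ (ord t α V)) v = v → v = 1) {j : ℕ}
    (h2 : ∀ v ∈ V, (α ^ (ord t α V * j)) v = v) : ord t α ⊥ ∣ ord t α V * j := by
  rw [← per_iff]
  intro x
  rw [Subgroup.mem_bot, inv_mul_eq_one]
  have hc : x⁻¹ * (affineMap t α ^ ord t α V) x ∈ V := ord_per t α V x
  -- a fixed point in the coset of `x`
  let f : V → V := fun v => ⟨v * ((α ^ (ord t α V)) v)⁻¹,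
    V.mul_mem v.2 (V.inv_mem (hV.adm.pow_mem _ v.2))⟩
  have hf : Function.Injective f := by
    intro v w hvw
    have h3 : (v : G) * ((α ^ (ord t α V)) v)⁻¹ = w * ((α ^ (ord t α V)) w)⁻¹ :=
      congrArg Subtype.val hvw
    have hv := v.2
    have hw := w.2
    have hv' := hV.adm.pow_mem (ord t α V) hv
    have hw' := hV.adm.pow_mem (ord t α V) hw
    have h4 : (w : G)⁻¹ * v = ((α ^ (ord t α V)) w)⁻¹ * (α ^ (ord t α V)) v := by
      have h5 : (w : G)⁻¹ * (v * ((α ^ (ord t α V)) v)⁻¹) = ((α ^ (ord t α V)) w)⁻¹ := by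
        rw [h3]; group
      rw [← h5]
      group
    have h6 := h1 ((w : G)⁻¹ * v) (V.mul_mem (V.inv_mem hw) hv) (by
      rw [map_mul, map_inv, h4])
    apply Subtype.ext
    rw [inv_mul_eq_one] at h6
    exact h6.symm
  obtain ⟨v, hv⟩ := (Finite.injective_iff_surjective.mp hf) ⟨_, hc⟩
  have hv1 : (v : G) * ((α ^ (ord t α V)) v)⁻¹ = x⁻¹ * (affineMap t α ^ ord t α V) x :=
    congrArg Subtype.val hv
  have hfix : (affineMap t α ^ ord t α V) (x * v) = x * v := by
    rw [aff_pow_mul]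
    have h5 : (affineMap t α ^ ord t α V) x = x * (v * ((α ^ (ord t α V)) v)⁻¹) := by
      rw [hv1]; group
    rw [h5]; group
  have hfix2 : (affineMap t α ^ (ord t α V * j)) (x * v) = x * v := by
    rw [pow_mul]
    clear h2
    induction j with
    | zero => simp
    | succ j ih => rw [pow_succ, Equiv.Perm.mul_apply, hfix, ih]
  have h7 := h2 _ v.2
  rw [aff_pow_mul, h7] at hfix2
  exact (mul_right_cancel hfix2).symm

/-- The dichotomy: translations or semiregular. -/
theorem dich (hV : MinAb α V) :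
    (∀ v ∈ V, (α ^ (ord t α V)) v = v) ∨
    (∀ j : ℕ, (∃ v ∈ V, v ≠ 1 ∧ (α ^ (ord t α V * j)) v = v) → ord t α ⊥ ∣ ord t α V * j) := by
  rcases fix_dich hV (ord_per t α V) with h | h
  · right
    intro j ⟨v, hv, hv1, hv2⟩
    apply semi_case hV h
    rcases fix_dich hV ((ord_per t α V).mul j) with h2 | h2
    · exact absurd (h2 v hv hv2) hv1
    · exact h2
  · exact Or.inl h

omit [Finite G] in
theorem exists_mem_ne_one (hV : MinAb α V) : ∃ v, v ∈ V ∧ v ≠ 1 := by
  obtain ⟨⟨v, hv⟩, hne⟩ := (Subgroup.ne_bot_iff_exists_ne_one (H := V)).mp hV.ne_bot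
  exact ⟨v, hv, fun h => hne (Subtype.ext h)⟩

section orbit

variable (hV : MinAb α V)
  (hsemi : ∀ j : ℕ, (∃ v ∈ V, v ≠ 1 ∧ (α ^ (ord t α V * j)) v = v) →
    ord t α ⊥ ∣ ord t α V * j)
  {k : ℕ} (hk : ord t α ⊥ = ord t α V * k)

include hsemi hk in
theorem orbit_inj {v : G} (hv : v ∈ V) (hv1 : v ≠ 1) {i j : ℕ} (hi : i < k) (hj : j < k)
    (h : (α ^ (ord t α V * i)) v = (α ^ (ord t α V * j)) v) : i = j := by
  have hn := ord_pos t α V
  have key : ∀ i j : ℕ, i ≤ j → j < k →
      (α ^ (ord t α V * i)) v = (α ^ (ord t α V * j)) v → i = j := by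
    intro i j hij hj h
    have e : ord t α V * j = ord t α V * i + ord t α V * (j - i) := by
      rw [← Nat.mul_add, Nat.add_sub_cancel' hij]
    rw [e, pow_add, MulAut.mul_apply] at h
    have h2 := (α ^ (ord t α V * i)).injective h
    have h3 := hsemi (j - i) ⟨v, hv, hv1, h2.symm⟩
    rw [hk] at h3
    have h4 := Nat.dvd_of_mul_dvd_mul_left hn h3
    rcases Nat.eq_zero_or_pos (j - i) with h5 | h5
    · omega
    · have := Nat.le_of_dvd h5 h4
      omega
  rcases le_total i j with hij | hij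
  · exact key i j hij hj h
  · exact (key j i hij hi h.symm).symm

open Classical in
include hV hsemi hk in
theorem k_lt_card : k < Nat.card V := by
  obtain ⟨v, hv, hv1⟩ := exists_mem_ne_one hV
  let f : Option (Fin k) → V := fun o => match o with
    | none => 1
    | some i => ⟨(α ^ (ord t α V * i)) v, hV.adm.pow_mem _ hv⟩
  have hf : Function.Injective f := by
    rintro (_ | i) (_ | j) h
    · rfl
    · exfalso
      have h2 : (1 : G) = (α ^ (ord t α V * j)) v := congrArg Subtype.val h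
      exact hv1 ((map_eq_one_iff _ (α ^ (ord t α V * (j : ℕ))).injective).mp h2.symm)
    · exfalso
      have h2 : (α ^ (ord t α V * i)) v = (1 : G) := congrArg Subtype.val h
      exact hv1 ((map_eq_one_iff _ (α ^ (ord t α V * (i : ℕ))).injective).mp h2)
    · have h2 : (α ^ (ord t α V * i)) (v : G) = (α ^ (ord t α V * j)) v := congrArg Subtype.val h
      have := orbit_inj hsemi hk hv hv1 i.2 j.2 h2
      rw [Fin.ext this]
  have h3 := Nat.card_le_card_of_injective f hf
  rw [Finite.card_option, Nat.card_fin] at h3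
  omega

open Classical in
include hV hsemi hk in
theorem orbit_trans (hcard : Nat.card V < 2 * k) {v w : G} (hv : v ∈ V) (hv1 : v ≠ 1)
    (hw : w ∈ V) (hw1 : w ≠ 1) : ∃ i : ℕ, w = (α ^ (ord t α V * i)) v := by
  by_contra hn
  push Not at hn
  have hk0 : 0 < k := by
    have := ord_pos t α (⊥ : Subgroup G)
    rw [hk] at this
    exact Nat.pos_of_mul_pos_left this |> fun h => by
      rcases Nat.eq_zero_or_pos k with h0 | h0
      · subst h0; simp at this
      · exact h0
  have hper : ∀ x : G, (α ^ (ord t α V * k)) x = x := by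
    intro x
    have h1 := (ord_per t α (⊥ : Subgroup G)).lin inferInstance x
    rw [Subgroup.mem_bot, inv_mul_eq_one, hk] at h1
    exact h1.symm
  have hper2 : ∀ (m : ℕ) (x : G), (α ^ (ord t α V * (k * m))) x = x := by
    intro m x
    rw [← mul_assoc, pow_mul]
    induction m with
    | zero => simp
    | succ m ih => rw [pow_succ, MulAut.mul_apply, hper, ih]
  let f : Fin k ⊕ Fin k → V := fun o => match o with
    | Sum.inl i => ⟨(α ^ (ord t α V * i)) v, hV.adm.pow_mem _ hv⟩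
    | Sum.inr i => ⟨(α ^ (ord t α V * i)) w, hV.adm.pow_mem _ hw⟩
  have hdis : ∀ i j : ℕ, (α ^ (ord t α V * i)) v ≠ (α ^ (ord t α V * j)) w := by
    intro i j h
    apply hn (k * j - j + i)
    have hle : j ≤ k * j := Nat.le_mul_of_pos_left j hk0
    have e : ord t α V * (k * j) = ord t α V * (k * j - j) + ord t α V * j := by
      rw [← Nat.mul_add, Nat.sub_add_cancel hle]
    have h2 := hper2 j w
    rw [e, pow_add, MulAut.mul_apply, ← h, ← MulAut.mul_apply, ← pow_add, ← Nat.mul_add] at h2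
    exact h2.symm
  have hf : Function.Injective f := by
    rintro (i | i) (j | j) h
    · have h2 : (α ^ (ord t α V * i)) (v : G) = (α ^ (ord t α V * j)) v := congrArg Subtype.val h
      rw [Fin.ext (orbit_inj hsemi hk hv hv1 i.2 j.2 h2)]
    · exact absurd (congrArg Subtype.val h) (hdis i j)
    · exact absurd (congrArg Subtype.val h).symm (hdis j i)
    · have h2 : (α ^ (ord t α V * i)) (w : G) = (α ^ (ord t α V * j)) w := congrArg Subtype.val h
      rw [Fin.ext (orbit_inj hsemi hk hw hw1 i.2 j.2 h2)]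
  have h3 := Nat.card_le_card_of_injective f hf
  rw [Nat.card_sum, Nat.card_fin] at h3
  omega

end orbit

/-- The general bound for a minimal admissible subgroup. -/
theorem ord_bot_le (hV : MinAb α V) : ord t α ⊥ ≤ ord t α V * Nat.card V := by
  obtain ⟨k, hk⟩ := ord_dvd (t := t) (α := α) (bot_le : (⊥ : Subgroup G) ≤ V)
  rcases dich (t := t) hV with h | h
  · obtain ⟨p, hp, hpV, e, he⟩ := exists_prime hV
    have h1 := trans_case hpV h
    have h2 := Nat.le_of_dvd (Nat.mul_pos (ord_pos t α V) hp.pos) h1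
    refine h2.trans (Nat.mul_le_mul_left _ ?_)
    rw [he]
    have he0 : e ≠ 0 := by
      rintro rfl
      rw [pow_zero] at he
      exact hV.ne_bot (Subgroup.card_eq_one.mp he)
    exact Nat.le_self_pow he0 p
  · rw [hk]
    exact Nat.mul_le_mul_left _ (k_lt_card hV h hk).le

end Pool.Agent.Helper32.Aff
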