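import Pool.Agent.Helper32.Aff2

set_option autoImplicit false

/-! Quotients, chief pairs and the general bound. -/

namespace Pool.Agent.Helper32.Aff

universe u

section quo

variable {G : Type u} [Group G] [Finite G] {t : G} {α : MulAut G} {K L : Subgroup G}

/-- The induced automorphism of `G ⧸ K`. -/
noncomputable def quoAut [K.Normal] (hK : Adm α K) : MulAut (G ⧸ K) :=
  QuotientGroup.congr K K α hK.map_eq

theorem quoAut_mk [K.Normal] (hK : Adm α K) (x : G) :
    quoAut hK (x : G ⧸ K) = ((α x : G) : G ⧸ K) := rfl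

theorem aff_mk [K.Normal] (hK : Adm α K) (n : ℕ) (x : G) :
    (affineMap (t : G ⧸ K) (quoAut hK) ^ n) (x : G ⧸ K)
      = (((affineMap t α ^ n) x : G) : G ⧸ K) := by
  induction n with
  | zero => rfl
  | succ n ih =>
    rw [pow_succ', pow_succ', Equiv.Perm.mul_apply, Equiv.Perm.mul_apply, ih, affineMap_apply,
      affineMap_apply, quoAut_mk]
    rfl

theorem per_comap [K.Normal] (hK : Adm α K) (U : Subgroup (G ⧸ K)) (n : ℕ) :
    Per (t : G ⧸ K) (quoAut hK) U n ↔ Per t α (U.comap (QuotientGroup.mk' K)) n := by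
  constructor
  · intro h x
    have h1 := h (x : G ⧸ K)
    rw [aff_mk] at h1
    exact h1
  · intro h x
    obtain ⟨x, rfl⟩ := QuotientGroup.mk_surjective x
    rw [aff_mk]
    exact h x

theorem ord_comap [K.Normal] (hK : Adm α K) (U : Subgroup (G ⧸ K)) :
    ord (t : G ⧸ K) (quoAut hK) U = ord t α (U.comap (QuotientGroup.mk' K)) := by
  apply Nat.dvd_antisymm
  · rw [← per_iff, per_comap]
    exact ord_per _ _ _
  · rw [← per_iff, ← per_comap hK]
    exact ord_per _ _ _

theorem adm_comap [K.Normal] (hK : Adm α K) {U : Subgroup (G ⧸ K)} (hU : Adm (quoAut hK) U) :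
    Adm α (U.comap (QuotientGroup.mk' K)) := by
  have := hU.normal
  refine ⟨inferInstance, fun x hx => ?_⟩
  rw [Subgroup.mem_comap] at hx ⊢
  exact hU.inv _ hx

theorem adm_map [K.Normal] (hK : Adm α K) (hL : Adm α L) :
    Adm (quoAut hK) (L.map (QuotientGroup.mk' K)) := by
  refine ⟨hL.normal.map _ (QuotientGroup.mk'_surjective K), ?_⟩
  rintro _ ⟨x, hx, rfl⟩
  exact ⟨α x, hL.inv x hx, rfl⟩

omit [Finite G] in
theorem comap_map (h : K ≤ L) [K.Normal] :
    (L.map (QuotientGroup.mk' K)).comap (QuotientGroup.mk' K) = L := by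
  rw [QuotientGroup.comap_map_mk', sup_eq_right.mpr h]

theorem ord_quo_bot [K.Normal] (hK : Adm α K) :
    ord (t : G ⧸ K) (quoAut hK) ⊥ = ord t α K := by
  rw [ord_comap]
  congr 1
  rw [MonoidHom.comap_bot, QuotientGroup.ker_mk']

theorem ord_quo_map [K.Normal] (hK : Adm α K) (h : K ≤ L) :
    ord (t : G ⧸ K) (quoAut hK) (L.map (QuotientGroup.mk' K)) = ord t α L := by
  rw [ord_comap, comap_map h]

omit [Finite G] in
theorem card_map [K.Normal] : Nat.card (L.map (QuotientGroup.mk' K)) = K.relIndex L := by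
  rw [← Subgroup.relIndex_ker, QuotientGroup.ker_mk']

theorem relIndex_ne : K.relIndex L ≠ 0 := by
  rw [Subgroup.relIndex]
  exact Subgroup.index_ne_zero_of_finite

/-- Chief pairs. -/
structure Chief (α : MulAut G) (K L : Subgroup G) : Prop where
  admK : Adm α K
  admL : Adm α L
  lt : K < L
  between : ∀ U : Subgroup G, Adm α U → K ≤ U → U ≤ L → U = K ∨ U = L

theorem Chief.minAb [K.Normal] [Group.IsSolvable G] (h : Chief α K L) :
    MinAb (quoAut h.admK) (L.map (QuotientGroup.mk' K)) := by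
  have hadm := adm_map h.admK h.admL
  have hne : L.map (QuotientGroup.mk' K) ≠ ⊥ := by
    intro h1
    rw [Subgroup.map_eq_bot_iff, QuotientGroup.ker_mk'] at h1
    exact h.lt.not_ge h1
  have hmin : ∀ U : Subgroup (G ⧸ K), Adm (quoAut h.admK) U → U ≤ L.map (QuotientGroup.mk' K) →
      U = ⊥ ∨ U = L.map (QuotientGroup.mk' K) := by
    intro U hU hUL
    have h1 := adm_comap h.admK hU
    have h2 : K ≤ U.comap (QuotientGroup.mk' K) := by
      intro x hx
      rw [Subgroup.mem_comap]
      have : QuotientGroup.mk' K x = 1 := (QuotientGroup.eq_one_iff x).mpr hx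
      rw [this]
      exact U.one_mem
    have h3 : U.comap (QuotientGroup.mk' K) ≤ L := by
      rw [← comap_map h.lt.le]
      exact Subgroup.comap_mono hUL
    have h4 : (U.comap (QuotientGroup.mk' K)).map (QuotientGroup.mk' K) = U :=
      Subgroup.map_comap_eq_self_of_surjective (QuotientGroup.mk'_surjective K) U
    rcases h.between _ h1 h2 h3 with h5 | h5
    · left
      rw [← h4, h5, Subgroup.map_eq_bot_iff, QuotientGroup.ker_mk']
    · right
      rw [← h4, h5]
  refine ⟨hadm, ?_, hmin, hne⟩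
  have h6 : ⁅L.map (QuotientGroup.mk' K), L.map (QuotientGroup.mk' K)⁆ = ⊥ := by
    rcases hmin _ (adm_commutator hadm hadm)
      (Group.IsSolvable.commutator_lt_of_ne_bot hne).le with h7 | h7
    · exact h7
    · exact absurd h7 (Group.IsSolvable.commutator_lt_of_ne_bot hne).ne
  rw [Subgroup.commutator_eq_bot_iff_le_centralizer] at h6
  intro x hx y hy
  have := h6 hy
  rw [Subgroup.mem_centralizer_iff] at this
  exact this x hx

theorem exists_chief (hK : Adm α K) (hL : Adm α L) (h : K < L) :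
    ∃ U, Chief α K U ∧ U ≤ L := by
  classical
  have hfin : Finite (Subgroup G) := inferInstance
  obtain ⟨U, hU⟩ := Set.Finite.exists_minimal
    (s := {U : Subgroup G | Adm α U ∧ K < U ∧ U ≤ L}) (Set.toFinite _) ⟨L, hL, h, le_rfl⟩
  refine ⟨U, ⟨hK, hU.prop.1, hU.prop.2.1, fun U' hU' h1 h2 => ?_⟩, hU.prop.2.2⟩
  rcases eq_or_lt_of_le h1 with h3 | h3
  · exact Or.inl h3.symm
  · right
    exact le_antisymm h2 (hU.le_of_le ⟨hU', h3, h2.trans hU.prop.2.2⟩ h2)

theorem exists_chief_top (hK : Adm α K) (hL : Adm α L) (h : K < L) :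
    ∃ U, Chief α U L ∧ K ≤ U := by
  classical
  obtain ⟨U, hU⟩ := Set.Finite.exists_maximal
    (s := {U : Subgroup G | Adm α U ∧ K ≤ U ∧ U < L}) (Set.toFinite _) ⟨K, hK, le_rfl, h⟩
  refine ⟨U, ⟨hU.prop.1, hL, hU.prop.2.2, fun U' hU' h1 h2 => ?_⟩, hU.prop.2.1⟩
  rcases eq_or_lt_of_le h2 with h3 | h3
  · exact Or.inr h3
  · left
    exact le_antisymm (hU.le_of_ge ⟨hU', hU.prop.2.1.trans h1, h3⟩ h1) h1

theorem Chief.ord_le [Group.IsSolvable G] (h : Chief α K L) :
    ord t α K ≤ ord t α L * K.relIndex L := by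
  have := h.admK.normal
  have h1 := ord_bot_le (t := (t : G ⧸ K)) h.minAb
  rwa [ord_quo_bot, ord_quo_map h.admK h.lt.le, card_map] at h1

/-- The general bound. -/
theorem ord_le_relIndex [Group.IsSolvable G] (hK : Adm α K) (hL : Adm α L) (h : K ≤ L) :
    ord t α K ≤ ord t α L * K.relIndex L := by
  induction hn : K.relIndex L using Nat.strong_induction_on generalizing K with
  | _ n ih =>
    rcases eq_or_lt_of_le h with h0 | h0
    · subst h0
      rw [← hn, Subgroup.relIndex_self, mul_one]
    · obtain ⟨U, hU, hUL⟩ := exists_chief hK hL h0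
      have h1 := hU.ord_le (t := t)
      have h2 := Subgroup.relIndex_mul_relIndex K U L hU.lt.le hUL
      have h3 : 1 < K.relIndex U := by
        have h4 : K.relIndex U ≠ 0 := relIndex_ne
        have h5 : K.relIndex U ≠ 1 := by
          intro h6
          rw [Subgroup.relIndex_eq_one] at h6
          exact hU.lt.not_ge h6
        omega
      have h7 : U.relIndex L ≠ 0 := relIndex_ne
      have h8 : U.relIndex L < n := by
        rw [← hn, ← h2]
        calc U.relIndex L = 1 * U.relIndex L := (one_mul _).symm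
          _ < K.relIndex U * U.relIndex L :=
            Nat.mul_lt_mul_of_pos_right h3 (Nat.pos_of_ne_zero h7)
      have h9 := ih _ h8 hU.admL hUL rfl
      rw [← hn, ← h2]
      calc ord t α K ≤ ord t α U * K.relIndex U := h1
        _ ≤ (ord t α L * U.relIndex L) * K.relIndex U := Nat.mul_le_mul_right _ h9
        _ = ord t α L * (K.relIndex U * U.relIndex L) := by ring

end quo

end Pool.Agent.Helper32.Aff
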