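import Pool.Agent.Helper32.Aff3

set_option autoImplicit false

/-! Chief factors inside the derived subgroup. -/

namespace Pool.Agent.Helper32.Aff

universe u

open scoped commutatorElement

variable {G : Type u} [Group G] [Finite G] {t : G} {α : MulAut G} {K L V : Subgroup G}

theorem card_lt_two_mul [Group.IsSolvable G] (hgood : Nat.card G < 2 * ord t α ⊥) (hV : Adm α V)
    {k : ℕ} (hk : ord t α ⊥ = ord t α V * k) : Nat.card V < 2 * k := by
  have h1 := ord_le_relIndex (t := t) hV adm_top le_top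
  rw [ord_top, one_mul, Subgroup.relIndex_top_right] at h1
  have h2 := V.card_mul_index
  rw [← h2, hk] at hgood
  by_contra hn
  push Not at hn
  have h3 : 2 * (ord t α V * k) ≤ Nat.card V * V.index := by
    calc 2 * (ord t α V * k) = (2 * k) * ord t α V := by ring
      _ ≤ Nat.card V * V.index := Nat.mul_le_mul hn h1
  omega

section typeTwo

variable [Group.IsSolvable G] (hgood : Nat.card G < 2 * ord t α ⊥) (hV : MinAb α V)
  (hsemi : ∀ j : ℕ, (∃ v ∈ V, v ≠ 1 ∧ (α ^ (ord t α V * j)) v = v) →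
    ord t α ⊥ ∣ ord t α V * j)

include hgood hV hsemi in
theorem conj_eq_pow (g : G) : ∃ i : ℕ, ∀ v ∈ V, g * v * g⁻¹ = (α ^ (ord t α V * i)) v := by
  obtain ⟨k, hk⟩ := ord_dvd (t := t) (α := α) (bot_le : (⊥ : Subgroup G) ≤ V)
  have hcard := card_lt_two_mul hgood hV.adm hk
  obtain ⟨v, hv, hv1⟩ := exists_mem_ne_one hV
  have h1 : g * v * g⁻¹ ∈ V := hV.adm.normal.conj_mem v hv g
  have h2 : g * v * g⁻¹ ≠ 1 := by
    intro h
    apply hv1
    have := congrArg (fun x => g⁻¹ * x * g) h
    simpa [mul_assoc] using this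
  obtain ⟨i, hi⟩ := orbit_trans hV hsemi hk hcard hv hv1 h1 h2
  refine ⟨i, fun w hw => ?_⟩
  by_cases hw1 : w = 1
  · subst hw1
    simp
  · obtain ⟨j, rfl⟩ := orbit_trans hV hsemi hk hcard hv hv1 hw hw1
    rw [← conj_pow_comm hV ((ord_per t α V).mul j) g hv, hi, pow_comm_apply]

include hgood hV hsemi in
theorem alpha_eq_pow : ∃ i : ℕ, ∀ v ∈ V, α v = (α ^ (ord t α V * i)) v := by
  obtain ⟨k, hk⟩ := ord_dvd (t := t) (α := α) (bot_le : (⊥ : Subgroup G) ≤ V)
  have hcard := card_lt_two_mul hgood hV.adm hk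
  obtain ⟨v, hv, hv1⟩ := exists_mem_ne_one hV
  have h1 : α v ∈ V := hV.adm.inv v hv
  have h2 : α v ≠ 1 := by
    intro h
    exact hv1 ((map_eq_one_iff _ α.injective).mp h)
  obtain ⟨i, hi⟩ := orbit_trans hV hsemi hk hcard hv hv1 h1 h2
  refine ⟨i, fun w hw => ?_⟩
  by_cases hw1 : w = 1
  · subst hw1
    simp
  · obtain ⟨j, rfl⟩ := orbit_trans hV hsemi hk hcard hv hv1 hw hw1
    have h3 := pow_comm_apply (α := α) 1 (ord t α V * j) v
    rw [pow_one] at h3
    rw [h3, hi, pow_comm_apply]

include hgood hV hsemi in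
theorem conj_alpha (x : G) {v : G} (hv : v ∈ V) : α x * v * (α x)⁻¹ = x * v * x⁻¹ := by
  obtain ⟨i, hi⟩ := conj_eq_pow hgood hV hsemi x
  obtain ⟨u, rfl⟩ : ∃ u, v = α u := ⟨(MulEquiv.symm α) v, (MulEquiv.apply_symm_apply α v).symm⟩
  have hu : u ∈ V := (hV.adm.mem_iff u).mp hv
  rw [hi _ hv, ← map_inv, ← map_mul, ← map_mul, hi u hu]
  have h3 := pow_comm_apply (α := α) 1 (ord t α V * i) u
  rw [pow_one] at h3
  exact h3

include hgood hV hsemi in
theorem t_central {v : G} (hv : v ∈ V) : t * v * t⁻¹ = v := by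
  obtain ⟨j, hj⟩ := conj_eq_pow hgood hV hsemi t
  obtain ⟨c, hc⟩ := alpha_eq_pow hgood hV hsemi
  set n := ord t α V with hn
  -- conjugation by the translation part of the iterates
  have key : ∀ m : ℕ, ∀ v ∈ V, (affineMap t α ^ m) 1 * v * ((affineMap t α ^ m) 1)⁻¹
      = (α ^ (n * (j * m))) v := by
    intro m
    induction m with
    | zero => intro v _; simp
    | succ m ih =>
      intro v hv
      have h1 : (affineMap t α ^ (m + 1)) 1 = t * α ((affineMap t α ^ m) 1) := by
        rw [pow_succ', Equiv.Perm.mul_apply, affineMap_apply]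
      rw [h1]
      have h2 : t * α ((affineMap t α ^ m) 1) * v * (t * α ((affineMap t α ^ m) 1))⁻¹
          = t * (α ((affineMap t α ^ m) 1) * v * (α ((affineMap t α ^ m) 1))⁻¹) * t⁻¹ := by
        group
      rw [h2, conj_alpha hgood hV hsemi _ hv, ih v hv, hj _ (hV.adm.pow_mem _ hv),
        ← MulAut.mul_apply, ← pow_add, ← Nat.mul_add, Nat.mul_succ, Nat.add_comm]
  have h1 : ∀ v ∈ V, (α ^ (n * (j * n))) v = v := by
    intro v hv
    rw [← key n v hv]
    have h2 : (affineMap t α ^ n) 1 ∈ V := (ord_per t α V).one_mem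
    rw [hV.ab _ h2 _ hv]
    group
  have h2 : ∀ m : ℕ, ∀ v ∈ V, (α ^ m) v = (α ^ (n * (c * m))) v := by
    intro m
    induction m with
    | zero => intro v _; simp
    | succ m ih =>
      intro v hv
      rw [pow_succ', MulAut.mul_apply, hc _ (hV.adm.pow_mem m hv), ih v hv, ← MulAut.mul_apply,
        ← pow_add, ← Nat.mul_add]
      congr 3
      ring
  have h3 : ∀ i : ℕ, ∀ v ∈ V, (α ^ (n * (j * n) * i)) v = v := by
    intro i
    induction i with
    | zero => intro v _; simp
    | succ i ih => intro v hv; rw [Nat.mul_succ, pow_add, MulAut.mul_apply, h1 v hv, ih v hv]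
  rw [hj v hv, h2 _ v hv]
  have e : n * (c * (n * j)) = n * (j * n) * c := by ring
  rw [e]
  exact h3 c v hv

include hgood hV hsemi in
theorem V_central (g : G) {v : G} (hv : v ∈ V) : g * v = v * g := by
  -- the centralizer of `V`
  set Z := Subgroup.centralizer (V : Set G) with hZ
  have hVn := hV.adm.normal
  have hZn : Z.Normal := inferInstance
  have hmem : ∀ g : G, g ∈ Z ↔ ∀ v ∈ V, g * v * g⁻¹ = v := by
    intro g
    rw [hZ, Subgroup.mem_centralizer_iff]
    constructor
    · intro h v hv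
      rw [← h v hv]; group
    · intro h v hv
      have := h v hv
      calc v * g = (g * v * g⁻¹) * g := by rw [this]
        _ = g * v := by group
  have hZa : Adm α Z := by
    refine ⟨hZn, fun x hx => ?_⟩
    rw [hmem] at hx ⊢
    intro v hv
    rw [conj_alpha hgood hV hsemi x hv, hx v hv]
  have hper : Per t α Z 1 := by
    intro x
    rw [pow_one, affineMap_apply]
    have h1 : x⁻¹ * α x ∈ Z := by
      rw [hmem]
      intro v hv
      have h2 := conj_alpha hgood hV hsemi x hv
      calc x⁻¹ * α x * v * (x⁻¹ * α x)⁻¹ = x⁻¹ * (α x * v * (α x)⁻¹) * x := by group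
        _ = x⁻¹ * (x * v * x⁻¹) * x := by rw [h2]
        _ = v := by group
    have h2 : t ∈ Z := by
      rw [hmem]
      intro v hv
      exact t_central hgood hV hsemi hv
    have h3 := hZn.conj_mem t h2 x⁻¹
    have := Z.mul_mem h3 h1
    simpa [mul_assoc] using this
  have hord : ord t α Z = 1 := by
    have := ord_le one_pos hper
    have := ord_pos t α Z
    omega
  have h1 := ord_le_relIndex (t := t) adm_bot hZa bot_le
  rw [hord, one_mul, Subgroup.relIndex_bot_left] at h1
  have h2 := Z.card_mul_index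
  have h3 : Z.index = 1 := by
    have h4 : Z.index ≠ 0 := Subgroup.index_ne_zero_of_finite
    by_contra h5
    have h6 : 2 ≤ Z.index := by omega
    have h7 : Nat.card Z * 2 ≤ Nat.card Z * Z.index := Nat.mul_le_mul_left _ h6
    omega
  rw [Subgroup.index_eq_one] at h3
  have h4 : g ∈ Z := by rw [h3]; exact Subgroup.mem_top _
  rw [hZ, Subgroup.mem_centralizer_iff] at h4
  exact (h4 v hv).symm

include hgood hV hsemi in
theorem fix_commutator (hVc : V ≤ commutator G) : ∀ v ∈ V, (α ^ (ord t α V)) v = v := by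
  let F : Subgroup G :=
    { carrier := {x | (α ^ (ord t α V)) x = x}
      mul_mem' := by
        intro a b ha hb
        change (α ^ (ord t α V)) (a * b) = a * b
        rw [map_mul, ha, hb]
      one_mem' := map_one _
      inv_mem' := by
        intro a ha
        change (α ^ (ord t α V)) a⁻¹ = a⁻¹
        rw [map_inv, ha] }
  have hF : commutator G ≤ F := by
    rw [commutator_def, Subgroup.commutator_le]
    intro x _ y _
    change (α ^ (ord t α V)) ⁅x, y⁆ = ⁅x, y⁆
    have hx := (ord_per t α V).lin hV.adm.normal x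
    have hy := (ord_per t α V).lin hV.adm.normal y
    obtain ⟨c, hc⟩ : ∃ c, c = x⁻¹ * (α ^ (ord t α V)) x := ⟨_, rfl⟩
    obtain ⟨d, hd⟩ : ∃ d, d = y⁻¹ * (α ^ (ord t α V)) y := ⟨_, rfl⟩
    rw [← hc] at hx
    rw [← hd] at hy
    have ex : (α ^ (ord t α V)) x = x * c := by rw [hc]; group
    have ey : (α ^ (ord t α V)) y = y * d := by rw [hd]; group
    have hcc : ∀ g, g * c = c * g := fun g => V_central hgood hV hsemi g hx
    have hdc : ∀ g, g * d = d * g := fun g => V_central hgood hV hsemi g hy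
    rw [map_commutatorElement, ex, ey, commutatorElement_def, commutatorElement_def]
    calc x * c * (y * d) * (x * c)⁻¹ * (y * d)⁻¹
        = x * (c * y) * d * (c⁻¹ * x⁻¹) * (d⁻¹ * y⁻¹) := by group
      _ = x * (y * c) * d * (c⁻¹ * x⁻¹) * (d⁻¹ * y⁻¹) := by rw [hcc y]
      _ = x * y * (c * d) * (c⁻¹ * x⁻¹) * (d⁻¹ * y⁻¹) := by group
      _ = x * y * (d * c) * (c⁻¹ * x⁻¹) * (d⁻¹ * y⁻¹) := by rw [hdc c]
      _ = x * y * (d * x⁻¹) * d⁻¹ * y⁻¹ := by group
      _ = x * y * (x⁻¹ * d) * d⁻¹ * y⁻¹ := by rw [hdc x⁻¹]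
      _ = x * y * x⁻¹ * y⁻¹ := by group
  intro v hv
  exact hF (hVc hv)

end typeTwo

theorem min_prime [Group.IsSolvable G] (hgood : Nat.card G < 2 * ord t α ⊥) (hV : MinAb α V)
    (hVc : V ≤ commutator G) :
    (Nat.card V).Prime ∧ ord t α ⊥ = ord t α V * Nat.card V := by
  obtain ⟨k, hk⟩ := ord_dvd (t := t) (α := α) (bot_le : (⊥ : Subgroup G) ≤ V)
  have hcard := card_lt_two_mul hgood hV.adm hk
  have hA : ∀ v ∈ V, (α ^ (ord t α V)) v = v := by
    rcases dich (t := t) hV with h | h
    · exact h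
    · exact fix_commutator hgood hV h hVc
  obtain ⟨p, hp, hpV, e, he⟩ := exists_prime hV
  have h1 := trans_case hpV hA
  rw [hk] at h1
  have h2 := Nat.dvd_of_mul_dvd_mul_left (ord_pos t α V) h1
  have he0 : e ≠ 0 := by
    rintro rfl
    rw [pow_zero] at he
    exact hV.ne_bot (Subgroup.card_eq_one.mp he)
  have hge : p ≤ p ^ e := Nat.le_self_pow he0 p
  have hp2 := hp.two_le
  rcases (Nat.dvd_prime hp).mp h2 with h3 | h3
  · subst h3
    omega
  · subst h3
    have he1 : e = 1 := by
      by_contra h4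
      have h5 : 2 ≤ e := by omega
      have h6 : k ^ 2 ≤ k ^ e := Nat.pow_le_pow_right hp.pos h5
      have h7 : 2 * k ≤ k ^ 2 := by
        rw [pow_two]
        exact Nat.mul_le_mul_right _ hp2
      omega
    subst he1
    rw [pow_one] at he
    rw [he]
    exact ⟨hp, hk⟩

/-- Chief pairs inside the derived subgroup. -/
theorem Chief.prime [Group.IsSolvable G] (hgood : Nat.card G < 2 * ord t α ⊥)
    (h : Chief α K L) (hL : L ≤ commutator G) :
    (K.relIndex L).Prime ∧ ord t α K = ord t α L * K.relIndex L := by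
  have := h.admK.normal
  have h1 := ord_le_relIndex (t := t) adm_bot h.admK bot_le
  rw [Subgroup.relIndex_bot_left] at h1
  have h2 := K.card_mul_index
  have hgood' : Nat.card (G ⧸ K) < 2 * ord (t : G ⧸ K) (quoAut h.admK) ⊥ := by
    rw [ord_quo_bot]
    change K.index < _
    by_contra hn
    push Not at hn
    have h3 : Nat.card K * (2 * ord t α K) ≤ Nat.card K * K.index := Nat.mul_le_mul_left _ hn
    have h4 : 2 * ord t α ⊥ ≤ Nat.card K * (2 * ord t α K) := by
      calc 2 * ord t α ⊥ ≤ 2 * (ord t α K * Nat.card K) := Nat.mul_le_mul_left _ h1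
        _ = Nat.card K * (2 * ord t α K) := by ring
    omega
  have hVc : L.map (QuotientGroup.mk' K) ≤ commutator (G ⧸ K) := by
    refine (Subgroup.map_mono hL).trans ?_
    rw [commutator_def, Subgroup.map_commutator]
    exact Subgroup.commutator_mono le_top le_top
  have h3 := min_prime hgood' h.minAb hVc
  rwa [ord_quo_bot, ord_quo_map h.admK h.lt.le, card_map] at h3

/-- The order formula inside the derived subgroup. -/
theorem ord_eq [Group.IsSolvable G] (hgood : Nat.card G < 2 * ord t α ⊥)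
    (hK : Adm α K) (hL : Adm α L) (h : K ≤ L) (hLc : L ≤ commutator G) :
    ord t α K = ord t α L * K.relIndex L := by
  induction hn : K.relIndex L using Nat.strong_induction_on generalizing K with
  | _ n ih =>
    rcases eq_or_lt_of_le h with h0 | h0
    · subst h0
      rw [← hn, Subgroup.relIndex_self, mul_one]
    · obtain ⟨U, hU, hUL⟩ := exists_chief hK hL h0
      obtain ⟨h3, h1⟩ := hU.prime hgood (hUL.trans hLc)
      have h2 := Subgroup.relIndex_mul_relIndex K U L hU.lt.le hUL
      have h7 : U.relIndex L ≠ 0 := relIndex_ne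
      have h8 : U.relIndex L < n := by
        rw [← hn, ← h2]
        calc U.relIndex L = 1 * U.relIndex L := (one_mul _).symm
          _ < K.relIndex U * U.relIndex L :=
            Nat.mul_lt_mul_of_pos_right h3.one_lt (Nat.pos_of_ne_zero h7)
      have h9 := ih _ h8 hU.admL hUL rfl
      rw [← hn, ← h2, h1, h9]
      ring

theorem good_quo [Group.IsSolvable G] [K.Normal] (hgood : Nat.card G < 2 * ord t α ⊥)
    (hK : Adm α K) : Nat.card (G ⧸ K) < 2 * ord (t : G ⧸ K) (quoAut hK) ⊥ := by
  have h1 := ord_le_relIndex (t := t) adm_bot hK bot_le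
  rw [Subgroup.relIndex_bot_left] at h1
  have h2 := K.card_mul_index
  rw [ord_quo_bot]
  change K.index < _
  by_contra hn
  push Not at hn
  have h3 : Nat.card K * (2 * ord t α K) ≤ Nat.card K * K.index := Nat.mul_le_mul_left _ hn
  have h4 : 2 * ord t α ⊥ ≤ Nat.card K * (2 * ord t α K) := by
    calc 2 * ord t α ⊥ ≤ 2 * (ord t α K * Nat.card K) := Nat.mul_le_mul_left _ h1
      _ = Nat.card K * (2 * ord t α K) := by ring
  omega

end Pool.Agent.Helper32.Aff
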