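import Pool.Agent.Helper32.Aff4

set_option autoImplicit false

/-! The order computations. -/

namespace Pool.Agent.Helper32.Aff

universe u

open scoped commutatorElement

variable {G : Type u} [Group G] {t : G} {α : MulAut G} {K L U P X₁ X₂ : Subgroup G}

theorem comm_centralizes (X : Subgroup G) [X.Normal]
    (h : ∀ g k : G, ∀ x ∈ X, g * (k * x * k⁻¹) * g⁻¹ = k * (g * x * g⁻¹) * k⁻¹) :
    ∀ c ∈ commutator G, ∀ x ∈ X, c * x = x * c := by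
  have h1 : commutator G ≤ Subgroup.centralizer (X : Set G) := by
    rw [commutator_def, Subgroup.commutator_le]
    intro g _ k _
    rw [Subgroup.mem_centralizer_iff]
    intro x hx
    have h2 : (k * g)⁻¹ * x * (k * g) ∈ X := by
      have := ‹X.Normal›.conj_mem x hx (k * g)⁻¹
      simpa using this
    have h3 := h g k _ h2
    rw [commutatorElement_def]
    have h4 : g * (k * ((k * g)⁻¹ * x * (k * g)) * k⁻¹) * g⁻¹ = x := by
      rw [h3]; group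
    calc x * (g * k * g⁻¹ * k⁻¹)
        = (g * (k * ((k * g)⁻¹ * x * (k * g)) * k⁻¹) * g⁻¹) * (g * k * g⁻¹ * k⁻¹) := by rw [h4]
      _ = g * k * g⁻¹ * k⁻¹ * x := by group
  intro c hc x hx
  have := h1 hc
  rw [Subgroup.mem_centralizer_iff] at this
  exact (this x hx).symm

theorem exists_zpow_conj (D : Subgroup G) [hDn : D.Normal] (hp : (Nat.card D).Prime) (g : G) :
    ∃ a : ℤ, ∀ x ∈ D, g * x * g⁻¹ = x ^ a := by
  have := Fact.mk hp
  have hcyc : IsCyclic D := isCyclic_of_prime_card rfl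
  obtain ⟨d, hd⟩ := hcyc.exists_generator
  obtain ⟨a, ha⟩ := Subgroup.mem_zpowers_iff.mp (hd ⟨g * d * g⁻¹, hDn.conj_mem _ d.2 g⟩)
  have ha' : (d : G) ^ a = g * d * g⁻¹ := by
    have := congrArg Subtype.val ha
    simpa using this
  refine ⟨a, fun x hx => ?_⟩
  obtain ⟨i, hi⟩ := Subgroup.mem_zpowers_iff.mp (hd ⟨x, hx⟩)
  have hi' : (d : G) ^ i = x := by
    have := congrArg Subtype.val hi
    simpa using this
  rw [← hi', ← zpow_mul, mul_comm, zpow_mul, ha', conj_zpow]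

theorem prime_conj (D : Subgroup G) [hDn : D.Normal] (hp : (Nat.card D).Prime) :
    ∀ g k : G, ∀ x ∈ D, g * (k * x * k⁻¹) * g⁻¹ = k * (g * x * g⁻¹) * k⁻¹ := by
  intro g k x hx
  obtain ⟨a, ha⟩ := exists_zpow_conj D hp g
  obtain ⟨b, hb⟩ := exists_zpow_conj D hp k
  rw [ha _ (hDn.conj_mem x hx k), hb _ (hDn.conj_mem x hx g), ha x hx, hb x hx, ← zpow_mul,
    ← zpow_mul, mul_comm]

/-- A power of an automorphism of `p`-power order modulo `K` acts trivially on sections of order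
`p`. -/
theorem prime_act [Finite G] (hK : Adm α K) (hL : Adm α L) {p : ℕ}
    (hp : p.Prime) (hi : K.relIndex L = p) {n j : ℕ}
    (h : ∀ y ∈ L, y⁻¹ * (α ^ (n * p ^ j)) y ∈ K) : ∀ y ∈ L, y⁻¹ * (α ^ n) y ∈ K := by
  have := hK.normal
  have := Fact.mk hp
  intro y hy
  by_cases hyK : y ∈ K
  · exact K.mul_mem (K.inv_mem hyK) (hK.pow_mem n hyK)
  -- work in the quotient
  have hcard : Nat.card (L.map (QuotientGroup.mk' K)) = p := by rw [card_map, hi]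
  have hy1 : (y : G ⧸ K) ≠ 1 := by
    rw [Ne, QuotientGroup.eq_one_iff]
    exact hyK
  have hyL : (y : G ⧸ K) ∈ L.map (QuotientGroup.mk' K) := ⟨y, hy, rfl⟩
  have hord : orderOf (y : G ⧸ K) = p := by
    have h1 : orderOf (⟨(y : G ⧸ K), hyL⟩ : L.map (QuotientGroup.mk' K)) ∣ p := by
      rw [← hcard]
      exact orderOf_dvd_natCard _
    rcases (Nat.dvd_prime hp).mp h1 with h2 | h2
    · exfalso
      apply hy1
      rw [orderOf_eq_one_iff] at h2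
      exact congrArg Subtype.val h2
    · rw [← h2, Subgroup.orderOf_mk]
  have hz : L.map (QuotientGroup.mk' K) = Subgroup.zpowers (y : G ⧸ K) := by
    symm
    apply Subgroup.eq_of_le_of_card_ge
    · rw [Subgroup.zpowers_le]
      exact hyL
    · rw [hcard, Nat.card_zpowers, hord]
  have hb : ((α ^ n) y : G ⧸ K) ∈ Subgroup.zpowers (y : G ⧸ K) := by
    rw [← hz]
    exact ⟨(α ^ n) y, hL.pow_mem n hy, rfl⟩
  rw [← mem_powers_iff_mem_zpowers] at hb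
  obtain ⟨a, ha⟩ := hb
  change (y : G ⧸ K) ^ a = ((α ^ n) y : G) at ha
  have hpow : ∀ m : ℕ, (((α ^ (n * m)) y : G) : G ⧸ K) = (y : G ⧸ K) ^ (a ^ m) := by
    intro m
    induction m with
    | zero => simp
    | succ m ih =>
      have h1 : (α ^ (n * (m + 1))) y = (α ^ n) ((α ^ (n * m)) y) := pow_pow_apply n m y
      -- transport
      have h2 : ∀ u v : G, (u : G ⧸ K) = v → (((α ^ n) u : G) : G ⧸ K) = (((α ^ n) v : G) : G ⧸ K) := by
        intro u v huv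
        rw [QuotientGroup.eq] at huv ⊢
        rw [← map_inv, ← map_mul]
        exact hK.pow_mem n huv
      have h3 : (((α ^ (n * m)) y : G) : G ⧸ K) = ((y ^ (a ^ m) : G) : G ⧸ K) := by
        rw [ih]; rfl
      rw [h1, h2 _ _ h3, map_pow]
      change (((α ^ n) y : G) : G ⧸ K) ^ (a ^ m) = _
      rw [← ha, ← pow_mul, pow_succ, mul_comm]
  have h1 : (y : G ⧸ K) ^ (a ^ (p ^ j)) = (y : G ⧸ K) ^ 1 := by
    rw [← hpow, pow_one]
    symm
    rw [QuotientGroup.eq]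
    exact h y hy
  rw [pow_inj_mod, hord] at h1
  have h2 : ((a : ZMod p)) ^ (p ^ j) = 1 := by
    have h3 : ((a ^ (p ^ j) : ℕ) : ZMod p) = ((1 : ℕ) : ZMod p) :=
      (ZMod.natCast_eq_natCast_iff _ _ _).mpr h1
    push_cast at h3
    exact h3
  have h4 : (a : ZMod p) = 1 := by
    rw [ZMod.pow_card_pow] at h2
    exact h2
  have h5 : (y : G ⧸ K) ^ a = (y : G ⧸ K) ^ 1 := by
    rw [pow_inj_mod, hord]
    apply (ZMod.natCast_eq_natCast_iff _ _ _).mp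
    rw [h4]
    simp
  rw [← QuotientGroup.eq, ← ha, h5, pow_one]

section steps

variable [U.Normal] {n : ℕ}

theorem mk_commute (hcomm : ∀ x ∈ P, ∀ y ∈ P, x * y * x⁻¹ * y⁻¹ ∈ U) {x y : G} (hx : x ∈ P)
    (hy : y ∈ P) : Commute (x : G ⧸ U) (y : G ⧸ U) := by
  have h1 : ((x * y * x⁻¹ * y⁻¹ : G) : G ⧸ U) = 1 := (QuotientGroup.eq_one_iff _).mpr
    (hcomm x hx y hy)
  have h2 : (x : G ⧸ U) * (y : G ⧸ U) * (x : G ⧸ U)⁻¹ * (y : G ⧸ U)⁻¹ = 1 := h1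
  rw [mul_inv_eq_one, mul_inv_eq_iff_eq_mul] at h2
  exact h2

theorem mk_pow_congr (hU : Adm α U) {u v : G} (h : (u : G ⧸ U) = v) :
    (((α ^ n) u : G) : G ⧸ U) = (((α ^ n) v : G) : G ⧸ U) := by
  rw [QuotientGroup.eq] at h ⊢
  rw [← map_inv, ← map_mul]
  exact hU.pow_mem n h

theorem step_formula (x : G) (j : ℕ) :
    x⁻¹ * (affineMap t α ^ (n * (j + 1))) x
      = (x⁻¹ * (affineMap t α ^ n) x) * (α ^ n) (x⁻¹ * (affineMap t α ^ (n * j)) x) := by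
  have h1 : (affineMap t α ^ (n * (j + 1))) x
      = (affineMap t α ^ n) (x * (x⁻¹ * (affineMap t α ^ (n * j)) x)) := by
    rw [mul_inv_cancel_left, ← Equiv.Perm.mul_apply, ← pow_add, Nat.mul_succ, add_comm]
  rw [h1, aff_pow_mul, mul_assoc]

theorem four_step (hU : Adm α U) (hPn : Per t α P n)
    (hcomm : ∀ x ∈ P, ∀ y ∈ P, x * y * x⁻¹ * y⁻¹ ∈ U)
    (hX1P : X₁ ≤ P) (hX2P : X₂ ≤ P)
    (h1 : ∀ y ∈ P, y⁻¹ * (α ^ n) y ∈ X₂) (h2 : ∀ y ∈ X₂, y⁻¹ * (α ^ n) y ∈ X₁)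
    (h3 : ∀ y ∈ X₁, y⁻¹ * (α ^ n) y ∈ U)
    (c4 : ∀ y ∈ P, y ^ 4 ∈ U) (b2 : ∀ y ∈ X₂, y ^ 2 ∈ U) (a2 : ∀ y ∈ X₁, y ^ 2 ∈ U) :
    Per t α U (n * 4) := by
  intro x
  have hc : x⁻¹ * (affineMap t α ^ n) x ∈ P := hPn x
  obtain ⟨c, hcdef⟩ : ∃ c, c = x⁻¹ * (affineMap t α ^ n) x := ⟨_, rfl⟩
  rw [← hcdef] at hc
  obtain ⟨b, hbdef⟩ : ∃ b, b = c⁻¹ * (α ^ n) c := ⟨_, rfl⟩
  have hb : b ∈ X₂ := hbdef ▸ h1 c hc
  obtain ⟨a, hadef⟩ : ∃ a, a = b⁻¹ * (α ^ n) b := ⟨_, rfl⟩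
  have ha : a ∈ X₁ := hadef ▸ h2 b hb
  obtain ⟨z, hzdef⟩ : ∃ z, z = a⁻¹ * (α ^ n) a := ⟨_, rfl⟩
  have hz : z ∈ U := hzdef ▸ h3 a ha
  have eb : (α ^ n) c = c * b := by rw [hbdef]; group
  have ea : (α ^ n) b = b * a := by rw [hadef]; group
  have ez : (α ^ n) a = a * z := by rw [hzdef]; group
  have hcb := mk_commute hcomm hc (hX2P hb)
  have hba := mk_commute hcomm (hX2P hb) (hX1P ha)
  have s1 : x⁻¹ * (affineMap t α ^ (n * 1)) x = c := by rw [mul_one, hcdef]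
  have s2 : x⁻¹ * (affineMap t α ^ (n * 2)) x = c ^ 2 * b := by
    rw [step_formula x 1, s1, ← hcdef, eb, pow_two, mul_assoc]
  have s3 : ((x⁻¹ * (affineMap t α ^ (n * 3)) x : G) : G ⧸ U) = ((c ^ 3 * b ^ 3 * a : G) : G ⧸ U) := by
    rw [step_formula x 2, s2, ← hcdef, map_mul, map_pow, eb, ea]
    have : (((c * b) ^ 2 : G) : G ⧸ U) = ((c ^ 2 * b ^ 2 : G) : G ⧸ U) := hcb.mul_pow 2
    calc ((c * ((c * b) ^ 2 * (b * a)) : G) : G ⧸ U)
        = (c : G ⧸ U) * (((c * b) ^ 2 : G) : G ⧸ U) * ((b * a : G) : G ⧸ U) := by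
          rw [← mul_assoc]; rfl
      _ = ((c * (c ^ 2 * b ^ 2) * (b * a) : G) : G ⧸ U) := by rw [this]; rfl
      _ = ((c ^ 3 * b ^ 3 * a : G) : G ⧸ U) := by congr 1; group
  have s4 : ((x⁻¹ * (affineMap t α ^ (n * 4)) x : G) : G ⧸ U)
      = ((c ^ 4 * b ^ 6 * a ^ 4 * z : G) : G ⧸ U) := by
    have e1 := mk_pow_congr (n := n) hU s3
    rw [step_formula x 3, ← hcdef]
    have e2 : ((c * (α ^ n) (x⁻¹ * (affineMap t α ^ (n * 3)) x) : G) : G ⧸ U)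
        = (c : G ⧸ U) * (((α ^ n) (c ^ 3 * b ^ 3 * a) : G) : G ⧸ U) := by rw [← e1]; rfl
    rw [e2, map_mul, map_mul, map_pow, map_pow, eb, ea, ez]
    have f1 : (((c * b) ^ 3 : G) : G ⧸ U) = ((c ^ 3 * b ^ 3 : G) : G ⧸ U) := hcb.mul_pow 3
    have f2 : (((b * a) ^ 3 : G) : G ⧸ U) = ((b ^ 3 * a ^ 3 : G) : G ⧸ U) := hba.mul_pow 3
    calc (c : G ⧸ U) * (((c * b) ^ 3 * (b * a) ^ 3 * (a * z) : G) : G ⧸ U)
        = (c : G ⧸ U) * ((((c * b) ^ 3 : G) : G ⧸ U) * (((b * a) ^ 3 : G) : G ⧸ U)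
          * ((a * z : G) : G ⧸ U)) := rfl
      _ = ((c * (c ^ 3 * b ^ 3 * (b ^ 3 * a ^ 3) * (a * z)) : G) : G ⧸ U) := by
          rw [f1, f2]; rfl
      _ = ((c ^ 4 * b ^ 6 * a ^ 4 * z : G) : G ⧸ U) := by congr 1; group
  rw [QuotientGroup.eq] at s4
  have m1 : c ^ 4 * b ^ 6 * a ^ 4 * z ∈ U := by
    refine U.mul_mem (U.mul_mem (U.mul_mem (c4 c hc) ?_) ?_) hz
    · have := U.pow_mem (b2 b hb) 3
      rwa [← pow_mul] at this
    · have := U.pow_mem (a2 a ha) 2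
      rwa [← pow_mul] at this
  have m2 := U.mul_mem m1 (U.inv_mem s4)
  rwa [mul_inv_rev, inv_inv, mul_inv_cancel_left] at m2

theorem odd_step (hU : Adm α U) (hPn : Per t α P n)
    (hcomm : ∀ x ∈ P, ∀ y ∈ P, x * y * x⁻¹ * y⁻¹ ∈ U)
    (hX1P : X₁ ≤ P) {p : ℕ} (hp : p.Prime) (hp2 : p ≠ 2)
    (h1 : ∀ y ∈ P, y⁻¹ * (α ^ n) y ∈ X₁) (h2 : ∀ y ∈ X₁, y⁻¹ * (α ^ n) y ∈ U)
    (cp : ∀ y ∈ P, y ^ p ∈ U) : Per t α U (n * p) := by
  intro x
  have hc : x⁻¹ * (affineMap t α ^ n) x ∈ P := hPn x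
  obtain ⟨c, hcdef⟩ : ∃ c, c = x⁻¹ * (affineMap t α ^ n) x := ⟨_, rfl⟩
  rw [← hcdef] at hc
  obtain ⟨b, hbdef⟩ : ∃ b, b = c⁻¹ * (α ^ n) c := ⟨_, rfl⟩
  have hb : b ∈ X₁ := hbdef ▸ h1 c hc
  have eb : (α ^ n) c = c * b := by rw [hbdef]; group
  have ea : (((α ^ n) b : G) : G ⧸ U) = (b : G ⧸ U) := by
    symm
    rw [QuotientGroup.eq]
    exact h2 b hb
  have hcb := mk_commute hcomm hc (hX1P hb)
  have s : ∀ j : ℕ, ((x⁻¹ * (affineMap t α ^ (n * j)) x : G) : G ⧸ U)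
      = ((c ^ j * b ^ (j.choose 2) : G) : G ⧸ U) := by
    intro j
    induction j with
    | zero => simp
    | succ j ih =>
      have e1 := mk_pow_congr (n := n) hU ih
      rw [step_formula x j, ← hcdef]
      have e2 : ((c * (α ^ n) (x⁻¹ * (affineMap t α ^ (n * j)) x) : G) : G ⧸ U)
          = (c : G ⧸ U) * (((α ^ n) (c ^ j * b ^ (j.choose 2)) : G) : G ⧸ U) := by
        rw [← e1]; rfl
      rw [e2, map_mul, map_pow, map_pow, eb]
      have f1 : (((c * b) ^ j : G) : G ⧸ U) = ((c ^ j * b ^ j : G) : G ⧸ U) := hcb.mul_pow j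
      calc (c : G ⧸ U) * (((c * b) ^ j * ((α ^ n) b) ^ (j.choose 2) : G) : G ⧸ U)
          = (c : G ⧸ U) * ((((c * b) ^ j : G) : G ⧸ U)
            * (((α ^ n) b : G) : G ⧸ U) ^ (j.choose 2)) := rfl
        _ = ((c * (c ^ j * b ^ j * b ^ (j.choose 2)) : G) : G ⧸ U) := by rw [f1, ea]; rfl
        _ = ((c ^ (j + 1) * b ^ ((j + 1).choose 2) : G) : G ⧸ U) := by
          congr 1
          have : (j + 1).choose 2 = j + j.choose 2 := by
            rw [Nat.choose_succ_succ' j 1, Nat.choose_one_right]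
          rw [this, pow_succ', pow_add]
          group
  have hsp := s p
  rw [QuotientGroup.eq] at hsp
  have m1 : c ^ p * b ^ (p.choose 2) ∈ U := by
    refine U.mul_mem (cp c hc) ?_
    have hlt : 2 < p := lt_of_le_of_ne hp.two_le (Ne.symm hp2)
    obtain ⟨q, hq⟩ := hp.dvd_choose_self (k := 2) (by norm_num) hlt
    rw [hq, pow_mul]
    exact U.pow_mem (cp b (hX1P hb)) q
  have m2 := U.mul_mem m1 (U.inv_mem hsp)
  rwa [mul_inv_rev, inv_inv, mul_inv_cancel_left] at m2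

end steps

end Pool.Agent.Helper32.Aff
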