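import Pool.Agent.Helper32.Aff5

set_option autoImplicit false

/-! The main theorem. -/

namespace Pool.Agent.Helper32.Aff

universe u

open scoped commutatorElement

variable {G : Type u} [Group G] [Finite G] {t : G} {α : MulAut G}

/-- The situation of a minimal counterexample. -/
structure Setup (t : G) (α : MulAut G) (P D : Subgroup G) (p : ℕ) : Prop where
  good : Nat.card G < 2 * ord t α ⊥
  P_eq : P = commutator G
  D_eq : D = ⁅P, P⁆
  uniq : ∀ U : Subgroup G, Adm α U → U ≠ ⊥ → D ≤ U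
  prime : p.Prime
  card : Nat.card D = p

namespace Setup

variable {P D : Subgroup G} {p : ℕ} (S : Setup t α P D p)

include S

theorem admP : Adm α P := by
  rw [S.P_eq, commutator_def]
  exact adm_commutator adm_top adm_top

theorem admD : Adm α D := by
  rw [S.D_eq]
  exact adm_commutator S.admP S.admP

theorem D_le_P : D ≤ P := by
  have := S.admP.normal
  rw [S.D_eq]
  exact Subgroup.commutator_le_left P P

theorem P_central {c d : G} (hc : c ∈ P) (hd : d ∈ D) : c * d = d * c := by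
  have := S.admD.normal
  rw [S.P_eq] at hc
  exact comm_centralizes D (prime_conj D (S.card ▸ S.prime)) c hc d hd

theorem comm_mem {x y : G} (hx : x ∈ P) (hy : y ∈ P) : x * y * x⁻¹ * y⁻¹ ∈ D := by
  rw [S.D_eq]
  exact Subgroup.commutator_mem_commutator hx hy

theorem D_pow {d : G} (hd : d ∈ D) : d ^ p = 1 := by
  have h : (⟨d, hd⟩ : D) ^ p = 1 := by
    rw [← S.card]
    exact pow_card_eq_one'
  exact congrArg Subtype.val h

omit S in
/-- The centre of `P`. -/
def Z (P : Subgroup G) : Subgroup G := P ⊓ Subgroup.centralizer (P : Set G)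

omit S [Finite G] in
theorem mem_Z {x : G} : x ∈ Z P ↔ x ∈ P ∧ ∀ y ∈ P, y * x = x * y := by
  rw [Z, Subgroup.mem_inf, Subgroup.mem_centralizer_iff]
  rfl

theorem admZ : Adm α (Z P) := by
  have := S.admP.normal
  refine ⟨?_, ?_⟩
  · unfold Z
    infer_instance
  · intro x hx
    rw [mem_Z] at hx ⊢
    refine ⟨S.admP.inv x hx.1, fun y hy => ?_⟩
    obtain ⟨u, rfl⟩ : ∃ u, y = α u := ⟨(MulEquiv.symm α) y, (MulEquiv.apply_symm_apply α y).symm⟩
    have hu : u ∈ P := (S.admP.mem_iff u).mp hy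
    rw [← map_mul, ← map_mul, hx.2 u hu]

theorem D_le_Z : D ≤ Z P := fun d hd =>
  mem_Z.mpr ⟨S.D_le_P hd, fun _ hy => S.P_central hy hd⟩

theorem pow_mem_Z {x : G} (hx : x ∈ P) : x ^ p ∈ Z P := by
  rw [mem_Z]
  refine ⟨P.pow_mem hx p, fun y hy => ?_⟩
  have hd : x⁻¹ * y * x * y⁻¹ ∈ D := by
    have := S.comm_mem (P.inv_mem hx) hy
    simpa using this
  obtain ⟨d, hdd⟩ : ∃ d, d = x⁻¹ * y * x * y⁻¹ := ⟨_, rfl⟩
  rw [← hdd] at hd
  have e1 : y * x * y⁻¹ = x * d := by rw [hdd]; group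
  have e2 : y * x ^ p * y⁻¹ = x ^ p := by
    rw [← conj_pow, e1, (show Commute x d from S.P_central hx hd).mul_pow, S.D_pow hd, mul_one]
  calc y * x ^ p = (y * x ^ p * y⁻¹) * y := by group
    _ = x ^ p * y := by rw [e2]

theorem Z_lt_P : Z P < P := by
  refine lt_of_le_of_ne inf_le_left fun h => ?_
  have hD : D = ⊥ := by
    rw [S.D_eq, eq_bot_iff, Subgroup.commutator_le]
    intro x hx y hy
    rw [← h] at hx
    rw [Subgroup.mem_bot, commutatorElement_def, mul_inv_eq_one, mul_inv_eq_iff_eq_mul]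
    exact ((mem_Z.mp hx).2 y hy).symm
  have := S.card
  rw [hD, Subgroup.card_bot] at this
  exact S.prime.one_lt.ne this

variable [Group.IsSolvable G]

/-- Chief pairs between `Z` and `P` have index `p`. -/
theorem index_p {K L : Subgroup G} (h : Chief α K L) (hL : L ≤ P) (hK : Z P ≤ K) :
    K.relIndex L = p := by
  have h1 := (h.prime S.good (hL.trans S.P_eq.le)).1
  have := h.admK.normal
  obtain ⟨x, hxL, hxK⟩ := SetLike.exists_of_lt h.lt
  have h2 : x ^ p ∈ K := hK (S.pow_mem_Z (hL hxL))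
  by_contra hne
  have hcop : Nat.Coprime (K.relIndex L) p := (Nat.coprime_primes h1 S.prime).mpr hne
  -- order of `x` modulo `K`
  have hx1 : (x : G ⧸ K) ^ p = 1 := by
    have : ((x ^ p : G) : G ⧸ K) = 1 := (QuotientGroup.eq_one_iff _).mpr h2
    exact this
  have hx2 : (x : G ⧸ K) ^ (K.relIndex L) = 1 := by
    have hyL : (x : G ⧸ K) ∈ L.map (QuotientGroup.mk' K) := ⟨x, hxL, rfl⟩
    have h3 : (⟨(x : G ⧸ K), hyL⟩ : L.map (QuotientGroup.mk' K)) ^ (K.relIndex L) = 1 := by
      rw [← card_map]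
      exact pow_card_eq_one'
    exact congrArg Subtype.val h3
  have h4 : orderOf (x : G ⧸ K) ∣ 1 := by
    rw [← Nat.coprime_iff_gcd_eq_one.mp hcop]
    exact Nat.dvd_gcd (orderOf_dvd_of_pow_eq_one hx2) (orderOf_dvd_of_pow_eq_one hx1)
  rw [Nat.dvd_one, orderOf_eq_one_iff, QuotientGroup.eq_one_iff] at h4
  exact hxK h4

/-- `Z` is not of prime index in `P`. -/
theorem not_prime_index (h : ((Z P).relIndex P).Prime) : False := by
  obtain ⟨x, hxP, hxZ⟩ := SetLike.exists_of_lt S.Z_lt_P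
  set C := P ⊓ Subgroup.centralizer ({x} : Set G) with hC
  have hZC : Z P ≤ C := by
    intro y hy
    rw [mem_Z] at hy
    rw [hC, Subgroup.mem_inf, Subgroup.mem_centralizer_iff]
    refine ⟨hy.1, fun z hz => ?_⟩
    rw [Set.mem_singleton_iff] at hz
    subst hz
    exact hy.2 z hxP
  have hxC : x ∈ C := by
    rw [hC, Subgroup.mem_inf, Subgroup.mem_centralizer_iff]
    refine ⟨hxP, fun z hz => ?_⟩
    rw [Set.mem_singleton_iff] at hz
    subst hz
    rfl
  have h2 := Subgroup.relIndex_mul_relIndex (Z P) C P hZC inf_le_left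
  have h3 : (Z P).relIndex C ≠ 1 := by
    intro h4
    rw [Subgroup.relIndex_eq_one] at h4
    exact hxZ (h4 hxC)
  have h5 : C.relIndex P = 1 := by
    rw [← h2] at h
    rcases Nat.prime_mul_iff.mp h with ⟨_, h6⟩ | ⟨_, h6⟩
    · exact h6
    · exact absurd h6 h3
  rw [Subgroup.relIndex_eq_one] at h5
  apply hxZ
  rw [mem_Z]
  refine ⟨hxP, fun y hy => ?_⟩
  have h6 := h5 hy
  rw [hC, Subgroup.mem_inf, Subgroup.mem_centralizer_iff] at h6
  exact (h6.2 x (Set.mem_singleton x)).symm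

/-- The first two steps of a chain from `P` down to `Z`. -/
theorem chain : ∃ U₁ U₂ : Subgroup G, Chief α U₁ P ∧ Chief α U₂ U₁ ∧ Z P ≤ U₂ := by
  obtain ⟨U₁, h1, hZ1⟩ := exists_chief_top S.admZ S.admP S.Z_lt_P
  have hne : Z P ≠ U₁ := by
    intro h
    apply S.not_prime_index
    rw [h]
    exact (h1.prime S.good S.P_eq.le).1
  obtain ⟨U₂, h2, hZ2⟩ := exists_chief_top S.admZ h1.admK (lt_of_le_of_ne hZ1 hne)
  exact ⟨U₁, U₂, h1, h2, hZ2⟩

/-- Linear parts act trivially modulo `U`. -/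
theorem lin_trivial {U : Subgroup G} (hU : Adm α U) (hUP : U ≤ P) {j : ℕ}
    (hj : U.relIndex P = p ^ j) (y : G) : y⁻¹ * (α ^ (ord t α P * p ^ j)) y ∈ U := by
  have h1 := ord_eq S.good hU S.admP hUP S.P_eq.le
  rw [hj] at h1
  have h2 := ord_per t α U
  rw [h1] at h2
  exact h2.lin hU.normal y

theorem odd_false (hp2 : p ≠ 2) : False := by
  obtain ⟨U₁, U₂, h1, h2, hZ⟩ := S.chain
  have hZ1 : Z P ≤ U₁ := hZ.trans h2.lt.le
  have i1 := S.index_p h1 le_rfl hZ1
  have i2 := S.index_p h2 h1.lt.le hZ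
  have i3 : U₂.relIndex P = p ^ 2 := by
    rw [← Subgroup.relIndex_mul_relIndex U₂ U₁ P h2.lt.le h1.lt.le, i1, i2, pow_two]
  have hU2P : U₂ ≤ P := h2.lt.le.trans h1.lt.le
  have hlin := S.lin_trivial h2.admK hU2P i3
  have := h2.admK.normal
  have a1 : ∀ y ∈ P, y⁻¹ * (α ^ ord t α P) y ∈ U₁ :=
    prime_act h1.admK S.admP S.prime i1 (fun y _ => h2.lt.le (hlin y))
  have a2 : ∀ y ∈ U₁, y⁻¹ * (α ^ ord t α P) y ∈ U₂ :=
    prime_act h2.admK h1.admK S.prime i2 (fun y _ => hlin y)
  have hper := odd_step h2.admK (ord_per t α P)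
    (fun x hx y hy => hZ (S.D_le_Z (S.comm_mem hx hy))) h1.lt.le S.prime hp2 a1 a2
    (fun y hy => hZ (S.pow_mem_Z hy))
  rw [per_iff, ord_eq S.good h2.admK S.admP hU2P S.P_eq.le, i3] at hper
  have h5 := Nat.dvd_of_mul_dvd_mul_left (ord_pos t α P) hper
  have h6 := Nat.le_of_dvd S.prime.pos h5
  have h7 : p * 2 ≤ p ^ 2 := by
    rw [pow_two]
    exact Nat.mul_le_mul_left _ S.prime.two_le
  have := S.prime.pos
  omega

omit S [Group.IsSolvable G] [Finite G] in
theorem two_mul_mem {K L : Subgroup G} (h : K.relIndex L = 2) {x y : G} (hx : x ∈ L) (hy : y ∈ L)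
    (hxy : x ∈ K ↔ y ∈ K) : x * y ∈ K := by
  have h1 : (K.subgroupOf L).index = 2 := h
  have h2 := Subgroup.mul_mem_iff_of_index_two h1 (a := ⟨x, hx⟩) (b := ⟨y, hy⟩)
  simp only [Subgroup.mem_subgroupOf, Subgroup.coe_mul] at h2
  exact h2.mpr hxy

omit S [Group.IsSolvable G] [Finite G] in
theorem two_mul_not_mem {K L : Subgroup G} (h : K.relIndex L = 2) {x y : G} (hx : x ∈ L)
    (hy : y ∈ L) (hxy : x * y ∈ K) : x ∈ K ↔ y ∈ K := by
  have h1 : (K.subgroupOf L).index = 2 := h
  have h2 := Subgroup.mul_mem_iff_of_index_two h1 (a := ⟨x, hx⟩) (b := ⟨y, hy⟩)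
  simp only [Subgroup.mem_subgroupOf, Subgroup.coe_mul] at h2
  exact h2.mp hxy

omit [Group.IsSolvable G] in
theorem D_central (hp2 : p = 2) (g : G) {d : G} (hd : d ∈ D) : g * d * g⁻¹ = d := by
  have := S.admD.normal
  obtain ⟨a, ha⟩ := exists_zpow_conj D (S.card ▸ S.prime) g
  have h2 : d ^ (2 : ℤ) = 1 := by
    have := S.D_pow hd
    rw [hp2] at this
    exact_mod_cast this
  rcases Int.even_or_odd' a with ⟨b, hb | hb⟩
  · have h3 : g * d * g⁻¹ = 1 := by rw [ha d hd, hb, zpow_mul, h2, one_zpow]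
    rw [mul_inv_eq_one] at h3
    have h4 : d = 1 := by
      have := mul_left_cancel (a := g) (b := d) (c := 1) (by rw [h3, mul_one])
      exact this
    rw [h4]; group
  · rw [ha d hd, hb, zpow_add, zpow_mul, h2, one_zpow, one_mul, zpow_one]

omit [Group.IsSolvable G] in
/-- An admissible subgroup of order four containing `D` is centralized by `P`. -/
theorem burnside (hp2 : p = 2) {T : Subgroup G} (hT : Adm α T) (hTP : T ≤ P)
    (hi : D.relIndex T = 2) : T ≤ Z P := by
  have := hT.normal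
  have hDn := S.admD.normal
  have hd : ∀ g : G, ∀ x ∈ T, x⁻¹ * (g * x * g⁻¹) ∈ D := by
    intro g x hx
    apply two_mul_mem hi (T.inv_mem hx) (this.conj_mem x hx g)
    rw [inv_mem_iff]
    constructor
    · intro h
      exact hDn.conj_mem x h g
    · intro h
      have := hDn.conj_mem _ h g⁻¹
      simpa [mul_assoc] using this
  have key := comm_centralizes T (by
    intro g k x hx
    obtain ⟨a, haa⟩ : ∃ a, a = x⁻¹ * (g * x * g⁻¹) := ⟨_, rfl⟩
    obtain ⟨b, hbb⟩ : ∃ b, b = x⁻¹ * (k * x * k⁻¹) := ⟨_, rfl⟩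
    have ha : a ∈ D := haa ▸ hd g x hx
    have hb : b ∈ D := hbb ▸ hd k x hx
    have eg : g * x * g⁻¹ = x * a := by rw [haa]; group
    have ek : k * x * k⁻¹ = x * b := by rw [hbb]; group
    have cg : g * b * g⁻¹ = b := S.D_central hp2 g hb
    have ck : k * a * k⁻¹ = a := S.D_central hp2 k ha
    have hab : a * b = b * a := S.P_central (S.D_le_P ha) hb
    calc g * (k * x * k⁻¹) * g⁻¹ = (g * x * g⁻¹) * (g * b * g⁻¹) := by rw [ek]; group
      _ = x * (a * b) := by rw [eg, cg, mul_assoc]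
      _ = x * (b * a) := by rw [hab]
      _ = (k * x * k⁻¹) * (k * a * k⁻¹) := by rw [ek, ck, mul_assoc]
      _ = k * (g * x * g⁻¹) * k⁻¹ := by rw [eg]; group)
  intro x hx
  rw [mem_Z]
  refine ⟨hTP hx, fun y hy => ?_⟩
  rw [S.P_eq] at hy
  exact key y hy x hx

omit [Group.IsSolvable G] in
/-- The centre of `P` is a `p`-group. -/
theorem prime_dvd_Z {r : ℕ} (hr : r.Prime) (hd : r ∣ Nat.card (Z P)) : r = p := by
  have := Fact.mk hr
  obtain ⟨x, hx⟩ := exists_prime_orderOf_dvd_card' r hd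
  let O : Subgroup G :=
    { carrier := {y | y ∈ Z P ∧ y ^ r = 1}
      mul_mem' := by
        rintro a b ⟨ha, ha'⟩ ⟨hb, hb'⟩
        refine ⟨(Z P).mul_mem ha hb, ?_⟩
        have hc : Commute a b := (mem_Z.mp hb).2 a (mem_Z.mp ha).1
        rw [hc.mul_pow, ha', hb', one_mul]
      one_mem' := ⟨(Z P).one_mem, one_pow _⟩
      inv_mem' := by
        rintro a ⟨ha, ha'⟩
        exact ⟨(Z P).inv_mem ha, by rw [inv_pow, ha', inv_one]⟩ }
  have hO : Adm α O := by
    refine ⟨⟨?_⟩, ?_⟩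
    · rintro v ⟨hv, hv'⟩ g
      refine ⟨S.admZ.normal.conj_mem v hv g, ?_⟩
      rw [conj_pow, hv']
      simp
    · rintro v ⟨hv, hv'⟩
      exact ⟨S.admZ.inv v hv, by rw [← map_pow, hv', map_one]⟩
  have hne : O ≠ ⊥ := by
    intro h
    have h1 : (x : G) ∈ O := by
      refine ⟨x.2, ?_⟩
      have h2 := pow_orderOf_eq_one x
      rw [hx] at h2
      exact congrArg Subtype.val h2
    rw [h, Subgroup.mem_bot] at h1
    have h2 : x = 1 := Subtype.ext h1
    rw [h2, orderOf_one] at hx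
    exact hr.one_lt.ne hx
  have hD := S.uniq O hO hne
  by_contra hrp
  have hcop : Nat.Coprime r p := (Nat.coprime_primes hr S.prime).mpr hrp
  have hbot : D = ⊥ := by
    rw [eq_bot_iff]
    intro d hd
    have h1 : d ^ r = 1 := (hD hd).2
    have h2 : d ^ p = 1 := S.D_pow hd
    have h4 : orderOf d ∣ 1 := by
      rw [← Nat.coprime_iff_gcd_eq_one.mp hcop]
      exact Nat.dvd_gcd (orderOf_dvd_of_pow_eq_one h1) (orderOf_dvd_of_pow_eq_one h2)
    rw [Nat.dvd_one, orderOf_eq_one_iff] at h4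
    exact Subgroup.mem_bot.mpr h4
  have := S.card
  rw [hbot, Subgroup.card_bot] at this
  exact S.prime.one_lt.ne this

/-- The final contradiction from a chain of three steps. -/
theorem three_false (hp2 : p = 2) {U X₁ X₂ : Subgroup G} (hU : Adm α U) (hX1 : Adm α X₁)
    (hX2 : Adm α X₂) (l1 : U ≤ X₁) (l2 : X₁ ≤ X₂) (l3 : X₂ ≤ P) (hD : D ≤ U)
    (i1 : U.relIndex X₁ = 2) (i2 : X₁.relIndex X₂ = 2) (i3 : X₂.relIndex P = 2)
    (c4 : ∀ y ∈ P, y ^ 4 ∈ U) (b2 : ∀ y ∈ X₂, y ^ 2 ∈ U) (a2 : ∀ y ∈ X₁, y ^ 2 ∈ U) : False := by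
  subst hp2
  have hUP : U ≤ P := (l1.trans l2).trans l3
  have i4 : U.relIndex P = 2 ^ 3 := by
    rw [← Subgroup.relIndex_mul_relIndex U X₂ P (l1.trans l2) l3,
      ← Subgroup.relIndex_mul_relIndex U X₁ X₂ l1 l2, i1, i2, i3]
    norm_num
  have hlin := S.lin_trivial hU hUP i4
  have := hU.normal
  have s1 : ∀ y ∈ P, y⁻¹ * (α ^ ord t α P) y ∈ X₂ :=
    prime_act hX2 S.admP S.prime i3 (fun y _ => (l1.trans l2) (hlin y))
  have s2 : ∀ y ∈ X₂, y⁻¹ * (α ^ ord t α P) y ∈ X₁ :=
    prime_act hX1 hX2 S.prime i2 (fun y _ => l1 (hlin y))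
  have s3 : ∀ y ∈ X₁, y⁻¹ * (α ^ ord t α P) y ∈ U :=
    prime_act hU hX1 S.prime i1 (fun y _ => hlin y)
  have hper := four_step hU (ord_per t α P) (fun x hx y hy => hD (S.comm_mem hx hy))
    (l2.trans l3) l3 s1 s2 s3 c4 b2 a2
  rw [per_iff, ord_eq S.good hU S.admP hUP S.P_eq.le, i4] at hper
  have h5 := Nat.dvd_of_mul_dvd_mul_left (ord_pos t α P) hper
  have h6 := Nat.le_of_dvd (by norm_num) h5
  norm_num at h6

theorem two_false (hp2 : p = 2) : False := by
  obtain ⟨U₁, U₂, h1, h2, hZ⟩ := S.chain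
  have hZ1 : Z P ≤ U₁ := hZ.trans h2.lt.le
  have i1 := S.index_p h1 le_rfl hZ1
  have i2 := S.index_p h2 h1.lt.le hZ
  rw [hp2] at i1 i2
  have hsq : ∀ y ∈ P, y ^ 2 ∈ Z P := fun y hy => hp2 ▸ S.pow_mem_Z hy
  rcases eq_or_lt_of_le hZ with h0 | h0
  · -- `Z` has index four
    subst h0
    have i3 : (Z P).relIndex P = 4 := by
      rw [← Subgroup.relIndex_mul_relIndex (Z P) U₁ P h2.lt.le h1.lt.le, i1, i2]
    rcases eq_or_lt_of_le S.D_le_Z with h4 | h4
    · have h5 := S.burnside hp2 h1.admK h1.lt.le (by rw [h4]; exact i2)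
      exact h2.lt.not_ge h5
    · obtain ⟨U, hU, hDU⟩ := exists_chief_top S.admD S.admZ h4
      have hZP : Z P ≤ P := S.Z_lt_P.le
      have hr := (hU.prime S.good (hZP.trans S.P_eq.le)).1
      have hr2 : U.relIndex (Z P) = 2 := by
        rw [← hp2]
        apply S.prime_dvd_Z hr
        rw [Subgroup.relIndex]
        exact Subgroup.index_dvd_card _
      have hUn := hU.admK.normal
      have hcomm : ∀ x ∈ P, ∀ y ∈ P, x * y * x⁻¹ * y⁻¹ ∈ U :=
        fun x hx y hy => hDU (S.comm_mem hx hy)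
      have hZsq : ∀ y ∈ Z P, y ^ 2 ∈ U := by
        intro y hy
        rw [pow_two]
        exact two_mul_mem hr2 hy hy Iff.rfl
      have hc4 : ∀ y ∈ P, y ^ 4 ∈ U := by
        intro y hy
        have := hZsq _ (hsq y hy)
        rwa [← pow_mul] at this
      have hmulsq : ∀ x ∈ P, ∀ y ∈ P, (((x * y) ^ 2 : G) : G ⧸ U) = ((x ^ 2 * y ^ 2 : G) : G ⧸ U) :=
        fun x hx y hy => (mk_commute hcomm hx hy).mul_pow 2
      have hmulsq' : ∀ x ∈ P, ∀ y ∈ P, x ^ 2 * y ^ 2 ∈ U → (x * y) ^ 2 ∈ U := by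
        intro x hx y hy h
        rw [← QuotientGroup.eq_one_iff, hmulsq x hx y hy, QuotientGroup.eq_one_iff]
        exact h
      let O : Subgroup G :=
        { carrier := {x | x ∈ P ∧ x ^ 2 ∈ U}
          mul_mem' := by
            rintro a b ⟨ha, ha'⟩ ⟨hb, hb'⟩
            exact ⟨P.mul_mem ha hb, hmulsq' a ha b hb (U.mul_mem ha' hb')⟩
          one_mem' := ⟨P.one_mem, by rw [one_pow]; exact U.one_mem⟩
          inv_mem' := by
            rintro a ⟨ha, ha'⟩
            exact ⟨P.inv_mem ha, by rw [inv_pow]; exact U.inv_mem ha'⟩ }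
      have hO : Adm α O := by
        refine ⟨⟨?_⟩, ?_⟩
        · rintro v ⟨hv, hv'⟩ g
          refine ⟨S.admP.normal.conj_mem v hv g, ?_⟩
          rw [conj_pow]
          exact hUn.conj_mem _ hv' g
        · rintro v ⟨hv, hv'⟩
          exact ⟨S.admP.inv v hv, by rw [← map_pow]; exact hU.admK.inv _ hv'⟩
      have hOP : O ≤ P := fun x hx => hx.1
      have hZO : Z P ≤ O := fun x hx => ⟨hZP hx, hZsq x hx⟩
      by_cases hPO : P ≤ O
      · exact S.three_false hp2 hU.admK S.admZ h1.admK hU.lt.le h2.lt.le h1.lt.le hDU hr2 i2 i1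
          hc4 (fun y hy => (hPO (h1.lt.le hy)).2) hZsq
      · obtain ⟨x₀, hx0, hx0'⟩ := SetLike.not_le_iff_exists.mp hPO
        have hx0U : x₀ ^ 2 ∉ U := fun h => hx0' ⟨hx0, h⟩
        have i4 : O.relIndex P = 2 := by
          rw [Subgroup.relIndex, Subgroup.index_eq_two_iff]
          refine ⟨⟨x₀, hx0⟩, ?_⟩
          rintro ⟨b, hb⟩
          simp only [Subgroup.mem_subgroupOf, Subgroup.coe_mul]
          by_cases hbO : b ∈ O
          · right
            refine ⟨hbO, fun h => hx0' ?_⟩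
            have := O.mul_mem (O.inv_mem hbO) h
            rwa [inv_mul_cancel_left] at this
          · left
            refine ⟨⟨P.mul_mem hb hx0, ?_⟩, hbO⟩
            apply hmulsq' b hb x₀ hx0
            apply two_mul_mem hr2 (hsq b hb) (hsq x₀ hx0)
            constructor
            · intro h
              exact absurd ⟨hb, h⟩ hbO
            · intro h
              exact absurd h hx0U
        have i5 : (Z P).relIndex O = 2 := by
          have h6 := Subgroup.relIndex_mul_relIndex (Z P) O P hZO hOP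
          rw [i4, i3] at h6
          omega
        exact S.three_false hp2 hU.admK S.admZ hO hU.lt.le hZO hOP hDU hr2 i5 i4
          hc4 (fun y hy => hy.2) hZsq
  · obtain ⟨U₃, h3, hZ3⟩ := exists_chief_top S.admZ h2.admK h0
    have i3 := S.index_p h3 (h2.lt.le.trans h1.lt.le) hZ3
    rw [hp2] at i3
    have hall : ∀ y ∈ P, y ^ 2 ∈ U₃ := fun y hy => hZ3 (hsq y hy)
    refine S.three_false hp2 h3.admK h2.admK h1.admK h3.lt.le h2.lt.le h1.lt.le
      (S.D_le_Z.trans hZ3) i3 i2 i1 ?_ (fun y hy => hall y (h1.lt.le hy))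
      (fun y hy => hall y (h1.lt.le (h2.lt.le hy)))
    intro y hy
    have := U₃.pow_mem (hall y hy) 2
    rwa [← pow_mul] at this

end Setup

/-- The main theorem. -/
theorem metabelian (n : ℕ) : ∀ (G : Type u) [Group G] [Finite G] [Group.IsSolvable G] (t : G)
    (α : MulAut G), Nat.card G = n → Nat.card G < 2 * ord t α ⊥ →
    ⁅commutator G, commutator G⁆ = ⊥ := by
  induction n using Nat.strong_induction_on with
  | _ n ih =>
    intro G _ _ _ t α hn hgood
    by_contra hne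
    have hadmP : Adm α (commutator G) := by
      rw [commutator_def]
      exact adm_commutator adm_top adm_top
    have hadmD := adm_commutator hadmP hadmP
    have huniq : ∀ U : Subgroup G, Adm α U → U ≠ ⊥ →
        ⁅commutator G, commutator G⁆ ≤ U := by
      intro U hU hUne
      have := hU.normal
      have h1 := good_quo hgood hU
      have hlt : Nat.card (G ⧸ U) < n := by
        rw [← hn, ← U.card_mul_index]
        have h2 : 1 < Nat.card U := by
          have h3 : Nat.card U ≠ 1 := fun h => hUne (Subgroup.card_eq_one.mp h)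
          have h4 : 0 < Nat.card U := Nat.card_pos
          omega
        have h5 : 0 < U.index := Nat.pos_of_ne_zero Subgroup.index_ne_zero_of_finite
        change U.index < _
        calc U.index = 1 * U.index := (one_mul _).symm
          _ < Nat.card U * U.index := Nat.mul_lt_mul_of_pos_right h2 h5
      have h2 := ih _ hlt (G ⧸ U) (t : G ⧸ U) (quoAut hU) rfl h1
      have h3 : (⁅commutator G, commutator G⁆).map (QuotientGroup.mk' U) ≤ ⊥ := by
        rw [← h2, Subgroup.map_commutator]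
        have h4 : (commutator G).map (QuotientGroup.mk' U) ≤ commutator (G ⧸ U) := by
          rw [commutator_def, commutator_def, Subgroup.map_commutator]
          exact Subgroup.commutator_mono le_top le_top
        exact Subgroup.commutator_mono h4 h4
      rw [le_bot_iff, Subgroup.map_eq_bot_iff, QuotientGroup.ker_mk'] at h3
      exact h3
    have hchief : Chief α ⊥ ⁅commutator G, commutator G⁆ := by
      refine ⟨adm_bot, hadmD, bot_lt_iff_ne_bot.mpr hne, fun U hU _ hUD => ?_⟩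
      by_cases hU0 : U = ⊥
      · exact Or.inl hU0
      · exact Or.inr (le_antisymm hUD (huniq U hU hU0))
    have hPn := hadmP.normal
    have hprime := (hchief.prime hgood (Subgroup.commutator_le_left _ _)).1
    rw [Subgroup.relIndex_bot_left] at hprime
    have S : Setup t α (commutator G) ⁅commutator G, commutator G⁆
        (Nat.card (⁅commutator G, commutator G⁆ : Subgroup G)) :=
      ⟨hgood, rfl, rfl, huniq, hprime, rfl⟩
    by_cases hp2 : Nat.card (⁅commutator G, commutator G⁆ : Subgroup G) = 2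
    · exact S.two_false hp2
    · exact S.odd_false hp2

end Pool.Agent.Helper32.Aff
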