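import Mathlib

set_option autoImplicit false

/-! Strong exchange condition for Coxeter systems. -/

namespace Pool.Agent.Helper32

open CoxeterSystem

variable {B W : Type*} [Group W] {M : CoxeterMatrix B} (cs : CoxeterSystem M W)

open Classical in
/-- Indicator of equality. -/
noncomputable def delta (a b : W) : ZMod 2 := if a = b then 1 else 0

omit [Group W] in
theorem delta_congr {a b c d : W} (h : a = b ↔ c = d) : delta a b = delta c d := by
  unfold delta
  by_cases h1 : a = b
  · rw [if_pos h1, if_pos (h.mp h1)]
  · rw [if_neg h1, if_neg (fun h2 => h1 (h.mpr h2))]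

omit [Group W] in
theorem delta_self (a : W) : delta a a = 1 := by
  simp [delta]

/-- The action of a simple reflection on `W × ZMod 2`. -/
noncomputable def actFun (i : B) (p : W × ZMod 2) : W × ZMod 2 :=
  (cs.simple i * p.1 * cs.simple i, p.2 + delta p.1 (cs.simple i))

theorem zmod2_add_self (a : ZMod 2) : a + a = 0 := by
  revert a; decide

theorem actFun_involutive (i : B) : Function.Involutive (actFun cs i) := by
  intro p
  have h1 : (cs.simple i * p.1 * cs.simple i = cs.simple i) ↔ p.1 = cs.simple i := by
    constructor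
    · intro h
      have := congrArg (fun x => cs.simple i * x * cs.simple i) h
      simpa [mul_assoc] using this
    · intro h
      rw [h]
      simp
  ext
  · simp [actFun, mul_assoc]
  · simp only [actFun]
    rw [delta_congr h1, add_assoc, zmod2_add_self, add_zero]

/-- The permutation of `W × ZMod 2` attached to a simple reflection. -/
noncomputable def actPerm (i : B) : Equiv.Perm (W × ZMod 2) :=
  (actFun_involutive cs i).toPerm _

theorem actPerm_apply (i : B) (p : W × ZMod 2) : actPerm cs i p = actFun cs i p := rfl

/-- indicator -/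
noncomputable def ind (i j : B) (t : W) (l : ℕ) : ZMod 2 :=
  delta t (((cs.simple i * cs.simple j) ^ l)⁻¹ * cs.simple j)

theorem conj_aux (i j : B) (k : ℕ) :
    cs.simple j * (cs.simple i * cs.simple j) ^ k
      = ((cs.simple i * cs.simple j) ^ k)⁻¹ * cs.simple j := by
  have h : cs.simple j * (cs.simple i * cs.simple j) * (cs.simple j)⁻¹
      = (cs.simple i * cs.simple j)⁻¹ := by
    simp [mul_assoc]
  have h2 : cs.simple j * (cs.simple i * cs.simple j) ^ k * (cs.simple j)⁻¹
      = ((cs.simple i * cs.simple j) ^ k)⁻¹ := by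
    rw [← inv_pow, ← h, conj_pow]
  rw [← h2]
  simp [mul_assoc]

theorem actPerm_pow (i j : B) (k : ℕ) (p : W × ZMod 2) :
    ((actPerm cs i * actPerm cs j) ^ k) p =
      ((cs.simple i * cs.simple j) ^ k * p.1 * ((cs.simple i * cs.simple j) ^ k)⁻¹,
        p.2 + ∑ l ∈ Finset.range (2 * k), ind cs i j p.1 l) := by
  induction k with
  | zero => simp
  | succ k ih =>
    rw [pow_succ', Equiv.Perm.mul_apply, ih]
    set σ := cs.simple i * cs.simple j with hσ
    rw [Equiv.Perm.mul_apply, actPerm_apply, actPerm_apply]
    have hinv : σ⁻¹ = cs.simple j * cs.simple i := by simp [hσ]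
    ext
    · simp only [actFun]
      rw [pow_succ', hσ]
      simp [mul_assoc]
    · simp only [actFun]
      rw [show 2 * (k + 1) = 2 * k + 1 + 1 by ring, Finset.sum_range_succ, Finset.sum_range_succ]
      have e1 : (σ ^ k * p.1 * (σ ^ k)⁻¹ = cs.simple j) ↔ p.1 = (σ ^ (2 * k))⁻¹ * cs.simple j := by
        have : (σ ^ (2 * k))⁻¹ * cs.simple j = (σ ^ k)⁻¹ * cs.simple j * σ ^ k := by
          rw [mul_assoc, conj_aux cs i j k, ← mul_assoc, ← mul_inv_rev, ← pow_add]
          congr 3
          ring
        rw [this]
        constructor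
        · intro h
          rw [← h]; group
        · intro h
          rw [h]; group
      have e2 : (cs.simple j * (σ ^ k * p.1 * (σ ^ k)⁻¹) * cs.simple j = cs.simple i) ↔
          p.1 = (σ ^ (2 * k + 1))⁻¹ * cs.simple j := by
        have : (σ ^ (2 * k + 1))⁻¹ * cs.simple j
            = (σ ^ k)⁻¹ * (cs.simple j * cs.simple i * cs.simple j) * σ ^ k := by
          rw [mul_assoc, mul_assoc (cs.simple j * cs.simple i), hσ, conj_aux cs i j k, ← hσ, ← hinv]
          have : (σ ^ (2 * k + 1))⁻¹ = (σ ^ k)⁻¹ * (σ⁻¹ * (σ ^ k)⁻¹) := by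
            rw [show 2 * k + 1 = k + 1 + k by ring, pow_add, pow_add]
            group
          rw [this]
          simp [mul_assoc]
        rw [this]
        constructor
        · intro h
          rw [← h]
          simp [mul_assoc]
        · intro h
          rw [h]
          simp [mul_assoc]
      rw [delta_congr e1, delta_congr e2, ind, ind, ← hσ, add_assoc, add_assoc, add_assoc]

theorem liftable : M.IsLiftable (actPerm cs) := by
  intro i j
  ext p : 1
  rw [actPerm_pow]
  have h : (cs.simple i * cs.simple j) ^ M i j = 1 := cs.simple_mul_simple_pow i j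
  have hs : ∑ l ∈ Finset.range (2 * M i j), ind cs i j p.1 l = 0 := by
    rw [two_mul, Finset.sum_range_add]
    have : ∀ l, ind cs i j p.1 (M i j + l) = ind cs i j p.1 l := by
      intro l
      simp only [ind, pow_add, h, one_mul]
    simp only [this]
    exact zmod2_add_self _
  rw [hs, h]
  simp

/-- The action of `W` on `W × ZMod 2`. -/
noncomputable def act : W →* Equiv.Perm (W × ZMod 2) := cs.lift ⟨actPerm cs, liftable cs⟩

/-- The parity cocycle. -/
noncomputable def eta (w t : W) : ZMod 2 := (act cs w (t, 0)).2

theorem act_simple (i : B) (p : W × ZMod 2) : act cs (cs.simple i) p = actFun cs i p := by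
  rw [act, cs.lift_apply_simple]
  rfl

theorem act_apply (w : W) (t : W) (e : ZMod 2) :
    act cs w (t, e) = (w * t * w⁻¹, e + eta cs w t) := by
  induction w using cs.simple_induction_left generalizing t e with
  | one => simp [eta]
  | mul_simple_left w i ih =>
    have h1 : ∀ t e, act cs (cs.simple i * w) (t, e) = actFun cs i (act cs w (t, e)) := by
      intro t e
      rw [map_mul, Equiv.Perm.mul_apply, act_simple]
    have h2 : eta cs (cs.simple i * w) t = (actFun cs i (act cs w (t, 0))).2 := by
      rw [eta, h1]
    rw [h1, ih, h2, ih]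
    ext
    · simp [actFun, mul_assoc]
    · simp only [actFun]
      ring

theorem eta_mul (w w' t : W) : eta cs (w * w') t = eta cs w' t + eta cs w (w' * t * w'⁻¹) := by
  have : act cs (w * w') (t, 0) = act cs w (act cs w' (t, 0)) := by
    rw [map_mul, Equiv.Perm.mul_apply]
  rw [eta, this, act_apply, act_apply]
  simp

theorem eta_simple (i : B) (t : W) : eta cs (cs.simple i) t = delta t (cs.simple i) := by
  rw [eta, act_simple]
  simp [actFun]

theorem eta_one (t : W) : eta cs 1 t = 0 := by
  simp [eta]

open Classical in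
theorem eta_wordProd (ω : List B) (t : W) :
    eta cs (cs.wordProd ω) t = ((cs.rightInvSeq ω).count t : ZMod 2) := by
  induction ω with
  | nil => simp [eta_one]
  | cons i ω ih =>
    rw [cs.wordProd_cons, eta_mul, ih, eta_simple, rightInvSeq, List.count_cons]
    have : (cs.wordProd ω * t * (cs.wordProd ω)⁻¹ = cs.simple i) ↔
        ((cs.wordProd ω)⁻¹ * cs.simple i * cs.wordProd ω == t) = true := by
      rw [beq_iff_eq]
      constructor
      · intro h
        rw [← h]; group
      · intro h
        rw [← h]; group
    unfold delta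
    rw [if_congr this rfl rfl]
    push_cast
    rfl

theorem eta_reflection {t : W} (ht : cs.IsReflection t) : eta cs t t = 1 := by
  obtain ⟨u, i, rfl⟩ := ht
  have h0 : eta cs (u * u⁻¹) (u * cs.simple i * u⁻¹) = 0 := by
    rw [mul_inv_cancel, eta_one]
  rw [eta_mul] at h0
  rw [eta_mul, eta_mul]
  have e1 : u⁻¹ * (u * cs.simple i * u⁻¹) * u⁻¹⁻¹ = cs.simple i := by group
  rw [e1] at h0 ⊢
  have e2 : cs.simple i * cs.simple i * (cs.simple i)⁻¹ = cs.simple i := by simp
  rw [e2, eta_simple, delta_self]
  rw [show ∀ a b : ZMod 2, a + (1 + b) = (a + b) + 1 by intro a b; ring, h0, zero_add]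

theorem zmod2_cases (a : ZMod 2) : a = 0 ∨ a = 1 := by
  revert a; decide

theorem mem_rightInvSeq_of_eta {ω : List B} {t : W} (h : eta cs (cs.wordProd ω) t = 1) :
    t ∈ cs.rightInvSeq ω := by
  classical
  rw [eta_wordProd] at h
  by_contra hn
  rw [List.count_eq_zero_of_not_mem hn] at h
  simp at h

theorem length_lt_of_eta {w t : W} (h : eta cs w t = 1) :
    cs.length (w * t) < cs.length w := by
  obtain ⟨ω, hω, rfl⟩ := cs.exists_isReduced w
  exact (cs.isRightInversion_of_mem_rightInvSeq hω (mem_rightInvSeq_of_eta cs h)).2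

theorem eta_of_length_lt {w t : W} (ht : cs.IsReflection t)
    (h : cs.length (w * t) < cs.length w) : eta cs w t = 1 := by
  rcases zmod2_cases (eta cs w t) with h0 | h1
  · exfalso
    have h2 : eta cs (w * t) t = 1 := by
      rw [eta_mul, eta_reflection cs ht]
      have : t * t * t⁻¹ = t := by group
      rw [this, h0, add_zero]
    have h3 := length_lt_of_eta cs h2
    rw [mul_assoc, ht.mul_self, mul_one] at h3
    omega
  · exact h1

/-- Strong exchange condition (right version). -/
theorem strong_exchange_right {ω : List B} {t : W} (ht : cs.IsReflection t)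
    (h : cs.length (cs.wordProd ω * t) < cs.length (cs.wordProd ω)) :
    ∃ j < ω.length, cs.wordProd ω * t = cs.wordProd (ω.eraseIdx j) := by
  have h1 := mem_rightInvSeq_of_eta cs (eta_of_length_lt cs ht h)
  obtain ⟨j, hj, rfl⟩ := List.mem_iff_getElem.mp h1
  refine ⟨j, by simpa using hj, ?_⟩
  rw [← cs.wordProd_mul_getD_rightInvSeq, List.getD_eq_getElem]

/-- Strong exchange condition (left version). -/
theorem strong_exchange_left {ω : List B} {t : W} (ht : cs.IsReflection t)
    (h : cs.length (t * cs.wordProd ω) < cs.length (cs.wordProd ω)) :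
    ∃ j < ω.length, t * cs.wordProd ω = cs.wordProd (ω.eraseIdx j) := by
  have ht' : cs.IsReflection ((cs.wordProd ω)⁻¹ * t * cs.wordProd ω) := by
    have := ht.conj (cs.wordProd ω)⁻¹
    simpa using this
  have e : cs.wordProd ω * ((cs.wordProd ω)⁻¹ * t * cs.wordProd ω) = t * cs.wordProd ω := by group
  obtain ⟨j, hj, h2⟩ := strong_exchange_right cs (ω := ω) ht' (by rwa [e])
  exact ⟨j, hj, by rw [← h2, e]⟩

/-- Key consequence of the exchange condition. -/
theorem exchange_comm {w : W} {i j : B} (h1 : ¬ cs.IsLeftDescent w i)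
    (h2 : ¬ cs.IsRightDescent w j) (h3 : cs.IsRightDescent (cs.simple i * w) j) :
    cs.simple i * w = w * cs.simple j := by
  obtain ⟨ω, hω, rfl⟩ := cs.exists_isReduced w
  have h4 : cs.length (cs.wordProd (i :: ω) * cs.simple j) < cs.length (cs.wordProd (i :: ω)) := by
    rw [cs.wordProd_cons]
    exact h3
  obtain ⟨k, hk, h5⟩ := strong_exchange_right cs (cs.isReflection_simple j) h4
  rw [cs.wordProd_cons] at h5
  rcases k with _ | k
  · simp only [List.eraseIdx_cons_zero] at h5
    calc cs.simple i * cs.wordProd ω
        = cs.simple i * cs.wordProd ω * cs.simple j * cs.simple j := by simp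
      _ = cs.wordProd ω * cs.simple j := by rw [h5]
  · exfalso
    rw [List.eraseIdx_cons_succ, cs.wordProd_cons, mul_assoc, mul_right_inj] at h5
    apply h2
    have h6 : cs.length (cs.wordProd (ω.eraseIdx k)) ≤ (ω.eraseIdx k).length :=
      cs.length_wordProd_le _
    have hk' : k < ω.length := by simpa using hk
    have h7 := List.length_eraseIdx_add_one hk'
    rw [CoxeterSystem.IsRightDescent, h5, hω.eq]
    omega

end Pool.Agent.Helper32
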