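import Pool.Agent.Helper32.KLBound

set_option autoImplicit false

/-! The example. -/

namespace Pool.Agent.Helper32.KL

open CoxeterSystem

section general

variable {B W : Type} [Group W] {M : CoxeterMatrix B} {cs : CoxeterSystem M W}

theorem eps_wordProd [DecidableEq B] (hM : RightAngled M) (i : B) (ω : List B) :
    eps cs hM i (cs.wordProd ω) = (-1) ^ (ω.count i) := by
  induction ω with
  | nil => simp
  | cons j ω ih =>
    rw [cs.wordProd_cons, map_mul, ih, eps_simple, List.count_cons]
    by_cases h : j = i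
    · subst h
      simp [pow_succ]
    · simp [h]

theorem length_nodup [DecidableEq B] (hM : RightAngled M) {ω : List B} (h : ω.Nodup) :
    cs.length (cs.wordProd ω) = ω.length := by
  apply le_antisymm (cs.length_wordProd_le ω)
  have h1 := card_le_length (cs := cs) hM (w := cs.wordProd ω) ω.toFinset ?_
  · rwa [List.toFinset_card_of_nodup h] at h1
  · intro i hi
    rw [List.mem_toFinset] at hi
    rw [eps_wordProd, List.count_eq_one_of_mem h hi, pow_one]

theorem mem_parabolic_word {J : Set B} {ω : List B} (h : ∀ i ∈ ω, i ∈ J) :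
    cs.wordProd ω ∈ parabolic cs J := by
  induction ω with
  | nil => simp [parabolic, one_mem]
  | cons j ω ih =>
    rw [cs.wordProd_cons]
    exact mul_mem (Subgroup.subset_closure ⟨j, h j List.mem_cons_self, rfl⟩)
      (ih fun i hi => h i (List.mem_cons_of_mem _ hi))

theorem exists_word_of_mem_parabolic {J : Set B} {w : W} (h : w ∈ parabolic cs J) :
    ∃ ω : List B, (∀ i ∈ ω, i ∈ J) ∧ w = cs.wordProd ω := by
  induction h using Subgroup.closure_induction with
  | mem x hx =>
    obtain ⟨j, hj, rfl⟩ := hx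
    exact ⟨[j], by simpa using hj, by simp⟩
  | one => exact ⟨[], by simp, by simp⟩
  | mul x y _ _ hx hy =>
    obtain ⟨a, ha, rfl⟩ := hx
    obtain ⟨b, hb, rfl⟩ := hy
    refine ⟨a ++ b, ?_, by rw [cs.wordProd_append]⟩
    intro i hi
    rcases List.mem_append.mp hi with h | h
    · exact ha i h
    · exact hb i h
  | inv x _ hx =>
    obtain ⟨a, ha, rfl⟩ := hx
    refine ⟨a.reverse, ?_, by rw [cs.wordProd_reverse]⟩
    intro i hi
    exact ha i (List.mem_reverse.mp hi)

theorem eps_parabolic [DecidableEq B] (hM : RightAngled M) {J : Set B} {i : B} (hi : i ∉ J)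
    {w : W} (h : w ∈ parabolic cs J) : eps cs hM i w = 1 := by
  obtain ⟨ω, h1, rfl⟩ := exists_word_of_mem_parabolic h
  exact eps_word hM fun h2 => hi (h1 i h2)

theorem parabolic_of_bruhatLE {J : Set B} {y w : W} (h : BruhatLE cs y w) :
    w ∈ parabolic cs J → y ∈ parabolic cs J := by
  induction h with
  | refl => exact id
  | @tail x z _ h2 ih =>
    intro hw
    apply ih
    obtain ⟨t, ht, rfl, hl⟩ := h2
    obtain ⟨ω, h3, h4⟩ := exists_word_of_mem_parabolic hw
    have e : t * cs.wordProd ω = x := by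
      rw [← h4, ← mul_assoc, ht.mul_self, one_mul]
    have h5 : cs.length (t * cs.wordProd ω) < cs.length (cs.wordProd ω) := by
      rw [e, ← h4]; exact hl
    obtain ⟨j, hj, h6⟩ := strong_exchange_left cs ht h5
    rw [← e, h6]
    apply mem_parabolic_word
    intro i hi
    exact h3 i (List.mem_of_mem_eraseIdx hi)

theorem finite_parabolic [Finite B] {J : Set B} (hJ : ∀ a ∈ J, ∀ b ∈ J, a ≠ b → M a b = 2) :
    (parabolic cs J : Set W).Finite := by
  classical
  have := Fintype.ofFinite B
  have h1 : (parabolic cs J : Set W) ⊆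
      Set.range (fun l : {l : List B // l.Nodup} => cs.wordProd l.1) := by
    have key : ∀ ω : List B, (∀ i ∈ ω, i ∈ J) →
        ∃ l : List B, l.Nodup ∧ (∀ i ∈ l, i ∈ J) ∧ cs.wordProd ω = cs.wordProd l := by
      intro ω
      induction ω with
      | nil =>
        intro _
        exact ⟨[], by simp, by simp, rfl⟩
      | cons a ω ih =>
        intro hω
        obtain ⟨l, h1, h2, h3⟩ := ih fun i hi => hω i (List.mem_cons_of_mem _ hi)
        have haJ := hω a List.mem_cons_self
        by_cases ha : a ∈ l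
        · obtain ⟨l1, l2, rfl⟩ := List.append_of_mem ha
          refine ⟨l1 ++ l2, ?_, ?_, ?_⟩
          · exact h1.sublist (by simp)
          · intro i hi
            apply h2 i
            rcases List.mem_append.mp hi with h | h
            · exact List.mem_append_left _ h
            · exact List.mem_append_right _ (List.mem_cons_of_mem _ h)
          · have ha1 : a ∉ l1 := by
              intro h
              exact (List.nodup_append.mp h1).2.2 a h a List.mem_cons_self rfl
            have hc : cs.simple a * cs.wordProd l1 = cs.wordProd l1 * cs.simple a :=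
              comm_wordProd fun b hb => hJ a haJ b (h2 b (List.mem_append_left _ hb))
                (fun h => ha1 (h ▸ hb))
            rw [cs.wordProd_cons, h3, cs.wordProd_append, cs.wordProd_append, cs.wordProd_cons,
              ← mul_assoc, hc, mul_assoc, cs.simple_mul_simple_cancel_left]
        · refine ⟨a :: l, List.nodup_cons.mpr ⟨ha, h1⟩, ?_, ?_⟩
          · intro i hi
            rcases List.mem_cons.mp hi with rfl | h
            · exact haJ
            · exact h2 i h
          · rw [cs.wordProd_cons, cs.wordProd_cons, h3]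
    intro w hw
    obtain ⟨ω, h4, rfl⟩ := exists_word_of_mem_parabolic hw
    obtain ⟨l, h5, _, h6⟩ := key ω h4
    exact ⟨⟨l, h5⟩, h6.symm⟩
  exact (Set.finite_range _).subset h1

theorem rdesc_split [DecidableEq B] (hM : RightAngled M) {i : B} (l1 l2 : List B)
    (hl : (l1 ++ i :: l2).Nodup) (h2 : ∀ a ∈ l2, M i a = 2) :
    cs.IsRightDescent (cs.wordProd (l1 ++ i :: l2)) i := by
  have h4 := length_nodup (cs := cs) hM hl
  have h5 := cs.length_wordProd_le (l1 ++ l2)
  have h6 : cs.wordProd (l1 ++ i :: l2) * cs.simple i = cs.wordProd (l1 ++ l2) := by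
    rw [cs.wordProd_append, cs.wordProd_cons, comm_wordProd h2, cs.wordProd_append, mul_assoc,
      cs.simple_mul_simple_cancel_right]
  rw [CoxeterSystem.IsRightDescent, h6, h4]
  simp only [List.length_append, List.length_cons] at h5 ⊢
  omega

theorem not_rdesc_word [DecidableEq B] (hM : RightAngled M) {w : W} {i : B} {l : List B}
    (h1 : w = cs.wordProd l) (hl : (l ++ [i]).Nodup) : ¬ cs.IsRightDescent w i := by
  have h4 := length_nodup (cs := cs) hM hl
  have h5 := cs.length_wordProd_le l
  rw [cs.wordProd_append, cs.wordProd_singleton, List.length_append, List.length_singleton] at h4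
  rw [CoxeterSystem.IsRightDescent, h1]
  omega

end general

/-- Entries of the Coxeter matrix of the example. -/
def exEntry (i j : Fin 6) : ℕ :=
  if i = j then 1
  else if i = 5 ∨ j = 5 ∨ (i = 1 ∧ j = 4) ∨ (i = 4 ∧ j = 1) ∨ (i = 2 ∧ j = 3) ∨
    (i = 3 ∧ j = 2) then 0
  else 2

/-- The Coxeter matrix of the example: `m(1,4) = m(2,3) = ∞`, `m(5,k) = ∞` for all `k ≠ 5`, all
other `m(i,j)` with `i ≠ j` are `2`. -/
def exMatrix : CoxeterMatrix (Fin 6) where
  M := fun i j => exEntry i j
  isSymm := Matrix.IsSymm.ext (fun i j => by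
    show exEntry j i = exEntry i j
    revert i j
    decide)
  diagonal := fun i => by
    show exEntry i i = 1
    revert i
    decide
  off_diagonal := fun i j => by
    show i ≠ j → exEntry i j ≠ 1
    revert i j
    decide

theorem exMatrix_apply (i j : Fin 6) : exMatrix i j = exEntry i j := rfl

theorem exRA : RightAngled exMatrix := by
  unfold RightAngled
  simp only [exMatrix_apply]
  decide

/-- The Coxeter system of the example. -/
abbrev exCs : CoxeterSystem exMatrix exMatrix.Group := exMatrix.toCoxeterSystem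

theorem exM5 : ∀ b : Fin 6, b ≠ 5 → exMatrix 5 b ≠ 2 ∧ exMatrix b 5 ≠ 2 := by
  simp only [exMatrix_apply]
  decide

theorem exIrreducible : Irreducible exMatrix := by
  intro J ⟨a, ha⟩ ⟨b, hb⟩
  by_cases h5 : (5 : Fin 6) ∈ J
  · exact ⟨5, h5, b, hb, (exM5 b fun h => hb (h ▸ h5)).1⟩
  · exact ⟨a, ha, 5, h5, (exM5 a fun h => h5 (h ▸ ha)).2⟩

theorem exClique (m : List (Fin 6)) (hm : CommList exMatrix m) : m.length ≤ 3 := by
  have key : ∀ F : Finset (Fin 6), (∀ a ∈ F, ∀ b ∈ F, a ≠ b → exEntry a b = 2) → F.card ≤ 3 := by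
    decide
  have h1 := key m.toFinset (by
    intro a ha b hb
    rw [List.mem_toFinset] at ha hb
    exact hm.2 a ha b hb)
  rwa [List.toFinset_card_of_nodup hm.1] at h1

/-- `W` is infinite. -/
theorem exInfinite : Infinite exMatrix.Group := by
  have h50 : (5 : Fin 6) ≠ 0 := by decide
  have hM : exMatrix 5 0 = 0 := rfl
  rw [← not_finite_iff_infinite]
  intro hfin
  obtain ⟨n, hn⟩ : ∃ n : ℕ, ∀ w : exMatrix.Group, exCs.length w ≤ n := by
    have := Fintype.ofFinite exMatrix.Group
    exact ⟨Finset.univ.sup exCs.length, fun w => Finset.le_sup (Finset.mem_univ w)⟩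
  have h1 := alt_reduced (cs := exCs) exRA h50 hM (n + 1)
  have h2 := hn (exCs.wordProd (alternatingWord 5 0 (n + 1)))
  omega

/-- Commuting relations. -/
theorem exComm {i j : Fin 6} (h : exEntry i j = 2) :
    exCs.simple i * exCs.simple j = exCs.simple j * exCs.simple i :=
  simple_comm (cs := exCs) h

theorem ex_a_three {z : exMatrix.Group} {i j k : Fin 6}
    (hi : exCs.IsRightDescent z i) (hj : exCs.IsRightDescent z j)
    (hk : exCs.IsRightDescent z k) (h : [i, j, k].Nodup) (K : KLData exCs) : K.a z = (3 : ℤ) := by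
  refine K.a_eq (K.aBound_rightAngled exRA exClique z) ?_
  have h1 := length_nodup (cs := exCs) exRA h
  have h2 := length_nodup (cs := exCs) exRA (ω := [i, k])
    (h.sublist (by simp))
  refine K.not_aBound_two hi hj hk ?_ ?_
  · simpa [exCs.wordProd_cons, mul_assoc] using h1
  · simpa [exCs.wordProd_cons] using h2

theorem exV0 (i : Fin 6) (hi : i = 0 ∨ i = 1 ∨ i = 2) :
    exCs.IsRightDescent (exCs.wordProd [0, 1, 2]) i := by
  rcases hi with rfl | rfl | rfl
  · exact rdesc_split exRA [] [1, 2] (by decide) (by simp only [exMatrix_apply]; decide)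
  · exact rdesc_split exRA [0] [2] (by decide) (by simp only [exMatrix_apply]; decide)
  · exact rdesc_split exRA [0, 1] [] (by decide) (by simp)

theorem exV1 (i : Fin 6) (hi : i = 3 ∨ i = 4) :
    exCs.IsRightDescent (exCs.wordProd [3, 4]) i := by
  rcases hi with rfl | rfl
  · exact rdesc_split exRA [] [4] (by decide) (by simp only [exMatrix_apply]; decide)
  · exact rdesc_split exRA [3] [] (by decide) (by simp)

theorem exW (i : Fin 6) (hi : i = 0 ∨ i = 3 ∨ i = 4) :
    exCs.IsRightDescent (exCs.wordProd [5, 0, 1, 2, 3, 4]) i := by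
  rcases hi with rfl | rfl | rfl
  · exact rdesc_split exRA [5] [1, 2, 3, 4] (by decide) (by simp only [exMatrix_apply]; decide)
  · exact rdesc_split exRA [5, 0, 1, 2] [4] (by decide) (by simp only [exMatrix_apply]; decide)
  · exact rdesc_split exRA [5, 0, 1, 2, 3] [] (by decide) (by simp)

theorem ex_finite (J : Finset (Fin 6))
    (hJ : ∀ a ∈ J, ∀ b ∈ J, a ≠ b → exEntry a b = 2) :
    (parabolic exCs (J : Set (Fin 6)) : Set exMatrix.Group).Finite :=
  finite_parabolic fun a ha b hb hab => hJ a ha b hb hab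

variable (K : KLData exCs)

theorem ex_a_v1 : K.a (exCs.wordProd [3, 4]) = (2 : ℤ) := by
  have hl := length_nodup (cs := exCs) exRA (ω := [3, 4]) (by decide)
  refine K.a_eq ?_ ?_
  · have := K.aBound_rightAngled' exRA exClique (z := exCs.wordProd [3, 4]) (by rw [hl]; decide)
    simpa using this
  · refine K.not_aBound_one (exV1 3 (by simp)) (exV1 4 (by simp)) ?_
    simpa [exCs.wordProd_cons] using hl

theorem ex_degP_v1 : K.degP (exCs.wordProd [3, 4]) = 0 := by
  have hl := length_nodup (cs := exCs) exRA (ω := [3, 4]) (by decide)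
  rw [KLData.degP]
  by_cases h : BruhatLE exCs 1 (exCs.wordProd [3, 4])
  · have hne : (1 : exMatrix.Group) ≠ exCs.wordProd [3, 4] := by
      intro h1
      rw [← h1, exCs.length_one] at hl
      exact absurd hl (by decide)
    have h1 := K.P_degree _ _ h hne
    rw [hl, exCs.length_one] at h1
    simp only [List.length_cons, List.length_nil] at h1
    omega
  · rw [K.P_eq_zero _ _ h]
    simp

theorem ex_inDf : K.InDf (exCs.wordProd [3, 4]) := by
  have hl := length_nodup (cs := exCs) exRA (ω := [3, 4]) (by decide)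
  refine ⟨?_, (({3, 4} : Finset (Fin 6)) : Set (Fin 6)), ex_finite _ (by decide), ?_⟩
  · rw [KLData.IsDistinguished, ex_a_v1, ex_degP_v1, hl]
    rfl
  · apply mem_parabolic_word
    decide

theorem ex_infinite_parabolic {I : Set (Fin 6)} (h5 : (5 : Fin 6) ∈ I) (h0 : (0 : Fin 6) ∈ I) :
    ¬ (parabolic exCs I : Set exMatrix.Group).Finite := by
  intro hfin
  have h50 : (5 : Fin 6) ≠ 0 := by decide
  have hM : exMatrix 5 0 = 0 := rfl
  obtain ⟨n, hn⟩ : ∃ n : ℕ, ∀ w ∈ (parabolic exCs I : Set exMatrix.Group), exCs.length w ≤ n := by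
    refine ⟨hfin.toFinset.sup exCs.length, fun w hw => ?_⟩
    exact Finset.le_sup (f := exCs.length) (hfin.mem_toFinset.mpr hw)
  have hmem : ∀ k : ℕ, (∀ i ∈ alternatingWord (5 : Fin 6) 0 k, i ∈ I) ∧
      (∀ i ∈ alternatingWord (0 : Fin 6) 5 k, i ∈ I) := by
    intro k
    induction k with
    | zero => simp [alternatingWord]
    | succ k ih =>
      rw [alternatingWord_succ, alternatingWord_succ]
      simp only [List.concat_eq_append, List.mem_append, List.mem_singleton]
      refine ⟨?_, ?_⟩
      · rintro i (h | rfl)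
        · exact ih.2 i h
        · exact h0
      · rintro i (h | rfl)
        · exact ih.1 i h
        · exact h5
  have h1 := alt_reduced (cs := exCs) exRA h50 hM (n + 1)
  have h2 := hn (exCs.wordProd (alternatingWord 5 0 (n + 1))) (mem_parabolic_word (hmem _).1)
  omega

theorem ex_shiftHypotheses :
    ShiftHypotheses K (exCs.wordProd [5]) (exCs.wordProd [0, 1, 2]) (exCs.wordProd [3, 4]) := by
  have hl1 := length_nodup (cs := exCs) exRA (ω := [5]) (by decide)
  have hl3 := length_nodup (cs := exCs) exRA (ω := [0, 1, 2]) (by decide)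
  have hl4 := length_nodup (cs := exCs) exRA (ω := [5, 0, 1, 2]) (by decide)
  have hl2 := length_nodup (cs := exCs) exRA (ω := [3, 4]) (by decide)
  have hl6 := length_nodup (cs := exCs) exRA (ω := [5, 0, 1, 2, 3, 4]) (by decide)
  have e4 : exCs.wordProd [5] * exCs.wordProd [0, 1, 2] = exCs.wordProd [5, 0, 1, 2] := by
    rw [← exCs.wordProd_append]
    rfl
  have e6 : exCs.wordProd [5, 0, 1, 2] * exCs.wordProd [3, 4]
      = exCs.wordProd [5, 0, 1, 2, 3, 4] := by
    rw [← exCs.wordProd_append]
    rfl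
  refine ⟨?_, ⟨⟨by simp, ?_, (({0, 1, 2} : Finset (Fin 6)) : Set (Fin 6)),
    ex_finite _ (by decide), ?_⟩, ?_⟩, ?_, ex_inDf K, ?_, ?_⟩
  · rw [e4, hl4, hl1, hl3]
    rfl
  · rw [e4, hl4, hl1, hl3, exCs.length_one]
    rfl
  · apply mem_parabolic_word
    decide
  · rintro ⟨x', v', y', u, u', ⟨-, -, I, hI, hv'⟩, h0, h1, h1', h2, h2', h2'', h3⟩
    rw [exCs.length_one] at h2
    have hu' : exCs.length u' = 0 := by omega
    have hx' : exCs.length x' = 0 := by
      rw [hl1, List.length_singleton] at h1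
      omega
    rw [exCs.length_eq_zero_iff] at hx' hu'
    subst hx' hu'
    rw [one_mul] at h0
    subst h0
    rw [e4, mul_one] at h2'
    subst h2'
    have h5I : (5 : Fin 6) ∈ I := by
      by_contra h
      have h6 := eps_parabolic exRA h hv'
      rw [eps_wordProd] at h6
      exact absurd h6 (by decide)
    have h0I : (0 : Fin 6) ∈ I := by
      by_contra h
      have h6 := eps_parabolic exRA h hv'
      rw [eps_wordProd] at h6
      exact absurd h6 (by decide)
    exact ex_infinite_parabolic h5I h0I hI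
  · rw [e4, e6, hl4, hl2, hl6]
    rfl
  · rw [IsMaximalFactorization, not_and, not_not]
    intro _
    have c0 : exCs.simple 0 * exCs.wordProd [1, 2] = exCs.wordProd [1, 2] * exCs.simple 0 :=
      comm_wordProd (by simp only [exMatrix_apply]; decide)
    have e1 : exCs.wordProd [5, 0, 1, 2] = exCs.wordProd [5, 1, 2] * exCs.simple 0 := by
      rw [exCs.wordProd_cons 5 [1, 2], mul_assoc, ← c0, ← exCs.wordProd_cons,
        ← exCs.wordProd_cons]
    have e2 : exCs.wordProd [0, 3, 4] = exCs.simple 0 * exCs.wordProd [3, 4] :=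
      exCs.wordProd_cons 0 [3, 4]
    have hl034 := length_nodup (cs := exCs) exRA (ω := [0, 3, 4]) (by decide)
    have hl512 := length_nodup (cs := exCs) exRA (ω := [5, 1, 2]) (by decide)
    refine ⟨exCs.wordProd [5, 1, 2], exCs.wordProd [0, 3, 4], 1, exCs.simple 0, 1,
      ⟨?_, ?_, (({0, 3, 4} : Finset (Fin 6)) : Set (Fin 6)), ex_finite _ (by decide), ?_⟩,
      ?_, ?_, ?_, ?_, ?_, ?_, ?_⟩
    · rw [e4, e2, e1]
      simp only [mul_assoc, mul_one]
    · rw [e4, e6, hl6, hl512, hl034, exCs.length_one]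
      rfl
    · apply mem_parabolic_word
      decide
    · rw [e4, e1]
    · rw [e4, hl4, hl512, exCs.length_simple]
      rfl
    · simp
    · simp
    · rw [mul_one, e2]
    · rw [hl034, exCs.length_simple, hl2, exCs.length_one]
      rfl
    · rw [exCs.length_simple]
      omega
  · rw [e4, e6, ex_a_three (i := 0) (j := 3) (k := 4) (exW 0 (by simp)) (exW 3 (by simp))
      (exW 4 (by simp)) (by decide), ex_a_three (i := 0) (j := 1) (k := 2) (exV0 0 (by simp))
      (exV0 1 (by simp)) (exV0 2 (by simp)) (by decide)]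

theorem ex_mu_aux {i j k : Fin 6} (hij : i ≠ j) (hM : exEntry i j = 2)
    (F : Finset (Fin 6)) (hF : ∀ a ∈ F, (-1 : ℤˣ) ^ (List.count a [5, 0, 1, 2, 3, 4, j]) = -1)
    (hF4 : F.card = 5) (hi : exCs.IsRightDescent (exCs.wordProd [5, 0, 1, 2, 3, 4]) i)
    (hi' : ([5, 0, 1, 2, i] : List (Fin 6)).Nodup)
    (hk : (-1 : ℤˣ) ^ (List.count k [5, 0, 1, 2, 3, 4, j])
      ≠ (-1) ^ (List.count k [5, 0, 1, 2, i])) :
    K.mu (exCs.wordProd [5, 0, 1, 2])
      (exCs.wordProd [5, 0, 1, 2, 3, 4] * (exCs.simple j)⁻¹) = 0 := by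
  have e : exCs.wordProd [5, 0, 1, 2, 3, 4] * (exCs.simple j)⁻¹
      = exCs.wordProd [5, 0, 1, 2, 3, 4, j] := by
    rw [exCs.inv_simple, ← exCs.wordProd_singleton, ← exCs.wordProd_append]
    rfl
  have e2 : exCs.wordProd [5, 0, 1, 2] * exCs.simple i = exCs.wordProd [5, 0, 1, 2, i] := by
    rw [← exCs.wordProd_singleton, ← exCs.wordProd_append]
    rfl
  have hl4 := length_nodup (cs := exCs) exRA (ω := [5, 0, 1, 2]) (by decide)
  have hl5 := length_nodup (cs := exCs) exRA hi'
  refine K.mu_eq_zero (i := i) ?_ ?_ ?_ ?_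
  · have h1 := card_le_length (cs := exCs) exRA
      (w := exCs.wordProd [5, 0, 1, 2, 3, 4] * (exCs.simple j)⁻¹) F (by
        intro a ha
        rw [e, eps_wordProd]
        exact hF a ha)
    rw [hl4]
    simp only [List.length_cons, List.length_nil]
    omega
  · rw [exCs.inv_simple, rdesc_mul_comm exRA hij hM]
    exact hi
  · rw [not_rdesc_iff', e2, hl4, hl5]
    simp
  · intro h
    rw [e, e2] at h
    have h1 := congrArg (eps exCs exRA k) h
    rw [eps_wordProd, eps_wordProd] at h1
    exact hk h1.symm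

theorem ex_mu {v₀₁ v₀₂ v₀₃ : exMatrix.Group}
    (h1 : exCs.wordProd [0, 1, 2] = v₀₁ * v₀₂ * v₀₃)
    (h2 : exCs.length (exCs.wordProd [0, 1, 2])
      = exCs.length v₀₁ + exCs.length v₀₂ + exCs.length v₀₃) :
    K.mu (exCs.wordProd [5, 0, 1, 2]) (exCs.wordProd [5, 0, 1, 2, 3, 4] * v₀₂⁻¹) = 0 := by
  have hl3 := length_nodup (cs := exCs) exRA (ω := [0, 1, 2]) (by decide)
  have hl4 := length_nodup (cs := exCs) exRA (ω := [5, 0, 1, 2]) (by decide)
  have hl6 := length_nodup (cs := exCs) exRA (ω := [5, 0, 1, 2, 3, 4]) (by decide)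
  simp only [List.length_cons, List.length_nil] at hl3 hl4 hl6
  rw [hl3] at h2
  have hpar := exCs.length_mul_mod_two (exCs.wordProd [5, 0, 1, 2, 3, 4]) v₀₂⁻¹
  rw [exCs.length_inv, hl6] at hpar
  have hcases : exCs.length v₀₂ = 0 ∨ exCs.length v₀₂ = 1 ∨ exCs.length v₀₂ = 2 ∨
      exCs.length v₀₂ = 3 := by omega
  rcases hcases with h | h | h | h
  · apply K.mu_eq_zero_of_parity
    rw [hl4, Nat.even_iff]
    omega
  · rw [exCs.length_eq_one_iff] at h
    obtain ⟨i, rfl⟩ := h
    have hi : i = 0 ∨ i = 1 ∨ i = 2 := by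
      obtain ⟨ω₁, hω₁, rfl⟩ := exCs.exists_isReduced v₀₁
      obtain ⟨ω₃, hω₃, rfl⟩ := exCs.exists_isReduced v₀₃
      rw [hω₁.eq, hω₃.eq, exCs.length_simple] at h2
      have e : exCs.wordProd [0, 1, 2] = exCs.wordProd (ω₁ ++ i :: ω₃) := by
        rw [h1, exCs.wordProd_append, exCs.wordProd_cons, mul_assoc]
      have hsub : ({0, 1, 2} : Finset (Fin 6)) ⊆ (ω₁ ++ i :: ω₃).toFinset := by
        intro a ha
        rw [List.mem_toFinset]
        by_contra hn
        have h3 := eps_word (cs := exCs) exRA hn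
        rw [← e, eps_wordProd] at h3
        revert h3
        fin_cases ha <;> decide
      have hcard : (ω₁ ++ i :: ω₃).toFinset.card ≤ ({0, 1, 2} : Finset (Fin 6)).card := by
        refine (List.toFinset_card_le _).trans ?_
        rw [List.length_append, List.length_cons]
        have : ({0, 1, 2} : Finset (Fin 6)).card = 3 := by decide
        omega
      have heq := Finset.eq_of_subset_of_card_le hsub hcard
      have : i ∈ ({0, 1, 2} : Finset (Fin 6)) := by
        rw [heq, List.mem_toFinset]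
        simp
      simpa using this
    rcases hi with rfl | rfl | rfl
    · exact ex_mu_aux K (i := 3) (k := 4) (by decide) (by decide) {5, 1, 2, 3, 4} (by decide)
        (by decide) (exW 3 (by simp)) (by decide) (by decide)
    · exact ex_mu_aux K (i := 3) (k := 4) (by decide) (by decide) {5, 0, 2, 3, 4} (by decide)
        (by decide) (exW 3 (by simp)) (by decide) (by decide)
    · exact ex_mu_aux K (i := 4) (k := 3) (by decide) (by decide) {5, 0, 1, 3, 4} (by decide)
        (by decide) (exW 4 (by simp)) (by decide) (by decide)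
  · apply K.mu_eq_zero_of_parity
    rw [hl4, Nat.even_iff]
    omega
  · have h01 : exCs.length v₀₁ = 0 := by omega
    have h03 : exCs.length v₀₃ = 0 := by omega
    rw [exCs.length_eq_zero_iff] at h01 h03
    subst h01 h03
    rw [one_mul, mul_one] at h1
    subst h1
    have c0 : exCs.simple 0 * exCs.wordProd [1, 2, 3, 4]
        = exCs.wordProd [1, 2, 3, 4] * exCs.simple 0 :=
      comm_wordProd (by simp only [exMatrix_apply]; decide)
    have e1 : exCs.wordProd [5, 0, 1, 2, 3, 4] * (exCs.wordProd [0, 1, 2])⁻¹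
        = exCs.wordProd [5, 1, 2, 3, 4] * (exCs.wordProd [1, 2])⁻¹ := by
      have c1 : exCs.simple 0 * exCs.wordProd [1, 2] = exCs.wordProd [1, 2] * exCs.simple 0 :=
        comm_wordProd (by simp only [exMatrix_apply]; decide)
      rw [exCs.wordProd_cons 5 [0, 1, 2, 3, 4], exCs.wordProd_cons 0 [1, 2, 3, 4],
        exCs.wordProd_cons 0 [1, 2], c0, c1, mul_inv_rev, exCs.wordProd_cons 5 [1, 2, 3, 4]]
      simp [mul_assoc]
    have hz : exCs.wordProd [5, 1, 2, 3, 4] * (exCs.wordProd [1, 2])⁻¹
        ∈ parabolic exCs {i | i ≠ 0} := by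
      refine mul_mem ?_ (inv_mem ?_)
      · apply mem_parabolic_word
        decide
      · apply mem_parabolic_word
        decide
    rw [e1, KLData.mu, if_neg, if_neg]
    · rintro ⟨h4, _⟩
      have h5 := parabolic_of_bruhatLE (J := {i | i ≠ 3}) h4 (by
        apply mem_parabolic_word
        decide)
      have h6 := eps_parabolic exRA (i := 3) (by simp) h5
      rw [map_mul, map_inv, eps_wordProd, eps_wordProd] at h6
      exact absurd h6 (by decide)
    · rintro ⟨h4, _⟩
      have h5 := parabolic_of_bruhatLE h4 hz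
      have h6 := eps_parabolic exRA (i := 0) (by simp) h5
      rw [eps_wordProd] at h6
      exact absurd h6 (by decide)

theorem ex_ne_one {l : List (Fin 6)} (hl : l.Nodup) (h : l ≠ []) : exCs.wordProd l ≠ 1 := by
  intro h1
  have hl2 := length_nodup (cs := exCs) exRA hl
  rw [h1, exCs.length_one] at hl2
  exact h (List.length_eq_zero_iff.mp hl2.symm)

theorem ex_main : ∃ y v₀ v₁ : exMatrix.Group, y ≠ 1 ∧ v₁ ≠ 1 ∧ ∀ K : KLData exCs,
    ShiftHypotheses K y v₀ v₁ ∧ ¬ ShiftConclusion K y v₀ v₁ ∧
    (∀ v₀₁ v₀₂ v₀₃ : exMatrix.Group, v₀ = v₀₁ * v₀₂ * v₀₃ →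
      exCs.length v₀ = exCs.length v₀₁ + exCs.length v₀₂ + exCs.length v₀₃ →
      K.mu (y * v₀) (y * v₀ * v₁ * v₀₂⁻¹) = 0) := by
  refine ⟨exCs.wordProd [5], exCs.wordProd [0, 1, 2], exCs.wordProd [3, 4],
    ex_ne_one (by decide) (by decide), ex_ne_one (by decide) (by decide), fun K => ?_⟩
  have key : ∀ v₀₁ v₀₂ v₀₃ : exMatrix.Group, exCs.wordProd [0, 1, 2] = v₀₁ * v₀₂ * v₀₃ →
      exCs.length (exCs.wordProd [0, 1, 2])
        = exCs.length v₀₁ + exCs.length v₀₂ + exCs.length v₀₃ →
      K.mu (exCs.wordProd [5] * exCs.wordProd [0, 1, 2])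
        (exCs.wordProd [5] * exCs.wordProd [0, 1, 2] * exCs.wordProd [3, 4] * v₀₂⁻¹) = 0 := by
    intro v₀₁ v₀₂ v₀₃ h1 h2
    have e4 : exCs.wordProd [5] * exCs.wordProd [0, 1, 2] = exCs.wordProd [5, 0, 1, 2] := by
      rw [← exCs.wordProd_append]
      rfl
    have e6 : exCs.wordProd [5, 0, 1, 2] * exCs.wordProd [3, 4]
        = exCs.wordProd [5, 0, 1, 2, 3, 4] := by
      rw [← exCs.wordProd_append]
      rfl
    rw [e4, e6]
    exact ex_mu K h1 h2
  refine ⟨ex_shiftHypotheses K, ?_, key⟩
  rintro ⟨v₀₁, v₀₂, v₀₃, h1, h2, -, -, h3⟩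
  exact h3 (key v₀₁ v₀₂ v₀₃ h1 h2)

end Pool.Agent.Helper32.KL
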