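import Pool.Agent.Helper32.KLHecke

set_option autoImplicit false

/-! Consequences of the defining properties of the Kazhdan-Lusztig basis. -/

namespace Pool.Agent.Helper32.KL

open CoxeterSystem

variable {B W : Type} [Group W] {M : CoxeterMatrix B} {cs : CoxeterSystem M W}
variable {H : Type} [Ring H] [Algebra A H]

/-- `C` is the Kazhdan-Lusztig basis (normalized description). -/
structure IsKL (N : NHecke cs H) (C : Module.Basis W A H) : Prop where
  self : ∀ w, N.co (C w) w = 1
  supp : ∀ w y, y ≠ w → ¬ cs.length y < cs.length w → N.co (C w) y = 0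
  pos : ∀ w y, y ≠ w → Pos 1 (N.co (C w) y)
  bar : ∀ w, N.bar (C w) = C w

namespace IsKL

variable {N : NHecke cs H} {C : Module.Basis W A H} (hC : IsKL N C)

theorem expand (N : NHecke cs H) (C : Module.Basis W A H) (X : H) (z : W) :
    N.co X z = ∑ w ∈ (C.repr X).support, C.repr X w * N.co (C w) z := by
  conv_lhs => rw [← C.linearCombination_repr X, Finsupp.linearCombination_apply, Finsupp.sum,
    NHecke.co_sum]
  refine Finset.sum_congr rfl fun w _ => ?_
  rw [NHecke.co_smul]

include hC

theorem pos0 (w y : W) : Pos 0 (N.co (C w) y) := by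
  by_cases h : y = w
  · subst h
    rw [hC.self]
    exact pos_one
  · exact (hC.pos w y h).mono (by norm_num)

theorem expand' [DecidableEq W] (X : H) (z : W) :
    C.repr X z = N.co X z -
      ∑ w ∈ (C.repr X).support.erase z, C.repr X w * N.co (C w) z := by
  rw [expand N C X z]
  by_cases hz : z ∈ (C.repr X).support
  · rw [← Finset.add_sum_erase _ _ hz, hC.self, mul_one, add_sub_cancel_right]
  · rw [Finset.erase_eq_of_notMem hz, sub_self]
    exact Finsupp.notMem_support_iff.mp hz

/-- Triangular change of basis. -/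
theorem tri {X : H} {g : W → ℤ} (hg : ∀ z w, cs.length z < cs.length w → g z ≤ g w + 1)
    (hX : ∀ w, Pos (g w) (N.co X w)) (z : W) : Pos (g z) (C.repr X z) := by
  classical
  obtain ⟨n, hn⟩ : ∃ n : ℕ, ∀ w ∈ (C.repr X).support, cs.length w ≤ n :=
    ⟨(C.repr X).support.sup cs.length, fun w hw => Finset.le_sup (f := cs.length) hw⟩
  have main : ∀ k : ℕ, ∀ z, n < cs.length z + k → Pos (g z) (C.repr X z) := by
    intro k
    induction k with
    | zero =>
      intro z hz
      have : z ∉ (C.repr X).support := fun h => by
        have := hn z h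
        omega
      rw [Finsupp.notMem_support_iff.mp this]
      exact pos_zero _
    | succ k ih =>
      intro z hz
      rw [hC.expand' X z]
      refine (hX z).sub (Pos.sum fun w hw => ?_)
      rw [Finset.mem_erase] at hw
      by_cases hl : cs.length z < cs.length w
      · exact ((ih w (by omega)).mul (hC.pos w z hw.1.symm)).mono (hg z w hl)
      · rw [hC.supp w z hw.1.symm hl, mul_zero]
        exact pos_zero _
  exact main (n + 1) z (by omega)

theorem tri_const {X : H} {n : ℤ} (hX : ∀ w, Pos n (N.co X w)) (z : W) : Pos n (C.repr X z) :=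
  hC.tri (g := fun _ => n) (fun _ _ _ => by omega) hX z

theorem coeff_lead {X : H} {n : ℤ} (hX : ∀ w, Pos n (N.co X w)) (z : W) :
    (C.repr X z).coeff n = (N.co X z).coeff n := by
  classical
  rw [hC.expand' X z, coeff_sub', coeff_sum', Finset.sum_eq_zero, sub_zero]
  intro w hw
  rw [Finset.mem_erase] at hw
  exact ((hC.tri_const hX w).mul (hC.pos w z hw.1.symm)) n (by omega)

theorem repr_bar (X : H) (w : W) :
    C.repr (N.bar X) w = LaurentPolynomial.invert (C.repr X w) := by
  classical
  have h1 : N.bar X = ∑ u ∈ (C.repr X).support, LaurentPolynomial.invert (C.repr X u) • C u := by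
    conv_lhs => rw [← C.linearCombination_repr X, Finsupp.linearCombination_apply, Finsupp.sum,
      map_sum]
    refine Finset.sum_congr rfl fun u _ => ?_
    rw [N.bar_smul, hC.bar]
  rw [h1, map_sum, Finsupp.finsetSum_apply]
  have h2 : ∀ u ∈ (C.repr X).support,
      (C.repr (LaurentPolynomial.invert (C.repr X u) • C u)) w
        = if u = w then LaurentPolynomial.invert (C.repr X w) else 0 := by
    intro u _
    rw [map_smul, Module.Basis.repr_self, Finsupp.smul_apply, Finsupp.single_apply]
    split_ifs with h
    · subst h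
      simp
    · simp
  rw [Finset.sum_congr rfl h2, Finset.sum_ite_eq']
  split_ifs with h
  · rfl
  · rw [Finsupp.notMem_support_iff.mp h, map_zero]

theorem inv_repr {X : H} (hX : N.bar X = X) (w : W) :
    LaurentPolynomial.invert (C.repr X w) = C.repr X w := by
  rw [← hC.repr_bar, hX]

theorem coeff_symm {X : H} (hX : N.bar X = X) (w : W) (k : ℤ) :
    (C.repr X w).coeff (-k) = (C.repr X w).coeff k := by
  conv_rhs => rw [← hC.inv_repr hX w]
  rw [coeff_invert]

/-- Uniqueness: a bar-invariant element with all coordinates in `v ℤ[v]` is zero. -/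
theorem eq_zero {X : H} (hX : N.bar X = X) (hp : ∀ w, Pos 1 (N.co X w)) : X = 0 := by
  apply C.repr.injective
  ext1 w
  rw [map_zero]
  exact eq_zero_of_pos_of_inv (hC.tri_const hp w) (hC.inv_repr hX w)

theorem bar_aux (i : B) : N.bar (N.t (cs.simple i) + vpow (-1) • (1 : H))
    = N.t (cs.simple i) + vpow (-1) • (1 : H) := by
  rw [map_add, N.bar_t, N.bar_smul, map_one, LaurentPolynomial.invert_T, xi, sub_smul]
  simp only [neg_neg]
  abel

theorem C_mul_t {w : W} {i : B} (h : cs.IsRightDescent w i) :
    C w * N.t (cs.simple i) = - (vpow (-1) • C w) := by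
  classical
  set X : H := C w * (N.t (cs.simple i) + vpow (-1) • (1 : H)) with hX
  have hco : ∀ y, N.co X y = N.co (C w) (y * cs.simple i) +
      (if cs.IsRightDescent y i then xi else 0) * N.co (C w) y + vpow (-1) * N.co (C w) y := by
    intro y
    rw [hX, mul_add, NHecke.co_add, NHecke.co_mul_t, mul_smul_comm, mul_one, NHecke.co_smul]
  have hd : ∀ y, cs.IsRightDescent y i → Pos 1 (N.co X y) := by
    intro y hy
    rw [hco, if_pos hy]
    have e : N.co (C w) (y * cs.simple i) + xi * N.co (C w) y + vpow (-1) * N.co (C w) y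
        = N.co (C w) (y * cs.simple i) + vpow 1 * N.co (C w) y := by
      rw [xi]; ring
    rw [e]
    refine Pos.add (hC.pos _ _ ?_) ((Pos.mul (pos_T 1) (hC.pos0 w y)).mono (by norm_num))
    intro h1
    rw [← h1, rdesc_muls] at h
    exact h hy
  have hp : ∀ y, Pos 0 (N.co X y) := by
    intro y
    by_cases hy : cs.IsRightDescent y i
    · exact (hd y hy).mono (by norm_num)
    · rw [hco, if_neg hy, zero_mul, add_zero]
      refine Pos.add (hC.pos0 _ _) ((Pos.mul (pos_T (-1)) (hC.pos w y ?_)).mono (by norm_num))
      rintro rfl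
      exact hy h
  have hbar : N.bar X = X := by
    rw [hX, map_mul, hC.bar, hC.bar_aux]
  have ha : ∀ y, cs.IsRightDescent y i → C.repr X y = 0 := by
    intro y hy
    apply A_ext
    intro k
    rcases lt_trichotomy k 0 with hk | hk | hk
    · exact hC.tri_const hp y k hk
    · subst hk
      rw [hC.coeff_lead hp y]
      exact hd y hy 0 (by norm_num)
    · rw [← hC.coeff_symm hbar]
      exact hC.tri_const hp y (-k) (by omega)
  have hT : X * N.t (cs.simple i) = vpow 1 • X := by
    rw [hX, mul_assoc, add_mul, N.t_sq, smul_mul_assoc, one_mul, ← mul_smul_comm]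
    congr 1
    rw [smul_add, smul_smul, T_mul_T, xi, sub_smul]
    simp only [add_neg_cancel, LaurentPolynomial.T_zero, one_smul]
    abel
  have hX0 : X = 0 := by
    by_contra hne
    have hs : (C.repr X).support.Nonempty := by
      rw [Finsupp.support_nonempty_iff]
      intro h0
      exact hne (C.repr.injective (by rw [h0, map_zero]))
    obtain ⟨y, hy, hmax⟩ := Finset.exists_max_image (C.repr X).support cs.length hs
    have hay : C.repr X y ≠ 0 := Finsupp.mem_support_iff.mp hy
    have hyd : ¬ cs.IsRightDescent y i := fun hd' => hay (ha y hd')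
    have hlt := not_rdesc_iff'.mp hyd
    have e1 : N.co X y = C.repr X y := by
      rw [expand N C X y, Finset.sum_eq_single y, hC.self, mul_one]
      · intro b hb hby
        rw [hC.supp b y hby.symm (by have := hmax b hb; omega), mul_zero]
      · intro h'
        exact absurd hy h'
    have e2 : N.co X (y * cs.simple i) = 0 := by
      rw [expand N C X]
      refine Finset.sum_eq_zero fun b hb => ?_
      rw [hC.supp b _ ?_ ?_, mul_zero]
      · rintro rfl
        have := hmax _ hb
        omega
      · have := hmax _ hb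
        omega
    have e3 := congrArg (fun Y => N.co Y y) hT
    simp only [NHecke.co_mul_t, NHecke.co_smul] at e3
    rw [if_neg hyd, zero_mul, add_zero, e2, e1] at e3
    apply hay
    calc C.repr X y = vpow (-1) * (vpow 1 * C.repr X y) := by
          rw [← mul_assoc, T_mul_T]; simp
      _ = 0 := by rw [← e3, mul_zero]
  rw [hX, mul_add, mul_smul_comm, mul_one] at hX0
  exact eq_neg_of_add_eq_zero_left hX0

/-- If `s ∈ R(z)`, `s ∉ R(w)` and `w s ≠ z`, then the coordinate of `C_z` at `w` is
divisible by `v²`. -/
theorem pos_two {z w : W} {i : B} (h1 : cs.IsRightDescent z i) (h2 : ¬ cs.IsRightDescent w i)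
    (h3 : w * cs.simple i ≠ z) : Pos 2 (N.co (C z) w) := by
  classical
  have h := congrArg (fun Y => N.co Y w) (hC.C_mul_t h1)
  simp only [NHecke.co_mul_t, NHecke.co_neg, NHecke.co_smul] at h
  rw [if_neg h2, zero_mul, add_zero] at h
  have e : N.co (C z) w = - (vpow 1 * N.co (C z) (w * cs.simple i)) := by
    rw [h, mul_neg, neg_neg, ← mul_assoc, T_mul_T]
    simp
  rw [e]
  exact ((Pos.mul (pos_T 1) (hC.pos _ _ h3)).mono (by norm_num)).neg

end IsKL

end Pool.Agent.Helper32.KL
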