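import Pool.Agent.Helper32.KLBasis

set_option autoImplicit false

/-! Passing from `KLData` to the normalized description. -/

namespace Pool.Agent.Helper32.KL

open CoxeterSystem

variable {B W : Type} [Group W] {M : CoxeterMatrix B} {cs : CoxeterSystem M W}

theorem BruhatLE.length_le {y w : W} (h : BruhatLE cs y w) : cs.length y ≤ cs.length w := by
  induction h with
  | refl => exact le_rfl
  | tail _ h2 ih =>
    obtain ⟨t, _, _, h3⟩ := h2
    omega

theorem BruhatLE.length_lt {y w : W} (h : BruhatLE cs y w) (hne : y ≠ w) :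
    cs.length y < cs.length w := by
  rcases Relation.ReflTransGen.cases_tail h with h1 | ⟨x, h1, h2⟩
  · exact absurd h1.symm hne
  · obtain ⟨t, _, _, h3⟩ := h2
    have := BruhatLE.length_le h1
    omega

/-- The unit `v ^ n`. -/
noncomputable def vunit (n : ℤ) : Aˣ where
  val := vpow n
  inv := vpow (-n)
  val_inv := by rw [T_mul_T]; simp
  inv_val := by rw [T_mul_T]; simp

theorem coeff_smul' (c : ℤ) (p : A) (k : ℤ) : (c • p).coeff k = c * p.coeff k := rfl

theorem coeff_aeval (p : Polynomial ℤ) (k : ℤ) :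
    (Polynomial.aeval (vpow (-2)) p).coeff k =
      ∑ j ∈ Finset.range (p.natDegree + 1), if k = -2 * (j : ℤ) then p.coeff j else 0 := by
  rw [Polynomial.aeval_eq_sum_range, coeff_sum']
  refine Finset.sum_congr rfl fun j _ => ?_
  rw [coeff_smul', LaurentPolynomial.T_pow, coeff_T']
  by_cases h : k = -2 * (j : ℤ)
  · rw [if_pos h, if_pos (by rw [h]; ring), mul_one]
  · rw [if_neg h, if_neg (by intro h'; apply h; rw [h']; ring), mul_zero]

theorem coeff_aeval_neg (p : Polynomial ℤ) (j : ℕ) :
    (Polynomial.aeval (vpow (-2)) p).coeff (-2 * (j : ℤ)) = p.coeff j := by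
  rw [coeff_aeval, Finset.sum_eq_single j, if_pos rfl]
  · intro b _ hb
    rw [if_neg]
    intro h
    apply hb
    have : (b : ℤ) = j := by linarith
    exact_mod_cast this
  · intro h
    rw [if_pos rfl]
    apply Polynomial.coeff_eq_zero_of_natDegree_lt
    simpa using h

theorem coeff_aeval_zero (p : Polynomial ℤ) (k : ℤ) (hk : k < -2 * (p.natDegree : ℤ)) :
    (Polynomial.aeval (vpow (-2)) p).coeff k = 0 := by
  rw [coeff_aeval]
  refine Finset.sum_eq_zero fun j hj => ?_
  rw [if_neg]
  rw [Finset.mem_range] at hj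
  intro h
  have : (j : ℤ) ≤ p.natDegree := by omega
  linarith

namespace KLData

variable (K : KLData cs)

/-- The normalized Hecke algebra of `K`. -/
noncomputable def toN : NHecke cs K.H where
  t := K.T.unitsSMul fun w => vunit (-(cs.length w : ℤ))
  t_one := by
    rw [Module.Basis.unitsSMul_apply, cs.length_one, K.T_one]
    simp [vunit, Units.smul_def]
  t_mul i w h := by
    have h1 := cs.length_simple_mul w i
    have h2 : cs.length (cs.simple i * w) = cs.length w + 1 := by omega
    rw [Module.Basis.unitsSMul_apply, Module.Basis.unitsSMul_apply, Module.Basis.unitsSMul_apply,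
      ← K.T_mul i w h, h2, cs.length_simple]
    simp only [vunit, Units.smul_def]
    rw [smul_mul_smul_comm, T_mul_T]
    congr 2
    push_cast
    ring
  t_sq i := by
    rw [Module.Basis.unitsSMul_apply, cs.length_simple]
    simp only [vunit, Units.smul_def]
    rw [smul_mul_smul_comm, T_mul_T, K.T_sq, smul_add, smul_smul, smul_smul, smul_smul, T_mul_T]
    congr 1
    · congr 1
      rw [mul_sub, T_mul_T, xi, sub_mul, T_mul_T, T_mul_T]
      simp
    · simp
  bar := K.bar
  bar_smul := K.bar_smul
  bar_t i := by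
    rw [Module.Basis.unitsSMul_apply, cs.length_simple]
    simp only [vunit, Units.smul_def]
    rw [K.bar_smul, LaurentPolynomial.invert_T]
    have h1 : K.T (cs.simple i) * (vpow (-2) • K.T (cs.simple i) - (1 - vpow (-2)) • (1 : K.H))
        = 1 := by
      rw [mul_sub, mul_smul_comm, K.T_sq, mul_smul_comm, mul_one, smul_add, smul_smul, smul_smul,
        T_mul_T, mul_sub, T_mul_T]
      simp
    have h2 : K.bar (K.T (cs.simple i))
        = vpow (-2) • K.T (cs.simple i) - (1 - vpow (-2)) • (1 : K.H) := by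
      calc K.bar (K.T (cs.simple i)) = K.bar (K.T (cs.simple i)) *
            (K.T (cs.simple i) *
              (vpow (-2) • K.T (cs.simple i) - (1 - vpow (-2)) • (1 : K.H))) := by
            rw [h1, mul_one]
        _ = _ := by rw [← mul_assoc, K.bar_T, one_mul]
    rw [h2, smul_sub, smul_smul, smul_smul, T_mul_T, mul_sub, T_mul_T, xi]
    simp

theorem co_eq (h : K.H) (w : W) :
    K.toN.co h w = vpow (cs.length w : ℤ) * K.T.repr h w := by
  rw [NHecke.co, toN, Module.Basis.repr_unitsSMul]
  simp [vunit, Units.smul_def]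

theorem co_C (w y : W) : K.toN.co (K.C w) y =
    (-1) ^ (cs.length w + cs.length y) * (vpow ((cs.length w : ℤ) - (cs.length y : ℤ))
      * Polynomial.aeval (vpow (-2)) (K.P y w)) := by
  rw [K.co_eq, K.C_coeff]
  have : vpow ((cs.length w : ℤ) - (cs.length y : ℤ))
      = vpow (cs.length y : ℤ) * vpow ((cs.length w : ℤ) - 2 * (cs.length y : ℤ)) := by
    rw [T_mul_T]
    congr 1
    ring
  rw [this]
  ring

theorem coeff_neg_one_pow (n : ℕ) (p : A) (k : ℤ) :
    ((-1) ^ n * p).coeff k = (-1) ^ n * p.coeff k := by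
  rcases Nat.even_or_odd n with h | h
  · rw [h.neg_one_pow, h.neg_one_pow, one_mul, one_mul]
  · rw [h.neg_one_pow, h.neg_one_pow, neg_one_mul, neg_one_mul, coeff_neg']

theorem isKL : IsKL K.toN K.C where
  self w := by
    rw [K.co_C, K.P_self, ← two_mul, pow_mul]
    simp
  supp w y h1 h2 := by
    rw [K.co_C, K.P_eq_zero y w (fun h => h2 (h.length_lt h1))]
    simp
  pos w y h := by
    by_cases hb : BruhatLE cs y w
    · have h1 := K.P_degree y w hb h
      intro k hk
      rw [K.co_C, coeff_neg_one_pow, coeff_T_mul, coeff_aeval_zero, mul_zero]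
      omega
    · rw [K.co_C, K.P_eq_zero y w hb]
      simpa using pos_zero 1
  bar w := K.bar_C w

theorem muLT_eq_zero_of_pos {y w : W} (h : cs.length y < cs.length w)
    (hp : Pos 2 (K.toN.co (K.C w) y)) : K.muLT y w = 0 := by
  rw [muLT]
  split_ifs with ho
  · obtain ⟨j, hj⟩ := ho
    have e1 : (cs.length w - cs.length y - 1) / 2 = j := by omega
    have h1 := hp 1 (by norm_num)
    rw [K.co_C, coeff_neg_one_pow, coeff_T_mul] at h1
    have e2 : (1 : ℤ) - ((cs.length w : ℤ) - (cs.length y : ℤ)) = -2 * (j : ℤ) := by omega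
    rw [e2, coeff_aeval_neg] at h1
    rw [e1]
    rcases Int.mul_eq_zero.mp h1 with h2 | h2
    · exact absurd h2 (pow_ne_zero _ (by norm_num))
    · exact h2
  · rfl

/-- `μ(w, z) = 0` if `s ∈ R(z)`, `s ∉ R(w)`, `w s ≠ z` and `ℓ(w) < ℓ(z)`. -/
theorem mu_eq_zero {w z : W} {i : B} (hl : cs.length w < cs.length z)
    (h1 : cs.IsRightDescent z i) (h2 : ¬ cs.IsRightDescent w i)
    (h3 : w * cs.simple i ≠ z) : K.mu w z = 0 := by
  rw [mu]
  split_ifs with h4 h5
  · exact K.muLT_eq_zero_of_pos hl (K.isKL.pos_two h1 h2 h3)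
  · have := h5.1.length_le
    omega
  · rfl

theorem mu_eq_zero_of_parity {w z : W} (h : Even (cs.length w + cs.length z)) :
    K.mu w z = 0 := by
  rw [mu]
  split_ifs with h4 h5
  · have := h4.1.length_le
    rw [muLT, if_neg]
    rw [Nat.not_odd_iff_even]
    obtain ⟨k, hk⟩ := h
    exact ⟨k - cs.length w, by omega⟩
  · have := h5.1.length_le
    rw [muLT, if_neg]
    rw [Nat.not_odd_iff_even]
    obtain ⟨k, hk⟩ := h
    exact ⟨k - cs.length z, by omega⟩
  · rfl

end KLData

end Pool.Agent.Helper32.KL
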