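import Pool.Agent.Helper32.RA
import Pool.Agent.Helper32.KLFromK

set_option autoImplicit false

/-! Bounds for the `a`-function of right-angled Coxeter groups. -/

namespace Pool.Agent.Helper32.KL

open CoxeterSystem

variable {B W : Type} [Group W] {M : CoxeterMatrix B} {cs : CoxeterSystem M W}

/-- Bound for structure constants of the standard basis. -/
theorem pos_t_mul_t [DecidableEq B] {H : Type} [Ring H] [Algebra A H] (N : NHecke cs H)
    (hM : RightAngled M) {b : ℕ} (hb : ∀ m : List B, CommList M m → m.length ≤ b) (n : ℕ) :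
    ∀ (x y : W) (m : List B), cs.length x = n → CommList M m →
      (∀ a ∈ m, ¬ cs.IsRightDescent x a) → (∀ a ∈ m, ¬ cs.IsLeftDescent y a) →
      ∀ w : W, Pos ((m.length : ℤ) - min (b : ℤ) (cs.length w))
        (N.co (N.t (x * cs.wordProd m) * N.t y) w) := by
  classical
  induction n using Nat.strong_induction_on with
  | _ n ih =>
    intro x y m hn hm hx hy w
    obtain ⟨f1, f2, f3⟩ := commList_facts hM m x hm hx
    by_cases hD : ∀ s, ¬ (cs.IsRightDescent (x * cs.wordProd m) s ∧ cs.IsLeftDescent y s)
    · have h1 := length_mul_of_disjoint hM hD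
      rw [N.t_mul_reduced h1, NHecke.co_t]
      split_ifs with h2
      · refine pos_one.mono ?_
        subst h2
        have := hb m hm
        rw [h1, f1]
        push_cast
        omega
      · exact pos_zero _
    · push Not at hD
      obtain ⟨p, hp1, hp2⟩ := hD
      have hpm : p ∉ m := fun h => hy p h hp2
      have hcomm : ∀ a ∈ m, M p a = 2 := by
        intro a ha
        exact comm_of_rdesc hM (fun h => hpm (h ▸ ha)) hp1 (f2 a ha)
      have hpx : cs.IsRightDescent x p := (f3 p hpm hcomm).mp hp1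
      obtain ⟨x', rfl⟩ : ∃ x', x = x' * cs.simple p := ⟨x * cs.simple p, by simp⟩
      obtain ⟨y', rfl⟩ : ∃ y', y = cs.simple p * y' := ⟨cs.simple p * y, by simp⟩
      have hpx' : ¬ cs.IsRightDescent x' p := by
        rw [rdesc_muls] at hpx
        exact hpx
      have hpy' : ¬ cs.IsLeftDescent y' p := by
        rw [ldesc_smul] at hp2
        exact hp2
      have hl : cs.length (x' * cs.simple p) = cs.length x' + 1 :=
        cs.not_isRightDescent_iff.mp hpx'
      have hne : ∀ a ∈ m, a ≠ p := fun a ha h => hpm (h ▸ ha)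
      have hcomm' : ∀ a ∈ m, M a p = 2 := fun a ha => by
        rw [M.symmetric]; exact hcomm a ha
      have hx' : ∀ a ∈ m, ¬ cs.IsRightDescent x' a := fun a ha h =>
        hx a ha ((rdesc_mul_comm hM (hne a ha) (hcomm' a ha)).mpr h)
      have hy' : ∀ a ∈ m, ¬ cs.IsLeftDescent y' a := fun a ha h =>
        hy a ha ((ldesc_mul_comm hM (hne a ha) (hcomm' a ha)).mpr h)
      have hpm' : CommList M (p :: m) := by
        refine ⟨List.nodup_cons.mpr ⟨hpm, hm.1⟩, ?_⟩
        intro a ha c hc hac
        rcases List.mem_cons.mp ha with rfl | ha'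
        · rcases List.mem_cons.mp hc with rfl | hc'
          · exact absurd rfl hac
          · exact hcomm c hc'
        · rcases List.mem_cons.mp hc with rfl | hc'
          · exact hcomm' a ha'
          · exact hm.2 a ha' c hc' hac
      have i1 := ih (cs.length x') (by omega) x' y' m rfl hm hx' hy' w
      have i2 := ih (cs.length x') (by omega) x' y' (p :: m) rfl hpm'
        (by
          intro a ha
          rcases List.mem_cons.mp ha with rfl | ha'
          · exact hpx'
          · exact hx' a ha')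
        (by
          intro a ha
          rcases List.mem_cons.mp ha with rfl | ha'
          · exact hpy'
          · exact hy' a ha') w
      -- algebra
      have c1 := comm_wordProd (cs := cs) hcomm
      obtain ⟨g1, g2, g3⟩ := commList_facts hM m x' hm hx'
      have hd1 : ¬ cs.IsRightDescent (x' * cs.wordProd m) p := by
        rw [g3 p hpm hcomm]
        exact hpx'
      have e1 : N.t (x' * cs.simple p * cs.wordProd m)
          = N.t (x' * cs.wordProd m) * N.t (cs.simple p) := by
        rw [N.t_mul_t hd1, mul_assoc, c1, mul_assoc]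
      have e2 : N.t (cs.simple p * y') = N.t (cs.simple p) * N.t y' :=
        (N.t_mul p y' (not_ldesc_iff'.mp hpy')).symm
      have e3 : N.t (x' * cs.simple p * cs.wordProd m) * N.t (cs.simple p * y')
          = N.t (x' * cs.wordProd m) * N.t y'
            + xi • (N.t (x' * cs.wordProd (p :: m)) * N.t y') := by
        have e4 : x' * cs.wordProd (p :: m) = x' * cs.simple p * cs.wordProd m := by
          rw [cs.wordProd_cons, mul_assoc]
        rw [e4, e1, e2, mul_assoc, ← mul_assoc (N.t (cs.simple p)) (N.t (cs.simple p)), N.t_sq,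
          add_mul, mul_add, one_mul, smul_mul_assoc, mul_smul_comm, add_comm, mul_assoc]
      rw [e3, NHecke.co_add, NHecke.co_smul]
      refine i1.add ((Pos.mul pos_xi i2).mono ?_)
      rw [List.length_cons]
      push_cast
      omega

namespace KLData

variable (K : KLData cs)

theorem bar_mul (x y : W) : K.toN.bar (K.C x * K.C y) = K.C x * K.C y := by
  rw [map_mul, K.isKL.bar, K.isKL.bar]

theorem h_symm (x y z : W) (k : ℤ) : (K.h x y z).coeff (-k) = (K.h x y z).coeff k :=
  K.isKL.coeff_symm (K.bar_mul x y) z k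

theorem C_expand (x : W) :
    K.C x = ∑ u ∈ (K.toN.t.repr (K.C x)).support, K.toN.co (K.C x) u • K.toN.t u := by
  conv_lhs => rw [← K.toN.t.linearCombination_repr (K.C x), Finsupp.linearCombination_apply,
    Finsupp.sum]
  rfl

theorem aBound_of {g : W → ℤ} (hg : ∀ z w, cs.length z < cs.length w → g z ≤ g w + 1)
    (h : ∀ x y w, Pos (g w) (K.toN.co (K.toN.t x * K.toN.t y) w)) (z : W) :
    K.ABound z (-(g z)) := by
  intro x y k hk
  rw [← K.h_symm]
  refine K.isKL.tri hg (X := K.C x * K.C y) ?_ z (-k) (by omega)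
  intro w
  rw [K.C_expand x, Finset.sum_mul, NHecke.co_sum]
  refine Pos.sum fun u _ => ?_
  rw [smul_mul_assoc, NHecke.co_smul]
  refine ((Pos.mul (K.isKL.pos0 x u) ?_).mono (n := g w) (m := 0 + g w) (by omega))
  rw [K.C_expand y, Finset.mul_sum, NHecke.co_sum]
  refine Pos.sum fun u' _ => ?_
  rw [mul_smul_comm, NHecke.co_smul]
  exact ((Pos.mul (K.isKL.pos0 y u') (h u u' w)).mono (by omega))

theorem aBound_rightAngled [DecidableEq B] (hM : RightAngled M) {b : ℕ}
    (hb : ∀ m : List B, CommList M m → m.length ≤ b) (z : W) : K.ABound z b := by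
  have := K.aBound_of (g := fun _ => -(b : ℤ)) (fun _ _ _ => by omega) ?_ z
  · simpa using this
  · intro x y w
    have h1 := pos_t_mul_t K.toN hM hb (cs.length x) x y [] rfl ⟨List.nodup_nil, by simp⟩
      (by simp) (by simp) w
    rw [cs.wordProd_nil, mul_one] at h1
    refine h1.mono ?_
    simp

/-- If `ℓ(z) < b` then `a(z) ≤ b - 1`. -/
theorem aBound_rightAngled' [DecidableEq B] (hM : RightAngled M) {b : ℕ}
    (hb : ∀ m : List B, CommList M m → m.length ≤ b) {z : W} (hz : cs.length z < b) :
    K.ABound z (b - 1) := by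
  have := K.aBound_of (g := fun w => if cs.length w < b then -(b : ℤ) + 1 else -(b : ℤ)) ?_ ?_ z
  · rw [if_pos hz] at this
    simpa [sub_eq_add_neg, add_comm] using this
  · intro z w hzw
    split_ifs <;> omega
  · intro x y w
    have h1 := pos_t_mul_t K.toN hM hb (cs.length x) x y [] rfl ⟨List.nodup_nil, by simp⟩
      (by simp) (by simp) w
    rw [cs.wordProd_nil, mul_one] at h1
    refine h1.mono ?_
    rw [List.length_nil]
    split_ifs with h
    · push_cast
      omega
    · push_cast
      omega

theorem a_eq {z : W} {n : ℤ} (h1 : K.ABound z n) (h2 : ¬ K.ABound z (n - 1)) : K.a z = n := by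
  have hl : IsLeast {n : ℤ | K.ABound z n} n := by
    refine ⟨h1, fun m hm => ?_⟩
    by_contra hmn
    apply h2
    intro x y k hk
    exact hm x y k (by omega)
  have hex : ∃ n : ℤ, IsLeast {n : ℤ | K.ABound z n} n := ⟨n, hl⟩
  rw [a, dif_pos hex]
  congr 1
  exact (Classical.choose_spec hex).unique hl

/-- `C_s` and `C_w C_s`. -/
theorem C_mul_Cs {w : W} {i : B} (h : cs.IsRightDescent w i) :
    K.C w * (K.toN.t (cs.simple i) - vpow 1 • (1 : K.H))
      = (-(vpow 1 + vpow (-1))) • K.C w := by
  rw [mul_sub, K.isKL.C_mul_t h, mul_smul_comm, mul_one, neg_smul, add_smul]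
  abel

theorem bar_Cs (i : B) : K.toN.bar (K.toN.t (cs.simple i) - vpow 1 • (1 : K.H))
    = K.toN.t (cs.simple i) - vpow 1 • (1 : K.H) := by
  rw [map_sub, K.toN.bar_t, K.toN.bar_smul, map_one, LaurentPolynomial.invert_T, xi, sub_smul]
  abel

theorem pos_co_t (u w : W) : Pos 0 (K.toN.co (K.toN.t u) w) := by
  rw [NHecke.co_t]
  split_ifs
  · exact pos_one
  · exact pos_zero _

theorem C_two {i j : B} (h : cs.length (cs.simple i * cs.simple j) = 2) :
    K.C (cs.simple i * cs.simple j) = (K.toN.t (cs.simple i) - vpow 1 • (1 : K.H))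
      * (K.toN.t (cs.simple j) - vpow 1 • (1 : K.H)) := by
  classical
  symm
  rw [← sub_eq_zero]
  apply K.isKL.eq_zero
  · rw [map_sub, map_mul, K.bar_Cs, K.bar_Cs, K.isKL.bar]
  · intro w
    have e1 : K.toN.t (cs.simple i) * K.toN.t (cs.simple j)
        = K.toN.t (cs.simple i * cs.simple j) :=
      K.toN.t_mul_reduced (by rw [h, cs.length_simple, cs.length_simple])
    have e2 : (K.toN.t (cs.simple i) - vpow 1 • (1 : K.H))
      * (K.toN.t (cs.simple j) - vpow 1 • (1 : K.H)) =
        K.toN.t (cs.simple i * cs.simple j) - vpow 1 • K.toN.t (cs.simple i)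
          - vpow 1 • K.toN.t (cs.simple j) + vpow 2 • K.toN.t 1 := by
      rw [K.toN.t_one, sub_mul, mul_sub, mul_sub, e1, mul_smul_comm, mul_one, smul_mul_assoc,
        one_mul, smul_mul_smul_comm, T_mul_T, mul_one, one_add_one_eq_two]
      abel
    rw [e2]
    simp only [NHecke.co_sub, NHecke.co_add, NHecke.co_smul]
    have hp1 : ∀ u, Pos 1 (vpow 1 * K.toN.co (K.toN.t u) w) := fun u =>
      (Pos.mul (pos_T 1) (K.pos_co_t u w)).mono (by norm_num)
    have hp2 : ∀ u, Pos 1 (vpow 2 * K.toN.co (K.toN.t u) w) := fun u =>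
      (Pos.mul (pos_T 2) (K.pos_co_t u w)).mono (by norm_num)
    have hp3 : Pos 1 (K.toN.co (K.toN.t (cs.simple i * cs.simple j)) w
        - K.toN.co (K.C (cs.simple i * cs.simple j)) w) := by
      by_cases hw : w = cs.simple i * cs.simple j
      · subst hw
        rw [K.isKL.self, NHecke.co_t, if_pos rfl, sub_self]
        exact pos_zero _
      · rw [NHecke.co_t, if_neg (Ne.symm hw), zero_sub]
        exact (K.isKL.pos _ _ hw).neg
    have := (((hp3.sub (hp1 (cs.simple i))).sub (hp1 (cs.simple j))).add (hp2 1))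
    convert this using 1
    ring

theorem C_three {i j k : B} (h : cs.length (cs.simple i * cs.simple j * cs.simple k) = 3)
    (hik : cs.length (cs.simple i * cs.simple k) = 2) :
    K.C (cs.simple i * cs.simple j * cs.simple k)
      = (K.toN.t (cs.simple i) - vpow 1 • (1 : K.H))
      * (K.toN.t (cs.simple j) - vpow 1 • (1 : K.H))
      * (K.toN.t (cs.simple k) - vpow 1 • (1 : K.H)) := by
  classical
  symm
  rw [← sub_eq_zero]
  have hij : cs.length (cs.simple i * cs.simple j) = 2 := by
    have h1 := cs.length_mul_le (cs.simple i * cs.simple j) (cs.simple k)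
    have h2 := cs.length_mul_le (cs.simple i) (cs.simple j)
    rw [cs.length_simple] at h1 h2
    rw [cs.length_simple] at h2
    omega
  have hjk : cs.length (cs.simple j * cs.simple k) = 2 := by
    have h1 := cs.length_mul_le (cs.simple i) (cs.simple j * cs.simple k)
    have h2 := cs.length_mul_le (cs.simple j) (cs.simple k)
    rw [cs.length_simple, ← mul_assoc] at h1
    rw [cs.length_simple, cs.length_simple] at h2
    omega
  apply K.isKL.eq_zero
  · rw [map_sub, map_mul, map_mul, K.bar_Cs, K.bar_Cs, K.bar_Cs, K.isKL.bar]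
  · intro w
    have red : ∀ a b, cs.length (cs.simple a * cs.simple b) = 2 →
        K.toN.t (cs.simple a) * K.toN.t (cs.simple b) = K.toN.t (cs.simple a * cs.simple b) :=
      fun a b hab => K.toN.t_mul_reduced (by rw [hab, cs.length_simple, cs.length_simple])
    have e1 := red i j hij
    have e2 := red i k hik
    have e3 := red j k hjk
    have e4 : K.toN.t (cs.simple i * cs.simple j) * K.toN.t (cs.simple k)
        = K.toN.t (cs.simple i * cs.simple j * cs.simple k) :=
      K.toN.t_mul_reduced (by rw [h, hij, cs.length_simple])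
    have e5 : (K.toN.t (cs.simple i) - vpow 1 • (1 : K.H))
      * (K.toN.t (cs.simple j) - vpow 1 • (1 : K.H))
      * (K.toN.t (cs.simple k) - vpow 1 • (1 : K.H)) =
        K.toN.t (cs.simple i * cs.simple j * cs.simple k)
          - vpow 1 • K.toN.t (cs.simple i * cs.simple j)
          - vpow 1 • K.toN.t (cs.simple i * cs.simple k)
          - vpow 1 • K.toN.t (cs.simple j * cs.simple k)
          + vpow 2 • K.toN.t (cs.simple i)
          + vpow 2 • K.toN.t (cs.simple j)
          + vpow 2 • K.toN.t (cs.simple k)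
          - vpow 3 • K.toN.t 1 := by
      rw [K.toN.t_one, ← e4, ← e1, ← e2, ← e3]
      simp only [sub_mul, mul_sub, mul_smul_comm, smul_mul_assoc, mul_one, one_mul, smul_sub,
        smul_smul, T_mul_T, one_add_one_eq_two, mul_assoc]
      norm_num
      abel
    rw [e5]
    simp only [NHecke.co_sub, NHecke.co_add, NHecke.co_smul]
    have hp1 : ∀ u, Pos 1 (vpow 1 * K.toN.co (K.toN.t u) w) := fun u =>
      (Pos.mul (pos_T 1) (K.pos_co_t u w)).mono (by norm_num)
    have hp2 : ∀ u, Pos 1 (vpow 2 * K.toN.co (K.toN.t u) w) := fun u =>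
      (Pos.mul (pos_T 2) (K.pos_co_t u w)).mono (by norm_num)
    have hp3 : ∀ u, Pos 1 (vpow 3 * K.toN.co (K.toN.t u) w) := fun u =>
      (Pos.mul (pos_T 3) (K.pos_co_t u w)).mono (by norm_num)
    have hp4 : Pos 1 (K.toN.co (K.toN.t (cs.simple i * cs.simple j * cs.simple k)) w
        - K.toN.co (K.C (cs.simple i * cs.simple j * cs.simple k)) w) := by
      by_cases hw : w = cs.simple i * cs.simple j * cs.simple k
      · subst hw
        rw [K.isKL.self, NHecke.co_t, if_pos rfl, sub_self]
        exact pos_zero _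
      · rw [NHecke.co_t, if_neg (Ne.symm hw), zero_sub]
        exact (K.isKL.pos _ _ hw).neg
    have := (((((((hp4.sub (hp1 (cs.simple i * cs.simple j))).sub
      (hp1 (cs.simple i * cs.simple k))).sub
      (hp1 (cs.simple j * cs.simple k))).add (hp2 (cs.simple i))).add
      (hp2 (cs.simple j))).add (hp2 (cs.simple k))).sub (hp3 1))
    convert this using 1
    ring

theorem coeff_sq : ((-(vpow 1 + vpow (-1))) * (-(vpow 1 + vpow (-1)))).coeff 2 = 1 := by
  have : (-(vpow 1 + vpow (-1))) * (-(vpow 1 + vpow (-1)))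
      = vpow 2 + (vpow 0 + vpow 0) + vpow (-2) := by
    have e1 : vpow 2 = vpow 1 * vpow 1 := by rw [T_mul_T]; norm_num
    have e2 : vpow 0 = vpow 1 * vpow (-1) := by rw [T_mul_T]; norm_num
    have e3 : vpow (-2) = vpow (-1) * vpow (-1) := by rw [T_mul_T]; norm_num
    rw [e1, e2, e3]
    ring
  rw [this]
  simp only [coeff_add', coeff_T']
  norm_num

theorem coeff_cube : ((-(vpow 1 + vpow (-1))) * ((-(vpow 1 + vpow (-1))) *
    (-(vpow 1 + vpow (-1))))).coeff 3 = -1 := by
  have : (-(vpow 1 + vpow (-1))) * ((-(vpow 1 + vpow (-1))) * (-(vpow 1 + vpow (-1))))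
      = -(vpow 3 + (vpow 1 + vpow 1 + vpow 1) + (vpow (-1) + vpow (-1) + vpow (-1))
        + vpow (-3)) := by
    have e1 : vpow 3 = vpow 1 * vpow 1 * vpow 1 := by rw [T_mul_T, T_mul_T]; norm_num
    have e2 : vpow (-3) = vpow (-1) * vpow (-1) * vpow (-1) := by
      rw [T_mul_T, T_mul_T]; norm_num
    have e3 : vpow 1 * vpow (-1) = (1 : A) := by rw [T_mul_T]; simp
    rw [e1, e2]
    linear_combination (-3 * vpow 1 - 3 * vpow (-1)) * e3
  rw [this]
  simp only [coeff_add', coeff_neg', coeff_T']
  norm_num

theorem not_aBound_two {z : W} {i j k : B}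
    (hi : cs.IsRightDescent z i) (hj : cs.IsRightDescent z j) (hk : cs.IsRightDescent z k)
    (h : cs.length (cs.simple i * cs.simple j * cs.simple k) = 3)
    (hik : cs.length (cs.simple i * cs.simple k) = 2) : ¬ K.ABound z 2 := by
  intro hb
  have h1 := hb z (cs.simple i * cs.simple j * cs.simple k) 3 (by norm_num)
  have h2 : K.C z * K.C (cs.simple i * cs.simple j * cs.simple k)
      = ((-(vpow 1 + vpow (-1))) * ((-(vpow 1 + vpow (-1))) * (-(vpow 1 + vpow (-1))))) • K.C z := by
    rw [K.C_three h hik, ← mul_assoc, ← mul_assoc, K.C_mul_Cs hi, smul_mul_assoc,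
      K.C_mul_Cs hj, smul_mul_assoc, smul_mul_assoc, K.C_mul_Cs hk, smul_smul, smul_smul,
      mul_assoc]
  have h3 : K.h z (cs.simple i * cs.simple j * cs.simple k) z
      = (-(vpow 1 + vpow (-1))) * ((-(vpow 1 + vpow (-1))) * (-(vpow 1 + vpow (-1)))) := by
    rw [KLData.h, h2, map_smul, Module.Basis.repr_self]
    simp
  rw [h3, coeff_cube] at h1
  exact absurd h1 (by norm_num)

theorem not_aBound_one {z : W} {i j : B}
    (hi : cs.IsRightDescent z i) (hj : cs.IsRightDescent z j)
    (h : cs.length (cs.simple i * cs.simple j) = 2) : ¬ K.ABound z 1 := by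
  intro hb
  have h1 := hb z (cs.simple i * cs.simple j) 2 (by norm_num)
  have h2 : K.C z * K.C (cs.simple i * cs.simple j)
      = ((-(vpow 1 + vpow (-1))) * (-(vpow 1 + vpow (-1)))) • K.C z := by
    rw [K.C_two h, ← mul_assoc, K.C_mul_Cs hi, smul_mul_assoc,
      K.C_mul_Cs hj, smul_smul]
  have h3 : K.h z (cs.simple i * cs.simple j) z
      = (-(vpow 1 + vpow (-1))) * (-(vpow 1 + vpow (-1))) := by
    rw [KLData.h, h2, map_smul, Module.Basis.repr_self]
    simp
  rw [h3, coeff_sq] at h1
  exact absurd h1 (by norm_num)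

end KLData

end Pool.Agent.Helper32.KL
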