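import Mathlib

set_option autoImplicit false

/-!
Definitions: Bruhat order, Hecke algebra with its Kazhdan-Lusztig basis, the functions `μ`, `a`, `δ`,
distinguished involutions and finite factorizations, for an arbitrary Coxeter system `(W, S)`.
The set `S` of simple reflections is indexed by `B`; `cs.simple i` is the simple reflection with
index `i : B` and `cs.length` is the length function.
-/

namespace Pool.Agent.Helper32.KL

open CoxeterSystem

/-- The ring `ℤ[v, v⁻¹]` of Laurent polynomials; here `v = q^(1/2)`. -/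
abbrev A : Type := LaurentPolynomial ℤ

/-- The power `v ^ n` of `v = q^(1/2)`. -/
noncomputable abbrev vpow (n : ℤ) : A := LaurentPolynomial.T n

variable {B W : Type} [Group W] {M : CoxeterMatrix B}

/-- The Coxeter matrix is irreducible: the set of simple reflections is not the union of two
nonempty parts that commute elementwise (`M i j = 0` encodes `m(i, j) = ∞`). -/
def Irreducible (M : CoxeterMatrix B) : Prop :=
  ∀ J : Set B, J.Nonempty → Jᶜ.Nonempty → ∃ i ∈ J, ∃ j ∈ Jᶜ, M i j ≠ 2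

/-- The Bruhat order: `y ≤ w` iff there is a chain `y = x₀, x₁, …, x_k = w` with
`x_{i+1} = t_i x_i`, `t_i` a reflection and `ℓ(x_i) < ℓ(x_{i+1})`. -/
def BruhatLE (cs : CoxeterSystem M W) (y w : W) : Prop :=
  Relation.ReflTransGen
    (fun x x' => ∃ t : W, cs.IsReflection t ∧ x' = t * x ∧ cs.length x < cs.length x') y w

/-- The standard parabolic subgroup `W_I`. -/
def parabolic (cs : CoxeterSystem M W) (I : Set B) : Subgroup W :=
  Subgroup.closure (cs.simple '' I)

/-- The Hecke algebra of `(W, S)` over `ℤ[q^(1/2), q^(-1/2)]` with its standard basis `T`,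
its bar involution, the Kazhdan-Lusztig polynomials `P y w` and the Kazhdan-Lusztig basis `C`.
These data are determined uniquely (up to isomorphism of `H`) by `(W, S)`. -/
structure KLData (cs : CoxeterSystem M W) where
  /-- the Hecke algebra -/
  H : Type
  [ring : Ring H]
  [algebra : Algebra A H]
  /-- the standard basis `T_w` -/
  T : Module.Basis W A H
  T_one : T 1 = 1
  T_mul : ∀ (i : B) (w : W), cs.length w < cs.length (cs.simple i * w) →
    T (cs.simple i) * T w = T (cs.simple i * w)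
  /-- `T_s² = (q - 1) T_s + q` -/
  T_sq : ∀ i : B, T (cs.simple i) * T (cs.simple i)
    = (vpow 2 - 1) • T (cs.simple i) + vpow 2 • (1 : H)
  /-- the bar involution, `v ↦ v⁻¹` and `T_s ↦ T_s⁻¹` -/
  bar : H →+* H
  bar_smul : ∀ (a : A) (h : H), bar (a • h) = LaurentPolynomial.invert a • bar h
  bar_T : ∀ i : B, bar (T (cs.simple i)) * T (cs.simple i) = 1
  /-- the Kazhdan-Lusztig polynomials `P_{y,w}` in the variable `q` -/
  P : W → W → Polynomial ℤ
  P_self : ∀ w : W, P w w = 1
  P_eq_zero : ∀ y w : W, ¬ BruhatLE cs y w → P y w = 0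
  /-- `deg P_{y,w} ≤ (ℓ(w) - ℓ(y) - 1) / 2` for `y < w` -/
  P_degree : ∀ y w : W, BruhatLE cs y w → y ≠ w →
    2 * (P y w).natDegree + 1 + cs.length y ≤ cs.length w
  /-- the Kazhdan-Lusztig basis `C_w` -/
  C : Module.Basis W A H
  /-- the coefficient of `T_y` in `C_w` is
  `(-1)^(ℓ(w) - ℓ(y)) q^(ℓ(w)/2 - ℓ(y)) P_{y,w}(q⁻¹)` -/
  C_coeff : ∀ y w : W, T.repr (C w) y
    = (-1) ^ (cs.length w + cs.length y) * vpow ((cs.length w : ℤ) - 2 * (cs.length y : ℤ))
      * Polynomial.aeval (vpow (-2)) (P y w)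
  bar_C : ∀ w : W, bar (C w) = C w

attribute [instance] KLData.ring KLData.algebra

namespace KLData

variable {cs : CoxeterSystem M W} (K : KLData cs)

/-- The structure constant `h_{x,y,z}`: `C_x C_y = ∑_z h_{x,y,z} C_z`. -/
noncomputable def h (x y z : W) : A := K.C.repr (K.C x * K.C y) z

/-- `q^(-n/2) h_{x,y,z}` lies in `ℤ[q^(-1/2)]` for all `x, y`: no power `v ^ k` with `k > n`
occurs in any `h_{x,y,z}`. -/
def ABound (z : W) (n : ℤ) : Prop :=
  ∀ x y : W, ∀ k : ℤ, n < k → (K.h x y z).coeff k = 0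

open Classical in
/-- Lusztig's function `a(z)`: the least integer `n` with `K.ABound z n`, and `∞` if there is no
such integer. -/
noncomputable def a (z : W) : WithTop ℤ :=
  if hz : ∃ n : ℤ, IsLeast {n : ℤ | K.ABound z n} n then ((Classical.choose hz : ℤ) : WithTop ℤ)
  else ⊤

/-- `δ(z) = deg P_{e,z}`. -/
noncomputable def degP (z : W) : ℕ := (K.P 1 z).natDegree

/-- `z ∈ 𝓓`, i.e. `ℓ(z) - a(z) - 2 δ(z) = 0`. -/
def IsDistinguished (z : W) : Prop :=
  K.a z = (((cs.length z : ℤ) - 2 * (K.degP z : ℤ) : ℤ) : WithTop ℤ)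

/-- `z ∈ 𝓓_f`: `z ∈ 𝓓` and `z` lies in some finite standard parabolic subgroup. -/
def InDf (z : W) : Prop :=
  K.IsDistinguished z ∧ ∃ I : Set B, (parabolic cs I : Set W).Finite ∧ z ∈ parabolic cs I

open Classical in
/-- The coefficient of `q^((ℓ(w) - ℓ(y) - 1)/2)` in `P_{y,w}` (for `y < w`; it is `0` if that
exponent is not an integer). -/
noncomputable def muLT (y w : W) : ℤ :=
  if Odd (cs.length w - cs.length y) then
    (K.P y w).coeff ((cs.length w - cs.length y - 1) / 2)
  else 0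

open Classical in
/-- The symmetric function `μ(y, w)`; it is `0` for equal or incomparable pairs. -/
noncomputable def mu (y w : W) : ℤ :=
  if BruhatLE cs y w ∧ y ≠ w then K.muLT y w
  else if BruhatLE cs w y ∧ w ≠ y then K.muLT w y
  else 0

end KLData

/-- `(x, v, y)` is a finite factorization of `w`: `w = x.v.y` and `v` lies in a finite standard
parabolic subgroup. -/
def IsFiniteFactorization (cs : CoxeterSystem M W) (w x v y : W) : Prop :=
  w = x * v * y ∧ cs.length w = cs.length x + cs.length v + cs.length y ∧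
    ∃ I : Set B, (parabolic cs I : Set W).Finite ∧ v ∈ parabolic cs I

/-- `(x, v, y)` is a maximal finite factorization of `w`: there is no finite factorization
`(x', v', y')` of `w` with `x = x'.u`, `y = u'.y'`, `v' = u.v.u'` and `ℓ(u) + ℓ(u') > 0`. -/
def IsMaximalFactorization (cs : CoxeterSystem M W) (w x v y : W) : Prop :=
  IsFiniteFactorization cs w x v y ∧
    ¬ ∃ x' v' y' u u' : W, IsFiniteFactorization cs w x' v' y' ∧
      x = x' * u ∧ cs.length x = cs.length x' + cs.length u ∧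
      y = u' * y' ∧ cs.length y = cs.length u' + cs.length y' ∧
      v' = u * v * u' ∧ cs.length v' = cs.length u + cs.length v + cs.length u' ∧
      0 < cs.length u + cs.length u'

/-- The hypotheses of the question, for `w = y.v₀` and `w'' = w.v₁`: `(y, v₀, e)` is maximal in
`w`, `v₁ ∈ 𝓓_f`, `(w, v₁, e)` is not maximal in `w''`, and `a(w'') = a(v₀)`. -/
def ShiftHypotheses {cs : CoxeterSystem M W} (K : KLData cs) (y v₀ v₁ : W) : Prop :=
  cs.length (y * v₀) = cs.length y + cs.length v₀ ∧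
  IsMaximalFactorization cs (y * v₀) y v₀ 1 ∧
  cs.length (y * v₀ * v₁) = cs.length (y * v₀) + cs.length v₁ ∧
  K.InDf v₁ ∧
  ¬ IsMaximalFactorization cs (y * v₀ * v₁) (y * v₀) v₁ 1 ∧
  K.a (y * v₀ * v₁) = K.a v₀

/-- The conclusion of the question, for `w = y.v₀` and `w'' = w.v₁`: there is a factorization
`v₀ = v₀₁.v₀₂.v₀₃` such that `(y.v₀₁.v₀₂, v₀₃.v₁, e)` is a maximal finite factorization of `w''`,
the right descent sets of `w'' v₀₂⁻¹` and `w` differ, and `μ(w, w'' v₀₂⁻¹) ≠ 0`. -/
def ShiftConclusion {cs : CoxeterSystem M W} (K : KLData cs) (y v₀ v₁ : W) : Prop :=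
  ∃ v₀₁ v₀₂ v₀₃ : W, v₀ = v₀₁ * v₀₂ * v₀₃ ∧
    cs.length v₀ = cs.length v₀₁ + cs.length v₀₂ + cs.length v₀₃ ∧
    IsMaximalFactorization cs (y * v₀ * v₁) (y * v₀₁ * v₀₂) (v₀₃ * v₁) 1 ∧
    {i : B | cs.IsRightDescent (y * v₀ * v₁ * v₀₂⁻¹) i} ≠ {i : B | cs.IsRightDescent (y * v₀) i} ∧
    K.mu (y * v₀) (y * v₀ * v₁ * v₀₂⁻¹) ≠ 0

end Pool.Agent.Helper32.KL
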