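import Pool.Agent.Helper32.KLHecke

set_option autoImplicit false

/-! Existence of the (normalized) Hecke algebra with its bar involution. -/

namespace Pool.Agent.Helper32.KL

open CoxeterSystem

variable {B W : Type} [Group W] {M : CoxeterMatrix B}

section comm

variable {cs : CoxeterSystem M W}

theorem rdesc_smul_iff {w : W} {i j : B} (h : cs.simple i * w ≠ w * cs.simple j) :
    cs.IsRightDescent (cs.simple i * w) j ↔ cs.IsRightDescent w j := by
  by_cases hL : cs.IsLeftDescent w i
  · have hl : cs.length (cs.simple i * w) + 1 = cs.length w := cs.isLeftDescent_iff.mp hL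
    constructor
    · intro h1
      have h2 : cs.length (cs.simple i * w * cs.simple j) + 1 = cs.length (cs.simple i * w) :=
        cs.isRightDescent_iff.mp h1
      have h3 := cs.length_simple_mul (cs.simple i * w * cs.simple j) i
      rw [mul_assoc (cs.simple i), cs.simple_mul_simple_cancel_left, ← mul_assoc] at h3
      rw [CoxeterSystem.IsRightDescent]
      omega
    · intro hR
      by_contra h1
      have h2 : ¬ cs.IsLeftDescent (cs.simple i * w) i := by
        rw [ldesc_smul]
        exact not_not.mpr hL
      have h3 := exchange_comm cs h2 h1 (by rwa [cs.simple_mul_simple_cancel_left])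
      rw [cs.simple_mul_simple_cancel_left] at h3
      apply h
      conv_rhs => rw [h3]
      rw [cs.simple_mul_simple_cancel_right]
  · have hl : cs.length (cs.simple i * w) = cs.length w + 1 := cs.not_isLeftDescent_iff.mp hL
    constructor
    · intro h1
      by_contra hR
      exact h (exchange_comm cs hL hR h1)
    · intro hR
      have h2 : cs.length (w * cs.simple j) + 1 = cs.length w := cs.isRightDescent_iff.mp hR
      have h3 := cs.length_simple_mul (w * cs.simple j) i
      rw [← mul_assoc] at h3
      rw [CoxeterSystem.IsRightDescent]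
      omega

theorem ldesc_muls_iff {w : W} {i j : B} (h : cs.simple i * w ≠ w * cs.simple j) :
    cs.IsLeftDescent (w * cs.simple j) i ↔ cs.IsLeftDescent w i := by
  rw [← cs.isRightDescent_inv_iff, ← cs.isRightDescent_inv_iff, mul_inv_rev, cs.inv_simple]
  apply rdesc_smul_iff
  intro h1
  apply h
  have := congrArg (fun x => x⁻¹) h1
  simpa [mul_inv_rev] using this.symm

end comm

variable (cs : CoxeterSystem M W)

open Classical in
/-- left multiplication operator -/
noncomputable def Lop (i : B) : (W →₀ A) →ₗ[A] (W →₀ A) :=
  Finsupp.linearCombination A fun w =>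
    Finsupp.single (cs.simple i * w) (1 : A)
      + (if cs.IsLeftDescent w i then xi else 0) • Finsupp.single w (1 : A)

open Classical in
/-- right multiplication operator -/
noncomputable def Rop (j : B) : (W →₀ A) →ₗ[A] (W →₀ A) :=
  Finsupp.linearCombination A fun w =>
    Finsupp.single (w * cs.simple j) (1 : A)
      + (if cs.IsRightDescent w j then xi else 0) • Finsupp.single w (1 : A)

open Classical in
theorem Lop_single (i : B) (w : W) : Lop cs i (Finsupp.single w 1) =
    Finsupp.single (cs.simple i * w) (1 : A)
      + (if cs.IsLeftDescent w i then xi else 0) • Finsupp.single w (1 : A) := by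
  rw [Lop, Finsupp.linearCombination_single, one_smul]

open Classical in
theorem Rop_single (j : B) (w : W) : Rop cs j (Finsupp.single w 1) =
    Finsupp.single (w * cs.simple j) (1 : A)
      + (if cs.IsRightDescent w j then xi else 0) • Finsupp.single w (1 : A) := by
  rw [Rop, Finsupp.linearCombination_single, one_smul]

theorem Lop_Rop (i j : B) (v : W →₀ A) : Lop cs i (Rop cs j v) = Rop cs j (Lop cs i v) := by
  classical
  have key : Lop cs i ∘ₗ Rop cs j = Rop cs j ∘ₗ Lop cs i := by
    refine Finsupp.lhom_ext' fun w => LinearMap.ext_ring ?_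
    simp only [LinearMap.comp_apply, Finsupp.lsingle_apply]
    rw [Rop_single, Lop_single, map_add, map_add, map_smul, map_smul, Lop_single, Rop_single,
      Lop_single, Rop_single, mul_assoc]
    by_cases h : cs.simple i * w = w * cs.simple j
    · have e1 : cs.IsLeftDescent (w * cs.simple j) i ↔ ¬ cs.IsLeftDescent w i := by
        rw [← h, ldesc_smul]
      have e2 : cs.IsRightDescent (cs.simple i * w) j ↔ ¬ cs.IsRightDescent w j := by
        rw [h, rdesc_muls]
      have e3 : cs.IsLeftDescent w i ↔ cs.IsRightDescent w j := by
        rw [CoxeterSystem.IsLeftDescent, CoxeterSystem.IsRightDescent, h]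
      rw [if_congr e1 rfl rfl, if_congr e2 rfl rfl, if_congr e3 rfl rfl]
      have e4 : (¬ cs.IsLeftDescent w i) ↔ ¬ cs.IsRightDescent w j := not_congr e3
      rw [if_congr e4 rfl rfl, h]
    · have e1 := ldesc_muls_iff (cs := cs) h
      have e2 := rdesc_smul_iff (cs := cs) h
      rw [if_congr e1 rfl rfl, if_congr e2 rfl rfl]
      simp only [smul_add, smul_smul]
      rw [mul_comm (if cs.IsLeftDescent w i then xi else 0)]
      abel
  exact congrArg (fun f => f v) key

/-- The Hecke algebra. -/
noncomputable abbrev HeckeAlg : Subalgebra A (Module.End A (W →₀ A)) :=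
  Subalgebra.centralizer A (Set.range (Rop cs))

noncomputable instance instRingHecke : Ring (HeckeAlg cs) := Algebra.semiringToRing A

theorem HeckeAlg.comm (f : HeckeAlg cs) (j : B) (v : W →₀ A) :
    f.1 (Rop cs j v) = Rop cs j (f.1 v) := by
  have h := Subalgebra.mem_centralizer_iff A |>.mp f.2 (Rop cs j) ⟨j, rfl⟩
  exact (congrArg (fun g => g v) h).symm

/-- evaluation at the unit vector -/
noncomputable def ev : HeckeAlg cs →ₗ[A] (W →₀ A) :=
  (LinearMap.applyₗ (Finsupp.single 1 1)) ∘ₗ (HeckeAlg cs).val.toLinearMap

theorem ev_apply (f : HeckeAlg cs) : ev cs f = f.1 (Finsupp.single 1 1) := rfl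

/-- `t_i` in the Hecke algebra. -/
noncomputable def hT (i : B) : HeckeAlg cs :=
  ⟨Lop cs i, by
    rw [Subalgebra.mem_centralizer_iff]
    rintro _ ⟨j, rfl⟩
    exact LinearMap.ext fun v => (Lop_Rop cs i j v).symm⟩

theorem ev_injective : Function.Injective (ev cs) := by
  rw [injective_iff_map_eq_zero]
  intro f hf
  rw [ev_apply] at hf
  have key : ∀ n : ℕ, ∀ w : W, cs.length w = n → f.1 (Finsupp.single w 1) = 0 := by
    intro n
    induction n with
    | zero =>
      intro w hw
      rw [cs.length_eq_zero_iff] at hw
      subst hw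
      exact hf
    | succ n ih =>
      intro w hw
      have hw1 : w ≠ 1 := by
        rintro rfl
        rw [cs.length_one] at hw
        omega
      obtain ⟨j, hj⟩ := cs.exists_rightDescent_of_ne_one hw1
      have hl : cs.length (w * cs.simple j) + 1 = cs.length w := cs.isRightDescent_iff.mp hj
      have h1 := ih (w * cs.simple j) (by omega)
      have h2 : ¬ cs.IsRightDescent (w * cs.simple j) j := by
        rw [rdesc_muls]
        exact not_not.mpr hj
      have h3 := Rop_single cs j (w * cs.simple j)
      rw [if_neg h2, zero_smul, add_zero, cs.simple_mul_simple_cancel_right] at h3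
      rw [← h3, HeckeAlg.comm, h1, map_zero]
  ext1
  refine Finsupp.lhom_ext' fun w => LinearMap.ext_ring ?_
  exact key _ w rfl

theorem exists_ev (w : W) : ∃ f, ev cs f = Finsupp.single w 1 := by
  have key : ∀ n : ℕ, ∀ w : W, cs.length w = n → ∃ f, ev cs f = Finsupp.single w 1 := by
    intro n
    induction n with
    | zero =>
      intro w hw
      rw [cs.length_eq_zero_iff] at hw
      subst hw
      exact ⟨1, rfl⟩
    | succ n ih =>
      intro w hw
      have hw1 : w ≠ 1 := by
        rintro rfl
        rw [cs.length_one] at hw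
        omega
      obtain ⟨j, hj⟩ := cs.exists_leftDescent_of_ne_one hw1
      have hl : cs.length (cs.simple j * w) + 1 = cs.length w := cs.isLeftDescent_iff.mp hj
      obtain ⟨f, hf⟩ := ih (cs.simple j * w) (by omega)
      have h2 : ¬ cs.IsLeftDescent (cs.simple j * w) j := by
        rw [ldesc_smul]
        exact not_not.mpr hj
      have h3 := Lop_single cs j (cs.simple j * w)
      rw [if_neg h2, zero_smul, add_zero, cs.simple_mul_simple_cancel_left] at h3
      refine ⟨hT cs j * f, ?_⟩
      rw [← h3, ← hf]
      rfl
  exact key _ w rfl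

theorem ev_surjective : Function.Surjective (ev cs) := by
  intro v
  induction v using Finsupp.induction_linear with
  | zero => exact ⟨0, map_zero _⟩
  | add f g hf hg =>
    obtain ⟨a, rfl⟩ := hf
    obtain ⟨b, rfl⟩ := hg
    exact ⟨a + b, map_add _ _ _⟩
  | single w a =>
    obtain ⟨f, hf⟩ := exists_ev cs w
    refine ⟨a • f, ?_⟩
    rw [map_smul, hf]
    simp

/-- evaluation as an equivalence -/
noncomputable def evEquiv : HeckeAlg cs ≃ₗ[A] (W →₀ A) :=
  LinearEquiv.ofBijective (ev cs) ⟨ev_injective cs, ev_surjective cs⟩

/-- The normalized standard basis. -/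
noncomputable def hBasis : Module.Basis W A (HeckeAlg cs) := Module.Basis.ofRepr (evEquiv cs)

theorem hBasis_eq (w : W) : (hBasis cs w).1 (Finsupp.single 1 1) = Finsupp.single w 1 := by
  have : hBasis cs w = (evEquiv cs).symm (Finsupp.single w 1) := rfl
  rw [← ev_apply, this]
  exact (evEquiv cs).apply_symm_apply _

theorem h_ext {f g : HeckeAlg cs}
    (h : f.1 (Finsupp.single 1 1) = g.1 (Finsupp.single 1 1)) : f = g :=
  ev_injective cs h

theorem hBasis_one : hBasis cs 1 = 1 := h_ext cs (hBasis_eq cs 1)

theorem hBasis_simple (i : B) : hBasis cs (cs.simple i) = hT cs i := by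
  apply h_ext
  rw [hBasis_eq]
  change _ = Lop cs i (Finsupp.single 1 1)
  rw [Lop_single, if_neg (cs.not_isLeftDescent_one i), mul_one, zero_smul, add_zero]

open Classical in
theorem hBasis_left (i : B) (w : W) : hBasis cs (cs.simple i) * hBasis cs w =
    hBasis cs (cs.simple i * w) + (if cs.IsLeftDescent w i then xi else 0) • hBasis cs w := by
  apply h_ext
  rw [hBasis_simple]
  change Lop cs i ((hBasis cs w).1 (Finsupp.single 1 1)) = (hBasis cs (cs.simple i * w)).1 _ +
    (if cs.IsLeftDescent w i then xi else 0) • (hBasis cs w).1 _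
  rw [hBasis_eq, hBasis_eq, Lop_single]

open Classical in
theorem hBasis_right (i : B) (w : W) : hBasis cs w * hBasis cs (cs.simple i) =
    hBasis cs (w * cs.simple i) + (if cs.IsRightDescent w i then xi else 0) • hBasis cs w := by
  apply h_ext
  rw [hBasis_simple]
  change (hBasis cs w).1 (Lop cs i (Finsupp.single 1 1)) = (hBasis cs (w * cs.simple i)).1 _ +
    (if cs.IsRightDescent w i then xi else 0) • (hBasis cs w).1 _
  have e : Lop cs i (Finsupp.single 1 1) = Rop cs i (Finsupp.single 1 1) := by
    rw [Lop_single, Rop_single, if_neg (cs.not_isLeftDescent_one i),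
      if_neg (cs.not_isRightDescent_one i), mul_one, one_mul]
  rw [e, HeckeAlg.comm, hBasis_eq, hBasis_eq, Rop_single]

theorem hBasis_sq (i : B) : hBasis cs (cs.simple i) * hBasis cs (cs.simple i)
    = xi • hBasis cs (cs.simple i) + 1 := by
  rw [hBasis_left, if_pos, cs.simple_mul_simple_self, hBasis_one, add_comm]
  rw [CoxeterSystem.IsLeftDescent]
  simp

/-- `t_i` as a unit. -/
noncomputable def hUnit (i : B) : (HeckeAlg cs)ˣ where
  val := hBasis cs (cs.simple i)
  inv := hBasis cs (cs.simple i) - xi • (1 : HeckeAlg cs)
  val_inv := by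
    rw [mul_sub, hBasis_sq, mul_smul_comm, mul_one]
    abel
  inv_val := by
    rw [sub_mul, hBasis_sq, smul_mul_assoc, one_mul]
    abel

theorem isUnit_hBasis (w : W) : IsUnit (hBasis cs w) := by
  classical
  have key : ∀ n : ℕ, ∀ w : W, cs.length w = n → IsUnit (hBasis cs w) := by
    intro n
    induction n with
    | zero =>
      intro w hw
      rw [cs.length_eq_zero_iff] at hw
      subst hw
      rw [hBasis_one]
      exact isUnit_one
    | succ n ih =>
      intro w hw
      have hw1 : w ≠ 1 := by
        rintro rfl
        rw [cs.length_one] at hw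
        omega
      obtain ⟨j, hj⟩ := cs.exists_leftDescent_of_ne_one hw1
      have hl : cs.length (cs.simple j * w) + 1 = cs.length w := cs.isLeftDescent_iff.mp hj
      have h2 : ¬ cs.IsLeftDescent (cs.simple j * w) j := by
        rw [ldesc_smul]
        exact not_not.mpr hj
      have h3 := hBasis_left cs j (cs.simple j * w)
      rw [if_neg h2, zero_smul, add_zero, cs.simple_mul_simple_cancel_left] at h3
      rw [← h3]
      exact (hUnit cs j).isUnit.mul (ih (cs.simple j * w) (by omega))
  exact key _ w rfl

/-- The inverse of `t_{w⁻¹}`. -/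
noncomputable def tau (w : W) : HeckeAlg cs := ((isUnit_hBasis cs w⁻¹).unit⁻¹ : (HeckeAlg cs)ˣ)

theorem tau_one : tau cs 1 = 1 := by
  have : (isUnit_hBasis cs (1 : W)⁻¹).unit = 1 := by
    ext1
    rw [IsUnit.unit_spec, inv_one, hBasis_one, Units.val_one]
  rw [tau, this, inv_one, Units.val_one]

theorem tau_mul {i : B} {w : W} (h : ¬ cs.IsLeftDescent w i) :
    tau cs (cs.simple i * w) = (hBasis cs (cs.simple i) - xi • (1 : HeckeAlg cs)) * tau cs w := by
  classical
  have : (isUnit_hBasis cs (cs.simple i * w)⁻¹).unit
      = (isUnit_hBasis cs w⁻¹).unit * hUnit cs i := by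
    ext1
    rw [IsUnit.unit_spec, Units.val_mul, IsUnit.unit_spec]
    change _ = hBasis cs w⁻¹ * hBasis cs (cs.simple i)
    rw [hBasis_right, if_neg, zero_smul, add_zero, mul_inv_rev, cs.inv_simple]
    rwa [cs.isRightDescent_inv_iff]
  rw [tau, this, mul_inv_rev, Units.val_mul]
  rfl

theorem invert_xi : LaurentPolynomial.invert xi = -xi := by
  rw [xi, map_sub, LaurentPolynomial.invert_T, LaurentPolynomial.invert_T, neg_neg]
  ring

/-- The bar involution as a function. -/
noncomputable def barFun (h : HeckeAlg cs) : HeckeAlg cs :=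
  ((hBasis cs).repr h).sum fun w a => LaurentPolynomial.invert a • tau cs w

theorem barFun_add (g h : HeckeAlg cs) : barFun cs (g + h) = barFun cs g + barFun cs h := by
  rw [barFun, barFun, barFun, map_add, Finsupp.sum_add_index']
  · intro w
    rw [map_zero, zero_smul]
  · intro w a b
    rw [map_add, add_smul]

theorem barFun_zero : barFun cs 0 = 0 := by
  rw [barFun, map_zero, Finsupp.sum_zero_index]

theorem barFun_smul (a : A) (h : HeckeAlg cs) :
    barFun cs (a • h) = LaurentPolynomial.invert a • barFun cs h := by
  rw [barFun, barFun, map_smul, Finsupp.sum_smul_index', Finsupp.sum, Finsupp.sum,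
    Finset.smul_sum]
  · refine Finset.sum_congr rfl fun w _ => ?_
    rw [smul_eq_mul, map_mul, mul_smul]
  · intro w
    rw [map_zero, zero_smul]

theorem barFun_basis (w : W) : barFun cs (hBasis cs w) = tau cs w := by
  rw [barFun, Module.Basis.repr_self, Finsupp.sum_single_index]
  · rw [map_one, one_smul]
  · rw [map_zero, zero_smul]

theorem h_induction {P : HeckeAlg cs → Prop} (h0 : P 0) (hadd : ∀ g h, P g → P h → P (g + h))
    (hs : ∀ (a : A) w, P (a • hBasis cs w)) (h : HeckeAlg cs) : P h := by
  obtain ⟨f, rfl⟩ := (hBasis cs).repr.symm.surjective h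
  induction f using Finsupp.induction_linear with
  | zero => rw [map_zero]; exact h0
  | add f g hf hg => rw [map_add]; exact hadd _ _ hf hg
  | single w a => rw [Module.Basis.repr_symm_single]; exact hs a w

theorem barFun_simple_mul (i : B) (h : HeckeAlg cs) :
    barFun cs (hBasis cs (cs.simple i) * h)
      = (hBasis cs (cs.simple i) - xi • (1 : HeckeAlg cs)) * barFun cs h := by
  classical
  induction h using h_induction with
  | h0 => rw [mul_zero, barFun_zero, mul_zero]
  | hadd g h hg hh => rw [mul_add, barFun_add, barFun_add, hg, hh, mul_add]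
  | hs a w =>
    rw [mul_smul_comm, barFun_smul, barFun_smul, mul_smul_comm, barFun_basis]
    congr 1
    by_cases hw : cs.IsLeftDescent w i
    · have h1 : ¬ cs.IsLeftDescent (cs.simple i * w) i := by
        rw [ldesc_smul]
        exact not_not.mpr hw
      have h2 := tau_mul cs h1
      rw [cs.simple_mul_simple_cancel_left] at h2
      have h3 : tau cs (cs.simple i * w) = hBasis cs (cs.simple i) * tau cs w := by
        rw [h2, ← mul_assoc, mul_sub, hBasis_sq, mul_smul_comm, mul_one, add_sub_cancel_left,
          one_mul]
      rw [hBasis_left, if_pos hw, barFun_add, barFun_smul, invert_xi, barFun_basis, barFun_basis,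
        h3, sub_mul, smul_mul_assoc, one_mul, neg_smul, sub_eq_add_neg]
    · rw [hBasis_left, if_neg hw, zero_smul, add_zero, barFun_basis, tau_mul cs hw]

theorem barFun_basis_mul (w : W) (h : HeckeAlg cs) :
    barFun cs (hBasis cs w * h) = tau cs w * barFun cs h := by
  classical
  have key : ∀ n : ℕ, ∀ w : W, cs.length w = n →
      barFun cs (hBasis cs w * h) = tau cs w * barFun cs h := by
    intro n
    induction n with
    | zero =>
      intro w hw
      rw [cs.length_eq_zero_iff] at hw
      subst hw
      rw [hBasis_one, one_mul, tau_one, one_mul]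
    | succ n ih =>
      intro w hw
      have hw1 : w ≠ 1 := by
        rintro rfl
        rw [cs.length_one] at hw
        omega
      obtain ⟨j, hj⟩ := cs.exists_leftDescent_of_ne_one hw1
      have hl : cs.length (cs.simple j * w) + 1 = cs.length w := cs.isLeftDescent_iff.mp hj
      have h2 : ¬ cs.IsLeftDescent (cs.simple j * w) j := by
        rw [ldesc_smul]
        exact not_not.mpr hj
      have h3 := hBasis_left cs j (cs.simple j * w)
      rw [if_neg h2, zero_smul, add_zero, cs.simple_mul_simple_cancel_left] at h3
      have h4 := tau_mul cs h2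
      rw [cs.simple_mul_simple_cancel_left] at h4
      rw [← h3, mul_assoc, barFun_simple_mul, ih _ (by omega), h4, mul_assoc]
  exact key _ w rfl

theorem barFun_mul (g h : HeckeAlg cs) : barFun cs (g * h) = barFun cs g * barFun cs h := by
  induction g using h_induction with
  | h0 => rw [zero_mul, barFun_zero, zero_mul]
  | hadd g g' hg hh => rw [add_mul, barFun_add, barFun_add, hg, hh, add_mul]
  | hs a w =>
    rw [smul_mul_assoc, barFun_smul, barFun_smul, barFun_basis_mul, barFun_basis, smul_mul_assoc]

/-- The bar involution. -/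
noncomputable def hBar : HeckeAlg cs →+* HeckeAlg cs where
  toFun := barFun cs
  map_one' := by rw [← hBasis_one, barFun_basis, tau_one, hBasis_one]
  map_mul' := barFun_mul cs
  map_zero' := barFun_zero cs
  map_add' := barFun_add cs

/-- The normalized Hecke algebra exists. -/
noncomputable def hNHecke : NHecke cs (HeckeAlg cs) where
  t := hBasis cs
  t_one := hBasis_one cs
  t_mul i w h := by
    classical
    rw [hBasis_left, if_neg (not_ldesc_iff'.mpr h), zero_smul, add_zero]
  t_sq := hBasis_sq cs
  bar := hBar cs
  bar_smul := barFun_smul cs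
  bar_t i := by
    change barFun cs (hBasis cs (cs.simple i)) = _
    have h1 := barFun_simple_mul cs i 1
    rw [mul_one] at h1
    rw [h1]
    change _ * hBar cs 1 = _
    rw [map_one, mul_one]

end Pool.Agent.Helper32.KL
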