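import Pool.Agent.Helper32.KLExist1
import Pool.Agent.Helper32.KLFromK

set_option autoImplicit false

/-! Existence of the Kazhdan-Lusztig basis. -/

namespace Pool.Agent.Helper32.KL

open CoxeterSystem

variable {B W : Type} [Group W] {M : CoxeterMatrix B} {cs : CoxeterSystem M W}

theorem BruhatLE.trans {x y z : W} (h1 : BruhatLE cs x y) (h2 : BruhatLE cs y z) :
    BruhatLE cs x z := Relation.ReflTransGen.trans h1 h2

theorem bruhat_simple {w : W} {i : B} (h : ¬ cs.IsLeftDescent w i) :
    BruhatLE cs w (cs.simple i * w) :=
  Relation.ReflTransGen.single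
    ⟨cs.simple i, cs.isReflection_simple i, rfl, not_ldesc_iff'.mp h⟩

theorem length_step {x t : W} {i : B} (ht : cs.IsReflection t) (hti : t ≠ cs.simple i)
    (h : cs.length x < cs.length (t * x)) :
    cs.length (cs.simple i * x) < cs.length (cs.simple i * (t * x)) := by
  -- use inverses and the cocycle
  have ht' : cs.IsReflection (cs.simple i * t * cs.simple i) := by
    have := ht.conj (cs.simple i)
    simpa using this
  have e0 : cs.simple i * (t * x) = (cs.simple i * t * cs.simple i) * (cs.simple i * x) := by
    simp [mul_assoc]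
  have h0 : eta cs x⁻¹ t ≠ 1 := by
    intro h1
    have h2 := length_lt_of_eta cs h1
    have e1 : x⁻¹ * t = (t * x)⁻¹ := by rw [mul_inv_rev, ht.inv]
    rw [e1, cs.length_inv, cs.length_inv] at h2
    omega
  by_contra hn
  have hne : cs.length ((cs.simple i * t * cs.simple i) * (cs.simple i * x))
      ≠ cs.length (cs.simple i * x) := by
    intro h1
    have h2 := cs.length_mul_mod_two (cs.simple i * t * cs.simple i) (cs.simple i * x)
    have h3 := ht'.odd_length
    rw [Nat.odd_iff] at h3
    omega
  rw [e0] at hn
  have hlt : cs.length ((cs.simple i * x)⁻¹ * (cs.simple i * t * cs.simple i))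
      < cs.length (cs.simple i * x)⁻¹ := by
    have e1 : (cs.simple i * x)⁻¹ * (cs.simple i * t * cs.simple i)
        = ((cs.simple i * t * cs.simple i) * (cs.simple i * x))⁻¹ := by
      rw [mul_inv_rev ((cs.simple i * t * cs.simple i)), ht'.inv]
    rw [e1, cs.length_inv, cs.length_inv]
    omega
  have h4 := eta_of_length_lt cs ht' hlt
  rw [mul_inv_rev, cs.inv_simple, eta_mul, eta_simple] at h4
  have e2 : cs.simple i * (cs.simple i * t * cs.simple i) * (cs.simple i)⁻¹ = t := by
    simp [mul_assoc]
  rw [e2] at h4
  have e3 : delta (cs.simple i * t * cs.simple i) (cs.simple i) = 0 := by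
    unfold delta
    rw [if_neg]
    intro h5
    apply hti
    have h6 := congrArg (fun z => cs.simple i * z * cs.simple i) h5
    simpa [mul_assoc] using h6
  rw [e3, zero_add] at h4
  exact h0 h4

/-- Lifting property. -/
theorem bruhat_lift (i : B) {x w : W} (h : BruhatLE cs x w) :
    BruhatLE cs (cs.simple i * x) w ∨ BruhatLE cs (cs.simple i * x) (cs.simple i * w) := by
  induction h using Relation.ReflTransGen.head_induction_on with
  | refl => exact Or.inr Relation.ReflTransGen.refl
  | @head a c h1 h2 ih =>
    obtain ⟨t, ht, rfl, hl⟩ := h1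
    by_cases hti : t = cs.simple i
    · subst hti
      exact Or.inl h2
    · have h3 := length_step ht hti hl
      have h4 : cs.IsReflection (cs.simple i * t * cs.simple i) := by
        have := ht.conj (cs.simple i)
        simpa using this
      have h5 : BruhatLE cs (cs.simple i * a) (cs.simple i * (t * a)) :=
        Relation.ReflTransGen.single ⟨cs.simple i * t * cs.simple i, h4, by simp [mul_assoc], h3⟩
      rcases ih with h | h
      · exact Or.inl (h5.trans h)
      · exact Or.inr (h5.trans h)

/-- allowed exponents -/
def Expo (cs : CoxeterSystem M W) (y w : W) (k : ℤ) : Prop :=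
  1 ≤ k ∧ k ≤ (cs.length w : ℤ) - cs.length y ∧ 2 ∣ ((cs.length w : ℤ) - cs.length y - k)

/-- `c` is the KL element of `w`. -/
structure Good {H : Type} [Ring H] [Algebra A H] (N : NHecke cs H) (w : W) (c : H) : Prop where
  bar : N.bar c = c
  self : N.co c w = 1
  supp : ∀ y, N.co c y ≠ 0 → BruhatLE cs y w
  expo : ∀ y, y ≠ w → ∀ k, (N.co c y).coeff k ≠ 0 → Expo cs y w k

variable {H : Type} [Ring H] [Algebra A H] (N : NHecke cs H)

theorem co_zsmul (n : ℤ) (h : H) (w : W) : N.co (n • h) w = n • N.co h w := by
  rw [NHecke.co, NHecke.co, map_zsmul]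
  rfl

theorem good_one : Good N 1 (1 : H) where
  bar := map_one _
  self := by
    classical
    rw [← N.t_one, NHecke.co_t, if_pos rfl]
  supp y h := by
    classical
    rw [← N.t_one, NHecke.co_t] at h
    by_cases h1 : (1 : W) = y
    · subst h1
      exact Relation.ReflTransGen.refl
    · rw [if_neg h1] at h
      exact absurd rfl h
  expo y hy k h := by
    classical
    rw [← N.t_one, NHecke.co_t, if_neg (Ne.symm hy)] at h
    exact absurd rfl h

theorem Good.co_eq_zero {w y : W} {c : H} (h : Good N w c) (h1 : ¬ BruhatLE cs y w) :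
    N.co c y = 0 := by
  by_contra h2
  exact h1 (h.supp y h2)

theorem Good.coeff_eq_zero {w y : W} {c : H} (h : Good N w c) (hy : y ≠ w) {k : ℤ}
    (h1 : ¬ Expo cs y w k) : (N.co c y).coeff k = 0 := by
  by_contra h2
  exact h1 (h.expo y hy k h2)

theorem bar_Csimple (i : B) : N.bar (N.t (cs.simple i) - vpow 1 • (1 : H))
    = N.t (cs.simple i) - vpow 1 • (1 : H) := by
  rw [map_sub, N.bar_t, N.bar_smul, map_one, LaurentPolynomial.invert_T, xi, sub_smul]
  abel

open Classical in
theorem co_Csimple_mul (i : B) (c : H) (y : W) :
    N.co ((N.t (cs.simple i) - vpow 1 • (1 : H)) * c) y =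
      if cs.IsLeftDescent y i then N.co c (cs.simple i * y) - vpow (-1) * N.co c y
      else N.co c (cs.simple i * y) - vpow 1 * N.co c y := by
  rw [sub_mul, NHecke.co_sub, NHecke.co_t_mul, smul_mul_assoc, one_mul, NHecke.co_smul]
  split_ifs with h
  · rw [xi]; ring
  · ring

theorem good_step {w' : W} {i : B} (hi : ¬ cs.IsLeftDescent w' i) {c' : H} (hc' : Good N w' c')
    (cz : W → H) (hz : ∀ z, cs.length z ≤ cs.length w' → Good N z (cz z)) :
    ∃ c, Good N (cs.simple i * w') c := by
  classical
  have hlen : cs.length (cs.simple i * w') = cs.length w' + 1 := cs.not_isLeftDescent_iff.mp hi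
  have hw'w : BruhatLE cs w' (cs.simple i * w') := bruhat_simple hi
  -- exceptional set
  set S : Finset W := (N.t.repr c').support.filter fun z => cs.IsLeftDescent z i with hS
  have hSmem : ∀ z, z ∈ S ↔ N.co c' z ≠ 0 ∧ cs.IsLeftDescent z i := by
    intro z
    rw [hS, Finset.mem_filter, Finsupp.mem_support_iff]
    rfl
  have hSle : ∀ z ∈ S, BruhatLE cs z w' := fun z hz' => hc'.supp z ((hSmem z).mp hz').1
  have hSne : ∀ z ∈ S, z ≠ w' := by
    intro z hz' h
    subst h
    exact hi ((hSmem _).mp hz').2
  have hSgood : ∀ z ∈ S, Good N z (cz z) := fun z hz' => hz z (hSle z hz').length_le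
  set X : H := (N.t (cs.simple i) - vpow 1 • (1 : H)) * c' with hX
  have hcoX := fun y => co_Csimple_mul N i c' y
  rw [← hX] at hcoX
  set Y : H := ∑ z ∈ S, ((N.co c' z).coeff 1) • cz z with hY
  have hcoY : ∀ y, N.co Y y = ∑ z ∈ S, ((N.co c' z).coeff 1) • N.co (cz z) y := by
    intro y
    rw [hY, NHecke.co_sum]
    exact Finset.sum_congr rfl fun z _ => co_zsmul N _ _ _
  -- a term of the correction sum
  have hterm : ∀ z ∈ S, ∀ y, y ≠ z → ∀ k, ¬ Expo cs y (cs.simple i * w') k →
      (((N.co c' z).coeff 1) • N.co (cz z) y).coeff k = 0 := by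
    intro z hz' y hyz k hk
    rw [coeff_smul']
    by_contra hne
    have h1 : (N.co c' z).coeff 1 ≠ 0 := left_ne_zero_of_mul hne
    have h2 : (N.co (cz z) y).coeff k ≠ 0 := right_ne_zero_of_mul hne
    have h3 := hc'.expo z (hSne z hz') 1 h1
    have h4 := (hSgood z hz').expo y hyz k h2
    apply hk
    obtain ⟨a1, a2, a3⟩ := h3
    obtain ⟨b1, b2, b3⟩ := h4
    refine ⟨b1, ?_, ?_⟩
    · rw [hlen]; push_cast; omega
    · rw [hlen]; push_cast; omega
  refine ⟨X + Y, ?_, ?_, ?_, ?_⟩
  · rw [map_add, hX, map_mul, bar_Csimple, hc'.bar, hY, map_sum]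
    congr 1
    refine Finset.sum_congr rfl fun z hz' => ?_
    rw [map_zsmul, (hSgood z hz').bar]
  · have hd : cs.IsLeftDescent (cs.simple i * w') i := by
      rw [ldesc_smul]; exact hi
    have h0 : ∀ z, cs.length z ≤ cs.length w' → ∀ c, Good N z c →
        N.co c (cs.simple i * w') = 0 := by
      intro z hz1 c hcz
      apply hcz.co_eq_zero
      intro h
      have := h.length_le
      omega
    rw [NHecke.co_add, hcoX, if_pos hd, cs.simple_mul_simple_cancel_left, hc'.self,
      h0 w' le_rfl c' hc', mul_zero, sub_zero, hcoY, Finset.sum_eq_zero, add_zero]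
    intro z hz'
    rw [h0 z (hSle z hz').length_le _ (hSgood z hz'), smul_zero]
  · intro y hy
    by_cases h1 : N.co c' (cs.simple i * y) ≠ 0
    · have h2 := hc'.supp _ h1
      rcases bruhat_lift i h2 with h3 | h3
      · rw [cs.simple_mul_simple_cancel_left] at h3
        exact h3.trans hw'w
      · rwa [cs.simple_mul_simple_cancel_left] at h3
    · by_cases h2 : N.co c' y ≠ 0
      · exact (hc'.supp _ h2).trans hw'w
      · by_contra hn
        apply hy
        rw [not_not] at h1 h2
        have hX0 : N.co X y = 0 := by
          rw [hcoX, h1, h2, mul_zero, mul_zero, sub_zero, ite_self]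
        rw [NHecke.co_add, hX0, zero_add, hcoY]
        refine Finset.sum_eq_zero fun z hz' => ?_
        rw [(hSgood z hz').co_eq_zero, smul_zero]
        intro h4
        exact hn ((h4.trans (hSle z hz')).trans hw'w)
  · intro y hy k hk
    by_contra hn
    apply hk
    rw [NHecke.co_add, coeff_add', hcoY, coeff_sum', hcoX]
    have hsy : cs.simple i * y ≠ w' := by
      rintro rfl
      rw [cs.simple_mul_simple_cancel_left] at hy
      exact hy rfl
    by_cases hyd : cs.IsLeftDescent y i
    · rw [if_pos hyd]
      have hyw' : y ≠ w' := by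
        rintro rfl
        exact hi hyd
      have hlen2 : cs.length (cs.simple i * y) + 1 = cs.length y := cs.isLeftDescent_iff.mp hyd
      by_cases hk0 : k = 0
      · subst hk0
        have e1 : (N.co c' (cs.simple i * y)).coeff 0 = 0 :=
          hc'.coeff_eq_zero N hsy fun h => by
            have := h.1
            omega
        rw [coeff_sub', coeff_T_mul, e1]
        have e2 : (0 : ℤ) - -1 = 1 := by norm_num
        rw [e2]
        by_cases hyS : y ∈ S
        · rw [Finset.sum_eq_single y]
          · rw [coeff_smul', (hSgood y hyS).self, coeff_one', if_pos rfl]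
            ring
          · intro z hz' hzy
            rw [coeff_smul', (hSgood z hz').coeff_eq_zero N hzy.symm, mul_zero]
            intro h
            have := h.1
            omega
          · intro h
            exact absurd hyS h
        · have e3 : N.co c' y = 0 := by
            by_contra h
            exact hyS ((hSmem y).mpr ⟨h, hyd⟩)
          rw [e3, Finset.sum_eq_zero]
          · simp
          · intro z hz'
            have hzy : y ≠ z := by
              rintro rfl
              exact hyS hz'
            rw [coeff_smul', (hSgood z hz').coeff_eq_zero N hzy, mul_zero]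
            intro h
            have := h.1
            omega
      · have e1 : (N.co c' (cs.simple i * y)).coeff k = 0 :=
          hc'.coeff_eq_zero N hsy fun h => by
            apply hn
            obtain ⟨a1, a2, a3⟩ := h
            refine ⟨a1, ?_, ?_⟩
            · rw [hlen]; push_cast; omega
            · rw [hlen]; push_cast; omega
        have e2 : (N.co c' y).coeff (k - -1) = 0 :=
          hc'.coeff_eq_zero N hyw' fun h => by
            apply hn
            obtain ⟨a1, a2, a3⟩ := h
            refine ⟨?_, ?_, ?_⟩
            · omega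
            · rw [hlen]; push_cast; omega
            · rw [hlen]; push_cast; omega
        rw [coeff_sub', coeff_T_mul, e1, e2, Finset.sum_eq_zero]
        · ring
        · intro z hz'
          by_cases hyz : y = z
          · subst hyz
            rw [coeff_smul', (hSgood y hz').self, coeff_one', if_neg hk0, mul_zero]
          · exact hterm z hz' y hyz k hn
    · rw [if_neg hyd]
      have hlen2 : cs.length (cs.simple i * y) = cs.length y + 1 :=
        cs.not_isLeftDescent_iff.mp hyd
      have e1 : (N.co c' (cs.simple i * y)).coeff k = 0 :=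
        hc'.coeff_eq_zero N hsy fun h => by
          apply hn
          obtain ⟨a1, a2, a3⟩ := h
          refine ⟨a1, ?_, ?_⟩
          · rw [hlen]; push_cast; omega
          · rw [hlen]; push_cast; omega
      have e2 : (N.co c' y).coeff (k - 1) = 0 := by
        by_cases hyw' : y = w'
        · subst hyw'
          rw [hc'.self, coeff_one', if_neg]
          intro h
          apply hn
          refine ⟨by omega, ?_, ?_⟩
          · rw [hlen]; push_cast; omega
          · rw [hlen]; push_cast; omega
        · refine hc'.coeff_eq_zero N hyw' fun h => ?_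
          apply hn
          obtain ⟨a1, a2, a3⟩ := h
          refine ⟨by omega, ?_, ?_⟩
          · rw [hlen]; push_cast; omega
          · rw [hlen]; push_cast; omega
      rw [coeff_sub', coeff_T_mul, e1, e2, Finset.sum_eq_zero]
      · ring
      · intro z hz'
        apply hterm z hz' y _ k hn
        rintro rfl
        exact hyd ((hSmem _).mp hz').2

theorem exists_good (w : W) : ∃ c, Good N w c := by
  classical
  have key : ∀ n : ℕ, ∀ w : W, cs.length w ≤ n → ∃ c, Good N w c := by
    intro n
    induction n with
    | zero =>
      intro w hw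
      have : w = 1 := cs.length_eq_zero_iff.mp (by omega)
      subst this
      exact ⟨1, good_one N⟩
    | succ n ih =>
      intro w hw
      by_cases hw1 : w = 1
      · subst hw1
        exact ⟨1, good_one N⟩
      · obtain ⟨j, hj⟩ := cs.exists_leftDescent_of_ne_one hw1
        have hl : cs.length (cs.simple j * w) + 1 = cs.length w := cs.isLeftDescent_iff.mp hj
        have h2 : ¬ cs.IsLeftDescent (cs.simple j * w) j := by
          rw [ldesc_smul]
          exact not_not.mpr hj
        obtain ⟨c', hc'⟩ := ih (cs.simple j * w) (by omega)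
        have h3 : ∀ z : W, ∃ c : H, cs.length z ≤ n → Good N z c := by
          intro z
          by_cases hz : cs.length z ≤ n
          · obtain ⟨c, hc⟩ := ih z hz
            exact ⟨c, fun _ => hc⟩
          · exact ⟨0, fun h => absurd h hz⟩
        choose cz hcz using h3
        obtain ⟨c, hc⟩ := good_step N h2 hc' cz (fun z hz => hcz z (by omega))
        rw [cs.simple_mul_simple_cancel_left] at hc
        exact ⟨c, hc⟩
  exact key _ w le_rfl

end Pool.Agent.Helper32.KL
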