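import Pool.Agent.Helper32.KLExist2

set_option autoImplicit false

/-! Existence of `KLData`. -/

namespace Pool.Agent.Helper32.KL

open CoxeterSystem

variable {B W : Type} [Group W] {M : CoxeterMatrix B} {cs : CoxeterSystem M W}

section basis

variable {H : Type} [Ring H] [Algebra A H] (N : NHecke cs H) {c : W → H}

theorem linInd (h1 : ∀ w, N.co (c w) w = 1)
    (h2 : ∀ w y, y ≠ w → ¬ cs.length y < cs.length w → N.co (c w) y = 0) :
    LinearIndependent A c := by
  classical
  rw [linearIndependent_iff]
  intro l hl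
  by_contra hne
  obtain ⟨w, hw, hmax⟩ := Finset.exists_max_image l.support cs.length
    (Finsupp.support_nonempty_iff.mpr hne)
  have h3 : N.co (Finsupp.linearCombination A c l) w = l w := by
    rw [Finsupp.linearCombination_apply, Finsupp.sum, NHecke.co_sum, Finset.sum_eq_single w]
    · rw [NHecke.co_smul, h1, mul_one]
    · intro b hb hbw
      rw [NHecke.co_smul, h2 b w hbw.symm (by have := hmax b hb; omega), mul_zero]
    · intro h
      exact absurd hw h
  rw [hl, NHecke.co_zero] at h3
  exact (Finsupp.mem_support_iff.mp hw) h3.symm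

theorem spans (h1 : ∀ w, N.co (c w) w = 1)
    (h2 : ∀ w y, y ≠ w → ¬ cs.length y < cs.length w → N.co (c w) y = 0) :
    ⊤ ≤ Submodule.span A (Set.range c) := by
  classical
  have key : ∀ n : ℕ, ∀ w : W, cs.length w < n → N.t w ∈ Submodule.span A (Set.range c) := by
    intro n
    induction n with
    | zero => intro w hw; omega
    | succ n ih =>
      intro w hw
      have e : c w = N.t w + ∑ y ∈ (N.t.repr (c w)).support.erase w, N.co (c w) y • N.t y := by
        have hw' : w ∈ (N.t.repr (c w)).support := by
          rw [Finsupp.mem_support_iff]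
          change N.co (c w) w ≠ 0
          rw [h1]
          exact one_ne_zero
        conv_lhs => rw [← N.t.linearCombination_repr (c w), Finsupp.linearCombination_apply,
          Finsupp.sum, ← Finset.add_sum_erase _ _ hw']
        change N.co (c w) w • N.t w + _ = _
        rw [h1, one_smul]
        rfl
      have e2 : N.t w = c w - ∑ y ∈ (N.t.repr (c w)).support.erase w, N.co (c w) y • N.t y :=
        eq_sub_of_add_eq e.symm
      rw [e2]
      refine Submodule.sub_mem _ (Submodule.subset_span ⟨w, rfl⟩) (Submodule.sum_mem _ ?_)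
      intro y hy
      rw [Finset.mem_erase] at hy
      by_cases hl : cs.length y < cs.length w
      · exact Submodule.smul_mem _ _ (ih y (by omega))
      · rw [h2 w y hy.1 hl, zero_smul]
        exact Submodule.zero_mem _
  rw [← N.t.span_eq, Submodule.span_le]
  rintro _ ⟨w, rfl⟩
  exact key _ w (Nat.lt_succ_self _)

end basis

section poly

/-- Extracting the Kazhdan-Lusztig polynomial. -/
noncomputable def mkP (a b : ℕ) (p : A) : Polynomial ℤ :=
  ∑ j ∈ Finset.range (b - a + 1),
    Polynomial.monomial j ((-1) ^ (b + a) * p.coeff ((b : ℤ) - a - 2 * j))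

theorem coeff_mkP (a b : ℕ) (p : A) (j : ℕ) :
    (mkP a b p).coeff j
      = if j < b - a + 1 then (-1) ^ (b + a) * p.coeff ((b : ℤ) - a - 2 * j) else 0 := by
  rw [mkP, Polynomial.finsetSum_coeff]
  simp only [Polynomial.coeff_monomial]
  rw [Finset.sum_ite_eq']
  simp only [Finset.mem_range]

end poly

/-- The sign. -/
theorem neg_one_pow_mul_self' (n : ℕ) : ((-1 : ℤ) ^ n) * (-1) ^ n = 1 := by
  rw [← mul_pow]; simp

theorem mkP_spec {a b : ℕ} {p : A} (hab : a ≤ b)
    (hp : ∀ k, p.coeff k ≠ 0 → (0 ≤ k ∧ k ≤ (b : ℤ) - a ∧ 2 ∣ ((b : ℤ) - a - k))) :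
    p = (-1) ^ (b + a) * (vpow ((b : ℤ) - a) * Polynomial.aeval (vpow (-2)) (mkP a b p)) := by
  apply A_ext
  intro k
  rw [KLData.coeff_neg_one_pow, coeff_T_mul]
  by_cases h : ∃ j : ℕ, k - ((b : ℤ) - a) = -2 * j
  · obtain ⟨j, hj⟩ := h
    rw [hj, coeff_aeval_neg, coeff_mkP]
    split_ifs with h1
    · rw [← mul_assoc, neg_one_pow_mul_self', one_mul]
      congr 1
      linarith
    · rw [mul_zero]
      by_contra h2
      obtain ⟨h3, h4, h5⟩ := hp k h2
      omega
  · rw [coeff_aeval, Finset.sum_eq_zero]
    · rw [mul_zero]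
      by_contra h2
      obtain ⟨h3, h4, m, hm⟩ := hp k h2
      apply h
      refine ⟨m.toNat, ?_⟩
      omega
    · intro j _
      rw [if_neg]
      intro h1
      exact h ⟨j, h1⟩

theorem mkP_degree {a b : ℕ} {p : A} (hab : a < b)
    (hp : ∀ k, p.coeff k ≠ 0 → 1 ≤ k) : 2 * (mkP a b p).natDegree + 1 + a ≤ b := by
  by_cases h0 : mkP a b p = 0
  · rw [h0, Polynomial.natDegree_zero]
    omega
  · have h1 : (mkP a b p).coeff (mkP a b p).natDegree ≠ 0 := by
      rw [Polynomial.coeff_natDegree]
      exact Polynomial.leadingCoeff_ne_zero.mpr h0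
    rw [coeff_mkP] at h1
    split_ifs at h1 with h2
    · have h3 := hp _ (right_ne_zero_of_mul h1)
      omega
    · exact absurd rfl h1

variable (cs)

open Classical in
/-- The data exist for every Coxeter system. -/
theorem nonempty_klData : Nonempty (KLData cs) := by
  obtain ⟨c, hc⟩ : ∃ c : W → HeckeAlg cs, ∀ w, Good (hNHecke cs) w (c w) := by
    choose c hc using exists_good (hNHecke cs)
    exact ⟨c, hc⟩
  let N : NHecke cs (HeckeAlg cs) := hNHecke cs
  have h1 : ∀ w, N.co (c w) w = 1 := fun w => (hc w).self
  have h2 : ∀ w y, y ≠ w → ¬ cs.length y < cs.length w → N.co (c w) y = 0 := by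
    intro w y hy hl
    exact (hc w).co_eq_zero N fun h => hl (h.length_lt hy)
  let Cb : Module.Basis W A (HeckeAlg cs) := Module.Basis.mk (linInd N h1 h2) (spans N h1 h2)
  have hCb : ∀ w, Cb w = c w := fun w => Module.Basis.mk_apply _ _ w
  have hT : ∀ w, (N.t.unitsSMul fun w => vunit (cs.length w : ℤ)) w
      = vpow (cs.length w : ℤ) • N.t w := by
    intro w
    rw [Module.Basis.unitsSMul_apply]
    rfl
  refine ⟨{
    H := HeckeAlg cs
    T := N.t.unitsSMul fun w => vunit (cs.length w : ℤ)
    T_one := ?_
    T_mul := ?_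
    T_sq := ?_
    bar := N.bar
    bar_smul := N.bar_smul
    bar_T := ?_
    P := fun y w => if BruhatLE cs y w then
      mkP (cs.length y) (cs.length w) (N.co (c w) y) else 0
    P_self := ?_
    P_eq_zero := ?_
    P_degree := ?_
    C := Cb
    C_coeff := ?_
    bar_C := ?_ }⟩
  · rw [hT, cs.length_one, N.t_one]
    simp
  · intro i w h
    have h3 := cs.length_simple_mul w i
    have h4 : cs.length (cs.simple i * w) = cs.length w + 1 := by omega
    rw [hT, hT, hT, ← N.t_mul i w h, h4, cs.length_simple, smul_mul_smul_comm, T_mul_T]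
    congr 2
    push_cast
    ring
  · intro i
    rw [hT, cs.length_simple, smul_mul_smul_comm, T_mul_T, N.t_sq, smul_add, smul_smul,
      smul_smul]
    congr 1
    · congr 1
      rw [xi, mul_sub, T_mul_T, T_mul_T, sub_mul, T_mul_T]
      simp
  · intro i
    rw [hT, cs.length_simple, N.bar_smul, LaurentPolynomial.invert_T, N.bar_t,
      smul_mul_smul_comm, T_mul_T, sub_mul, N.t_sq, smul_mul_assoc, one_mul, add_sub_cancel_left]
    simp
  · intro w
    rw [if_pos (show BruhatLE cs w w from Relation.ReflTransGen.refl), h1]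
    ext j
    rw [coeff_mkP, Polynomial.coeff_one]
    by_cases hj : j = 0
    · subst hj
      rw [if_pos (by omega), if_pos rfl, coeff_one', if_pos (by omega), mul_one, ← two_mul,
        pow_mul]
      simp
    · rw [if_neg (by omega), if_neg hj]
  · intro y w h
    rw [if_neg h]
  · intro y w h hne
    rw [if_pos h]
    exact mkP_degree (h.length_lt hne) fun k hk => ((hc w).expo y hne k hk).1
  · intro y w
    have e0 : (N.t.unitsSMul fun w => vunit (cs.length w : ℤ)).repr (Cb w) y
        = vpow (-(cs.length y : ℤ)) * N.co (c w) y := by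
      rw [Module.Basis.repr_unitsSMul, hCb]
      rfl
    rw [e0]
    by_cases h : BruhatLE cs y w
    · rw [if_pos h]
      have e1 : N.co (c w) y = (-1) ^ (cs.length w + cs.length y) *
          (vpow ((cs.length w : ℤ) - cs.length y) *
            Polynomial.aeval (vpow (-2)) (mkP (cs.length y) (cs.length w) (N.co (c w) y))) := by
        apply mkP_spec h.length_le
        intro k hk
        by_cases hyw : y = w
        · subst hyw
          rw [h1, coeff_one'] at hk
          have hk0 : k = 0 := by
            by_contra hk0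
            rw [if_neg hk0] at hk
            exact hk rfl
          subst hk0
          refine ⟨le_rfl, by omega, ⟨0, by omega⟩⟩
        · obtain ⟨a1, a2, a3⟩ := (hc w).expo y hyw k hk
          exact ⟨by omega, a2, a3⟩
      conv_lhs => rw [e1]
      have e2 : vpow ((cs.length w : ℤ) - 2 * (cs.length y : ℤ))
          = vpow (-(cs.length y : ℤ)) * vpow ((cs.length w : ℤ) - (cs.length y : ℤ)) := by
        rw [T_mul_T]
        congr 1
        ring
      rw [e2]
      ring
    · rw [if_neg h, (hc w).co_eq_zero N h]
      simp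
  · intro w
    rw [hCb]
    exact (hc w).bar

end Pool.Agent.Helper32.KL
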