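import Pool.Agent.Helper32.KLPos
import Pool.Agent.Helper32.CoxExchange

set_option autoImplicit false

/-! The normalized Hecke algebra. -/

namespace Pool.Agent.Helper32.KL

open CoxeterSystem

variable {B W : Type} [Group W] {M : CoxeterMatrix B}

/-- Normalized Hecke algebra data. -/
structure NHecke (cs : CoxeterSystem M W) (H : Type) [Ring H] [Algebra A H] where
  t : Module.Basis W A H
  t_one : t 1 = 1
  t_mul : ∀ (i : B) (w : W), cs.length w < cs.length (cs.simple i * w) →
    t (cs.simple i) * t w = t (cs.simple i * w)
  t_sq : ∀ i : B, t (cs.simple i) * t (cs.simple i) = xi • t (cs.simple i) + 1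
  bar : H →+* H
  bar_smul : ∀ (a : A) (h : H), bar (a • h) = LaurentPolynomial.invert a • bar h
  bar_t : ∀ i : B, bar (t (cs.simple i)) = t (cs.simple i) - xi • (1 : H)

variable {cs : CoxeterSystem M W}

theorem not_ldesc_iff' {w : W} {i : B} :
    ¬ cs.IsLeftDescent w i ↔ cs.length w < cs.length (cs.simple i * w) := by
  rw [cs.not_isLeftDescent_iff]
  have := cs.length_simple_mul w i
  omega

theorem not_rdesc_iff' {w : W} {i : B} :
    ¬ cs.IsRightDescent w i ↔ cs.length w < cs.length (w * cs.simple i) := by
  rw [cs.not_isRightDescent_iff]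
  have := cs.length_mul_simple w i
  omega

theorem ldesc_smul {w : W} {i : B} :
    cs.IsLeftDescent (cs.simple i * w) i ↔ ¬ cs.IsLeftDescent w i := by
  rw [not_ldesc_iff', CoxeterSystem.IsLeftDescent, cs.simple_mul_simple_cancel_left]

theorem rdesc_muls {w : W} {i : B} :
    cs.IsRightDescent (w * cs.simple i) i ↔ ¬ cs.IsRightDescent w i := by
  rw [not_rdesc_iff', CoxeterSystem.IsRightDescent, cs.simple_mul_simple_cancel_right]

namespace NHecke

variable {H : Type} [Ring H] [Algebra A H] (N : NHecke cs H)

/-- The coordinate function. -/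
noncomputable def co (h : H) (w : W) : A := N.t.repr h w

theorem co_add (h h' : H) (w : W) : N.co (h + h') w = N.co h w + N.co h' w := by
  simp [co]

theorem co_sub (h h' : H) (w : W) : N.co (h - h') w = N.co h w - N.co h' w := by
  simp [co]

theorem co_neg (h : H) (w : W) : N.co (-h) w = - N.co h w := by
  simp [co]

theorem co_smul (a : A) (h : H) (w : W) : N.co (a • h) w = a * N.co h w := by
  simp [co]

theorem co_zero (w : W) : N.co 0 w = 0 := by
  simp [co]

open Classical in
theorem co_t (u w : W) : N.co (N.t u) w = if u = w then 1 else 0 := by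
  rw [co, Module.Basis.repr_self, Finsupp.single_apply]

theorem co_sum {ι : Type*} (s : Finset ι) (f : ι → H) (w : W) :
    N.co (∑ i ∈ s, f i) w = ∑ i ∈ s, N.co (f i) w := by
  simp [co]

theorem co_ext {h h' : H} (e : ∀ w, N.co h w = N.co h' w) : h = h' :=
  N.t.repr.injective (Finsupp.ext e)

theorem t_mul_desc {i : B} {w : W} (h : cs.IsLeftDescent w i) :
    N.t (cs.simple i) * N.t w = N.t (cs.simple i * w) + xi • N.t w := by
  have h1 : cs.length (cs.simple i * w) < cs.length (cs.simple i * (cs.simple i * w)) := by
    rw [cs.simple_mul_simple_cancel_left]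
    exact h
  have h2 := N.t_mul i _ h1
  rw [cs.simple_mul_simple_cancel_left] at h2
  conv_lhs => rw [← h2, ← mul_assoc, N.t_sq, add_mul, smul_mul_assoc, h2, one_mul]
  rw [add_comm]

theorem t_mul_t {w : W} {i : B} (h : ¬ cs.IsRightDescent w i) :
    N.t w * N.t (cs.simple i) = N.t (w * cs.simple i) := by
  induction hn : cs.length w using Nat.strong_induction_on generalizing w with
  | _ n ih =>
    rcases Nat.eq_zero_or_pos n with h0 | h0
    · subst h0
      rw [cs.length_eq_zero_iff] at hn
      subst hn
      rw [N.t_one, one_mul, one_mul]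
    · have hw : w ≠ 1 := by
        rintro rfl
        rw [cs.length_one] at hn
        omega
      obtain ⟨j, hj⟩ := cs.exists_leftDescent_of_ne_one hw
      have h1 : cs.length (cs.simple j * w) < cs.length (cs.simple j * (cs.simple j * w)) := by
        rw [cs.simple_mul_simple_cancel_left]
        exact hj
      have h2 := N.t_mul j _ h1
      rw [cs.simple_mul_simple_cancel_left] at h2
      have hl1 : cs.length (cs.simple j * w) + 1 = cs.length w := cs.isLeftDescent_iff.mp hj
      have hl2 : cs.length (w * cs.simple i) = cs.length w + 1 := cs.not_isRightDescent_iff.mp h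
      have hl3 := cs.length_simple_mul (w * cs.simple i) j
      have hl4 := cs.length_mul_simple (cs.simple j * w) i
      rw [← mul_assoc] at hl3
      have h3 : ¬ cs.IsRightDescent (cs.simple j * w) i := by
        rw [cs.not_isRightDescent_iff]
        omega
      have h4 := ih (cs.length (cs.simple j * w)) (by omega) h3 rfl
      rw [← h2, mul_assoc, h4]
      have h5 : cs.length (cs.simple j * w * cs.simple i)
          < cs.length (cs.simple j * (cs.simple j * w * cs.simple i)) := by
        rw [mul_assoc, cs.simple_mul_simple_cancel_left, ← mul_assoc]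
        omega
      rw [N.t_mul j _ h5, mul_assoc, cs.simple_mul_simple_cancel_left]

theorem t_mul_t_desc {w : W} {i : B} (h : cs.IsRightDescent w i) :
    N.t w * N.t (cs.simple i) = N.t (w * cs.simple i) + xi • N.t w := by
  have h1 : ¬ cs.IsRightDescent (w * cs.simple i) i := by
    rw [rdesc_muls]
    exact not_not.mpr h
  have h2 := N.t_mul_t h1
  rw [cs.simple_mul_simple_cancel_right] at h2
  conv_lhs => rw [← h2, mul_assoc, N.t_sq, mul_add, mul_smul_comm, h2, mul_one]
  rw [add_comm]

open Classical in
theorem co_t_mul (i : B) (h : H) (w : W) :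
    N.co (N.t (cs.simple i) * h) w =
      N.co h (cs.simple i * w) + (if cs.IsLeftDescent w i then xi else 0) * N.co h w := by
  have key : (Finsupp.lapply w ∘ₗ N.t.repr.toLinearMap ∘ₗ LinearMap.mulLeft A (N.t (cs.simple i)))
      = (Finsupp.lapply (cs.simple i * w) ∘ₗ N.t.repr.toLinearMap)
        + (if cs.IsLeftDescent w i then xi else 0) •
          (Finsupp.lapply w ∘ₗ N.t.repr.toLinearMap) := by
    apply N.t.ext
    intro u
    simp only [LinearMap.comp_apply, LinearMap.mulLeft_apply, LinearMap.add_apply,
      LinearMap.smul_apply, LinearEquiv.coe_coe, Finsupp.lapply_apply, smul_eq_mul]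
    change N.co (N.t (cs.simple i) * N.t u) w = N.co (N.t u) (cs.simple i * w)
      + (if cs.IsLeftDescent w i then xi else 0) * N.co (N.t u) w
    have e : (cs.simple i * u = w) ↔ (u = cs.simple i * w) := by
      constructor
      · rintro rfl
        rw [cs.simple_mul_simple_cancel_left]
      · rintro rfl
        rw [cs.simple_mul_simple_cancel_left]
    by_cases hu : cs.IsLeftDescent u i
    · rw [N.t_mul_desc hu, co_add, co_smul, co_t, co_t, co_t, if_congr e rfl rfl]
      congr 1
      by_cases huw : u = w
      · subst huw
        rw [if_pos hu]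
      · rw [if_neg huw, mul_zero, mul_zero]
    · rw [N.t_mul i u (not_ldesc_iff'.mp hu), co_t, co_t, co_t, if_congr e rfl rfl]
      by_cases huw : u = w
      · subst huw
        rw [if_neg hu, zero_mul, add_zero]
      · rw [if_neg huw, mul_zero, add_zero]
  exact congrArg (fun f => f h) key

open Classical in
theorem co_mul_t (i : B) (h : H) (w : W) :
    N.co (h * N.t (cs.simple i)) w =
      N.co h (w * cs.simple i) + (if cs.IsRightDescent w i then xi else 0) * N.co h w := by
  have key : (Finsupp.lapply w ∘ₗ N.t.repr.toLinearMap ∘ₗ LinearMap.mulRight A (N.t (cs.simple i)))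
      = (Finsupp.lapply (w * cs.simple i) ∘ₗ N.t.repr.toLinearMap)
        + (if cs.IsRightDescent w i then xi else 0) •
          (Finsupp.lapply w ∘ₗ N.t.repr.toLinearMap) := by
    apply N.t.ext
    intro u
    simp only [LinearMap.comp_apply, LinearMap.mulRight_apply, LinearMap.add_apply,
      LinearMap.smul_apply, LinearEquiv.coe_coe, Finsupp.lapply_apply, smul_eq_mul]
    change N.co (N.t u * N.t (cs.simple i)) w = N.co (N.t u) (w * cs.simple i)
      + (if cs.IsRightDescent w i then xi else 0) * N.co (N.t u) w
    have e : (u * cs.simple i = w) ↔ (u = w * cs.simple i) := by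
      constructor
      · rintro rfl
        rw [cs.simple_mul_simple_cancel_right]
      · rintro rfl
        rw [cs.simple_mul_simple_cancel_right]
    by_cases hu : cs.IsRightDescent u i
    · rw [N.t_mul_t_desc hu, co_add, co_smul, co_t, co_t, co_t, if_congr e rfl rfl]
      congr 1
      by_cases huw : u = w
      · subst huw
        rw [if_pos hu]
      · rw [if_neg huw, mul_zero, mul_zero]
    · rw [N.t_mul_t hu, co_t, co_t, co_t, if_congr e rfl rfl]
      by_cases huw : u = w
      · subst huw
        rw [if_neg hu, zero_mul, add_zero]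
      · rw [if_neg huw, mul_zero, add_zero]
  exact congrArg (fun f => f h) key

/-- `t` is multiplicative on reduced products. -/
theorem t_mul_reduced {x y : W} (h : cs.length (x * y) = cs.length x + cs.length y) :
    N.t x * N.t y = N.t (x * y) := by
  induction hn : cs.length x using Nat.strong_induction_on generalizing x with
  | _ n ih =>
    rcases Nat.eq_zero_or_pos n with h0 | h0
    · subst h0
      rw [cs.length_eq_zero_iff] at hn
      subst hn
      rw [N.t_one, one_mul, one_mul]
    · have hw : x ≠ 1 := by
        rintro rfl
        rw [cs.length_one] at hn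
        omega
      obtain ⟨j, hj⟩ := cs.exists_leftDescent_of_ne_one hw
      have hl1 : cs.length (cs.simple j * x) + 1 = cs.length x := cs.isLeftDescent_iff.mp hj
      have h1 : cs.length (cs.simple j * x) < cs.length (cs.simple j * (cs.simple j * x)) := by
        rw [cs.simple_mul_simple_cancel_left]
        exact hj
      have h2 := N.t_mul j _ h1
      rw [cs.simple_mul_simple_cancel_left] at h2
      have hl2 := cs.length_mul_le (cs.simple j * x) y
      have hl3 := cs.length_simple_mul (x * y) j
      rw [← mul_assoc] at hl3
      have h4 := ih (cs.length (cs.simple j * x)) (by omega) (by omega) rfl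
      rw [← h2, mul_assoc, h4]
      have h5 : cs.length (cs.simple j * x * y)
          < cs.length (cs.simple j * (cs.simple j * x * y)) := by
        rw [mul_assoc, cs.simple_mul_simple_cancel_left, ← mul_assoc]
        omega
      rw [N.t_mul j _ h5, mul_assoc, cs.simple_mul_simple_cancel_left]

end NHecke

end Pool.Agent.Helper32.KL
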