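import Pool.Agent.Helper32.KLDefs

set_option autoImplicit false

/-! Orders of Laurent polynomials. -/

namespace Pool.Agent.Helper32.KL

/-- `p ∈ v ^ n ℤ[v]`. -/
def Pos (n : ℤ) (p : A) : Prop := ∀ k : ℤ, k < n → p.coeff k = 0

theorem Pos.mono {n m : ℤ} {p : A} (h : Pos m p) (hnm : n ≤ m) : Pos n p :=
  fun k hk => h k (by omega)

theorem pos_zero (n : ℤ) : Pos n 0 := fun _ _ => rfl

theorem Pos.add {n : ℤ} {p q : A} (hp : Pos n p) (hq : Pos n q) : Pos n (p + q) := by
  intro k hk
  rw [AddMonoidAlgebra.coeff_add, Finsupp.add_apply, hp k hk, hq k hk, add_zero]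

theorem Pos.neg {n : ℤ} {p : A} (hp : Pos n p) : Pos n (-p) := by
  intro k hk
  rw [AddMonoidAlgebra.coeff_neg, Finsupp.neg_apply, hp k hk, neg_zero]

theorem Pos.sub {n : ℤ} {p q : A} (hp : Pos n p) (hq : Pos n q) : Pos n (p - q) := by
  rw [sub_eq_add_neg]
  exact hp.add hq.neg

theorem Pos.sum {n : ℤ} {ι : Type*} {s : Finset ι} {f : ι → A} (h : ∀ i ∈ s, Pos n (f i)) :
    Pos n (∑ i ∈ s, f i) := by
  classical
  induction s using Finset.induction with
  | empty => simpa using pos_zero n
  | insert i s his ih =>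
    rw [Finset.sum_insert his]
    exact (h i (Finset.mem_insert_self i s)).add
      (ih fun j hj => h j (Finset.mem_insert_of_mem hj))

theorem coeff_add' (p q : A) (k : ℤ) : (p + q).coeff k = p.coeff k + q.coeff k := rfl
theorem coeff_neg' (p : A) (k : ℤ) : (-p).coeff k = -p.coeff k := rfl
theorem coeff_sub' (p q : A) (k : ℤ) : (p - q).coeff k = p.coeff k - q.coeff k := rfl
theorem coeff_sum' {ι : Type*} (s : Finset ι) (f : ι → A) (k : ℤ) :
    (∑ i ∈ s, f i).coeff k = ∑ i ∈ s, (f i).coeff k := by
  classical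
  induction s using Finset.induction with
  | empty => simp
  | insert i s his ih => rw [Finset.sum_insert his, Finset.sum_insert his, coeff_add', ih]

theorem coeff_one' (k : ℤ) : (1 : A).coeff k = if k = 0 then 1 else 0 := by
  rw [← LaurentPolynomial.T_zero, LaurentPolynomial.T_apply]
  simp only [eq_comm]

theorem coeff_T' (n k : ℤ) : (vpow n).coeff k = if k = n then 1 else 0 := by
  rw [LaurentPolynomial.T_apply]
  simp only [eq_comm]

theorem Pos.mul {n m : ℤ} {p q : A} (hp : Pos n p) (hq : Pos m q) : Pos (n + m) (p * q) := by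
  intro k hk
  rw [AddMonoidAlgebra.coeff_mul]
  refine Finset.sum_eq_zero fun a ha => ?_
  refine Finset.sum_eq_zero fun b hb => ?_
  dsimp only
  rw [if_neg]
  intro hab
  rcases lt_or_ge a n with h1 | h1
  · exact (Finsupp.mem_support_iff.mp ha) (hp a h1)
  · rcases lt_or_ge b m with h2 | h2
    · exact (Finsupp.mem_support_iff.mp hb) (hq b h2)
    · omega

theorem coeff_mul_lead {n m : ℤ} {p q : A} (hp : Pos n p) (hq : Pos m q) :
    (p * q).coeff (n + m) = p.coeff n * q.coeff m := by
  classical
  rw [AddMonoidAlgebra.coeff_mul, Finsupp.sum, Finset.sum_eq_single n, Finsupp.sum,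
    Finset.sum_eq_single m]
  · rw [if_pos rfl]
  · intro b hb hbm
    rw [if_neg]
    intro h
    exact hbm (by omega)
  · intro h
    rw [if_pos rfl, Finsupp.notMem_support_iff.mp h, mul_zero]
  · intro a ha han
    refine Finset.sum_eq_zero fun b hb => ?_
    dsimp only
    rw [if_neg]
    intro hab
    rcases lt_or_ge a n with h1 | h1
    · exact (Finsupp.mem_support_iff.mp ha) (hp a h1)
    · rcases lt_or_ge b m with h2 | h2
      · exact (Finsupp.mem_support_iff.mp hb) (hq b h2)
      · omega
  · intro h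
    refine Finset.sum_eq_zero fun b hb => ?_
    dsimp only
    rw [Finsupp.notMem_support_iff.mp h, zero_mul, ite_self]

theorem pos_T (n : ℤ) : Pos n (vpow n) := by
  intro k hk
  rw [coeff_T', if_neg (by omega)]

theorem pos_one : Pos 0 (1 : A) := by
  intro k hk
  rw [coeff_one', if_neg (by omega)]

theorem coeff_T_mul (n k : ℤ) (p : A) : (vpow n * p).coeff k = p.coeff (k - n) := by
  have : vpow n = AddMonoidAlgebra.single n 1 := rfl
  rw [this, AddMonoidAlgebra.coeff_single_mul_apply, one_mul]
  congr 1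
  omega

theorem coeff_invert (k : ℤ) (p : A) : (LaurentPolynomial.invert p).coeff k = p.coeff (-k) := by
  rw [LaurentPolynomial.invert_apply]

/-- The element `v - v⁻¹`. -/
noncomputable def xi : A := vpow 1 - vpow (-1)

theorem pos_xi : Pos (-1) xi := (Pos.mono (pos_T 1) (by norm_num)).sub (pos_T (-1))

theorem coeff_xi (k : ℤ) : xi.coeff k = (if k = 1 then 1 else 0) - (if k = -1 then 1 else 0) := by
  rw [xi, coeff_sub', coeff_T', coeff_T']

theorem A_ext {p q : A} (h : ∀ k, p.coeff k = q.coeff k) : p = q :=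
  AddMonoidAlgebra.ext (Finsupp.ext h)

theorem T_mul_T (m n : ℤ) : vpow m * vpow n = vpow (m + n) := (LaurentPolynomial.T_add m n).symm

/-- A bar-invariant element of `v ℤ[v]` is zero. -/
theorem eq_zero_of_pos_of_inv {p : A} (hp : Pos 1 p) (hi : LaurentPolynomial.invert p = p) :
    p = 0 := by
  apply A_ext
  intro k
  rcases lt_or_ge k 1 with h | h
  · exact hp k h
  · have : p.coeff k = p.coeff (-k) := by
      conv_lhs => rw [← hi]
      rw [coeff_invert]
    rw [this]
    exact hp _ (by omega)

theorem invert_sum {ι : Type*} (s : Finset ι) (f : ι → A) :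
    LaurentPolynomial.invert (∑ i ∈ s, f i) = ∑ i ∈ s, LaurentPolynomial.invert (f i) :=
  map_sum _ _ _

end Pool.Agent.Helper32.KL
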