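import Pool.Agent.Helper32.KLHecke

set_option autoImplicit false

/-! Right-angled Coxeter groups. -/

namespace Pool.Agent.Helper32.KL

open CoxeterSystem

variable {B W : Type} [Group W] {M : CoxeterMatrix B} {cs : CoxeterSystem M W}

/-- Right-angled Coxeter matrices. -/
def RightAngled (M : CoxeterMatrix B) : Prop := ∀ i j, i ≠ j → M i j = 2 ∨ M i j = 0

section hom

variable [DecidableEq B]

/-- A map to a group sending the generators to involutions, with commuting relation. -/
theorem liftable_of {G : Type} [Group G] (hM : RightAngled M) (f : B → G)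
    (h1 : ∀ i, f i * f i = 1) (h2 : ∀ i j, M i j = 2 → (f i * f j) ^ 2 = 1) :
    M.IsLiftable f := by
  intro i j
  by_cases hij : i = j
  · subst hij
    rw [h1]
    simp
  · rcases hM i j hij with h | h
    · rw [h, h2 i j h]
    · rw [h, pow_zero]

theorem eps_liftable (hM : RightAngled M) (i : B) :
    M.IsLiftable (fun j => if j = i then (-1 : ℤˣ) else 1) := by
  apply liftable_of hM
  · intro j
    split_ifs <;> simp
  · intro j k _
    split_ifs <;> simp

/-- The sign character of the letter `i`. -/
noncomputable def eps (cs : CoxeterSystem M W) (hM : RightAngled M) (i : B) : W →* ℤˣ :=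
  cs.lift ⟨_, eps_liftable hM i⟩

theorem eps_simple (hM : RightAngled M) (i j : B) :
    eps cs hM i (cs.simple j) = if j = i then -1 else 1 := by
  rw [eps, cs.lift_apply_simple]

theorem eps_word (hM : RightAngled M) {i : B} {ω : List B} (h : i ∉ ω) :
    eps cs hM i (cs.wordProd ω) = 1 := by
  induction ω with
  | nil => simp
  | cons j ω ih =>
    rw [List.mem_cons, not_or] at h
    rw [cs.wordProd_cons, map_mul, ih h.2, mul_one, eps_simple, if_neg (Ne.symm h.1)]

theorem card_le_length (hM : RightAngled M) {w : W} (F : Finset B)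
    (h : ∀ i ∈ F, eps cs hM i w = -1) : F.card ≤ cs.length w := by
  obtain ⟨ω, hω, rfl⟩ := cs.exists_isReduced w
  rw [hω.eq]
  have h1 : F ⊆ ω.toFinset := by
    intro i hi
    rw [List.mem_toFinset]
    by_contra h2
    have h3 := h i hi
    rw [eps_word hM h2] at h3
    exact absurd h3 (by decide)
  exact (Finset.card_le_card h1).trans ω.toFinset_card_le

theorem simple_ne (hM : RightAngled M) {i j : B} (h : i ≠ j) : cs.simple i ≠ cs.simple j := by
  intro e
  have := congrArg (eps cs hM i) e
  rw [eps_simple, eps_simple, if_pos rfl, if_neg (Ne.symm h)] at this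
  exact absurd this (by decide)

/-! The infinite dihedral quotient. -/

/-- The two involutions of `ℤ`. -/
def dih (i j : B) (k : B) : Equiv.Perm ℤ :=
  if k = i then Equiv.subLeft 1 else if k = j then Equiv.subLeft (-1) else 1

theorem dih_liftable (hM : RightAngled M) {i j : B} (hij : i ≠ j) (h0 : M i j = 0) :
    M.IsLiftable (dih i j) := by
  have h0' : M j i = 0 := by rw [M.symmetric]; exact h0
  apply liftable_of hM
  · intro k
    unfold dih
    split_ifs
    · ext x; simp
    · ext x; simp
    · simp
  · intro k l hkl
    unfold dih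
    by_cases hk : k = i
    · rw [if_pos hk]
      subst hk
      by_cases hl : l = k
      · subst hl
        rw [if_pos rfl]
        ext x; simp [pow_two]
      · rw [if_neg hl]
        by_cases hl' : l = j
        · subst hl'
          rw [h0] at hkl
          exact absurd hkl (by norm_num)
        · rw [if_neg hl']
          ext x; simp [pow_two]
    · rw [if_neg hk]
      by_cases hk' : k = j
      · rw [if_pos hk']
        subst hk'
        by_cases hl : l = i
        · subst hl
          rw [h0'] at hkl
          exact absurd hkl (by norm_num)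
        · rw [if_neg hl]
          by_cases hl' : l = k
          · rw [if_pos hl']
            ext x; simp [pow_two]
          · rw [if_neg hl']
            ext x; simp [pow_two]
      · rw [if_neg hk']
        split_ifs
        · ext x; simp [pow_two]
        · ext x; simp [pow_two]
        · simp

/-- Action on `ℤ`. -/
noncomputable def phi (cs : CoxeterSystem M W) (hM : RightAngled M) {i j : B} (hij : i ≠ j)
    (h0 : M i j = 0) : W →* Equiv.Perm ℤ :=
  cs.lift ⟨_, dih_liftable hM hij h0⟩

theorem phi_le (hM : RightAngled M) {i j : B} (hij : i ≠ j) (h0 : M i j = 0) (w : W) :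
    |phi cs hM hij h0 w 0| ≤ cs.length w := by
  obtain ⟨ω, hω, rfl⟩ := cs.exists_isReduced w
  rw [hω.eq]
  clear hω
  induction ω with
  | nil => simp
  | cons k ω ih =>
    rw [cs.wordProd_cons, map_mul, Equiv.Perm.mul_apply]
    have e : phi cs hM hij h0 (cs.simple k) = dih i j k := by
      rw [phi, cs.lift_apply_simple]
    rw [e]
    have : ∀ x : ℤ, |dih i j k x| ≤ |x| + 1 := by
      intro x
      unfold dih
      split_ifs
      · simp only [Equiv.subLeft_apply]
        have h1 := abs_sub 1 x
        have h2 : |(1 : ℤ)| = 1 := abs_one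
        omega
      · simp only [Equiv.subLeft_apply]
        have h1 := abs_sub (-1) x
        have h2 : |(-1 : ℤ)| = 1 := by norm_num
        omega
      · simp
    have h3 := this (phi cs hM hij h0 (cs.wordProd ω) 0)
    push_cast [List.length_cons]
    linarith

theorem phi_alt (hM : RightAngled M) {i j : B} (hij : i ≠ j) (h0 : M i j = 0) (n : ℕ) :
    phi cs hM hij h0 (cs.wordProd (alternatingWord j i n))⁻¹ 0 = n ∧
      phi cs hM hij h0 (cs.wordProd (alternatingWord i j n))⁻¹ 0 = -n := by
  induction n with
  | zero => simp [alternatingWord]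
  | succ n ih =>
    rw [alternatingWord_succ, alternatingWord_succ, cs.wordProd_concat, cs.wordProd_concat,
      mul_inv_rev, mul_inv_rev, map_mul, map_mul, Equiv.Perm.mul_apply, Equiv.Perm.mul_apply,
      ih.1, ih.2, cs.inv_simple, cs.inv_simple]
    have e : ∀ k, phi cs hM hij h0 (cs.simple k) = dih i j k := by
      intro k
      rw [phi, cs.lift_apply_simple]
    rw [e, e]
    unfold dih
    rw [if_pos rfl, if_neg hij.symm, if_pos rfl]
    constructor
    · simp [Equiv.subLeft_apply]
      ring
    · simp [Equiv.subLeft_apply]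
      ring

theorem alt_reduced (hM : RightAngled M) {i j : B} (hij : i ≠ j) (h0 : M i j = 0) (n : ℕ) :
    n ≤ cs.length (cs.wordProd (alternatingWord i j n)) := by
  have h1 := phi_le (cs := cs) hM hij h0 (cs.wordProd (alternatingWord i j n))⁻¹
  rw [(phi_alt hM hij h0 n).2, cs.length_inv] at h1
  have : |(-(n : ℤ))| = n := by simp
  rw [this] at h1
  exact_mod_cast h1

theorem alt_step (hM : RightAngled M) {i j : B} (hij : i ≠ j) (h0 : M i j = 0) {x : W}
    (hi : cs.IsRightDescent x i) {n : ℕ} {y : W}
    (hx : x = y * cs.wordProd (alternatingWord i j n)) (hl : cs.length y + n ≤ cs.length x) :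
    ∃ y', x = y' * cs.wordProd (alternatingWord j i (n + 1)) ∧
      cs.length y' + (n + 1) ≤ cs.length x := by
  have h0' : M j i = 0 := by rw [M.symmetric]; exact h0
  obtain ⟨ω, hω, rfl⟩ := cs.exists_isReduced y
  have hx' : x = cs.wordProd (ω ++ alternatingWord i j n) := by
    rw [cs.wordProd_append]; exact hx
  have hi' : cs.length (cs.wordProd (ω ++ alternatingWord i j n) * cs.simple i)
      < cs.length (cs.wordProd (ω ++ alternatingWord i j n)) := by
    rw [← hx']; exact hi
  obtain ⟨k, hk, hk2⟩ := strong_exchange_right cs (cs.isReflection_simple i) hi'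
  rcases lt_or_ge k ω.length with h1 | h1
  · rw [List.eraseIdx_append_of_lt_length h1, ← hx', cs.wordProd_append] at hk2
    refine ⟨cs.wordProd (ω.eraseIdx k), ?_, ?_⟩
    · rw [alternatingWord_succ, cs.wordProd_concat, ← mul_assoc, ← hk2,
        cs.simple_mul_simple_cancel_right]
    · have h2 := cs.length_wordProd_le (ω.eraseIdx k)
      have h3 := List.length_eraseIdx_add_one h1
      rw [hω.eq] at hl
      omega
  · exfalso
    rw [List.eraseIdx_append_of_length_le h1, cs.wordProd_append, cs.wordProd_append, mul_assoc,
      mul_right_inj] at hk2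
    have h2 : cs.wordProd (alternatingWord i j n) * cs.simple i
        = cs.wordProd (alternatingWord j i (n + 1)) := by
      rw [alternatingWord_succ, cs.wordProd_concat]
    rw [h2] at hk2
    have h3 := alt_reduced (cs := cs) hM hij.symm h0' (n + 1)
    rw [hk2] at h3
    have h4 := cs.length_wordProd_le ((alternatingWord i j n).eraseIdx (k - ω.length))
    rw [List.length_append] at hk
    have h5 := List.length_eraseIdx_add_one (l := alternatingWord i j n)
      (i := k - ω.length) (by omega)
    rw [length_alternatingWord] at h5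
    omega

/-- Two distinct right descents commute. -/
theorem comm_of_rdesc (hM : RightAngled M) {i j : B} (hij : i ≠ j) {x : W}
    (hi : cs.IsRightDescent x i) (hj : cs.IsRightDescent x j) : M i j = 2 := by
  rcases hM i j hij with h | h0
  · exact h
  · exfalso
    have h0' : M j i = 0 := by rw [M.symmetric]; exact h0
    have key : ∀ n : ℕ, (∃ y, x = y * cs.wordProd (alternatingWord i j n) ∧
        cs.length y + n ≤ cs.length x) ∨ (∃ y, x = y * cs.wordProd (alternatingWord j i n) ∧
        cs.length y + n ≤ cs.length x) := by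
      intro n
      induction n with
      | zero =>
        left
        exact ⟨x, by simp [alternatingWord], by omega⟩
      | succ n ih =>
        rcases ih with ⟨y, h1, h2⟩ | ⟨y, h1, h2⟩
        · right
          exact alt_step hM hij h0 hi h1 h2
        · left
          exact alt_step hM hij.symm h0' hj h1 h2
    rcases key (cs.length x + 1) with ⟨y, _, h2⟩ | ⟨y, _, h2⟩ <;> omega

omit [DecidableEq B] in
theorem simple_comm {i j : B} (h : M i j = 2) :
    cs.simple i * cs.simple j = cs.simple j * cs.simple i := by
  have h1 := cs.simple_mul_simple_pow i j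
  rw [h, pow_two] at h1
  calc cs.simple i * cs.simple j
      = (cs.simple i * cs.simple j * (cs.simple i * cs.simple j)) *
        (cs.simple j * cs.simple i) := by
        simp [mul_assoc]
    _ = cs.simple j * cs.simple i := by rw [h1, one_mul]

omit [DecidableEq B] in
theorem rdesc_iff_eta {w : W} {i : B} :
    cs.IsRightDescent w i ↔ eta cs w (cs.simple i) = 1 :=
  ⟨fun h => eta_of_length_lt cs (cs.isReflection_simple i) h, fun h => length_lt_of_eta cs h⟩

theorem rdesc_mul_comm (hM : RightAngled M) {u : W} {p t : B} (hpt : p ≠ t) (h : M p t = 2) :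
    cs.IsRightDescent (u * cs.simple t) p ↔ cs.IsRightDescent u p := by
  rw [rdesc_iff_eta, rdesc_iff_eta, eta_mul, eta_simple]
  have e1 : cs.simple t * cs.simple p * (cs.simple t)⁻¹ = cs.simple p := by
    rw [← simple_comm h]; simp
  have e2 : delta (cs.simple p) (cs.simple t) = 0 := by
    unfold delta
    rw [if_neg (simple_ne hM hpt)]
  rw [e1, e2, zero_add]

theorem ldesc_mul_comm (hM : RightAngled M) {u : W} {p t : B} (hpt : p ≠ t) (h : M p t = 2) :
    cs.IsLeftDescent (cs.simple t * u) p ↔ cs.IsLeftDescent u p := by
  rw [← cs.isRightDescent_inv_iff, ← cs.isRightDescent_inv_iff, mul_inv_rev, cs.inv_simple,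
    rdesc_mul_comm hM hpt h]

/-- Key lemma: descents of reduced products. -/
theorem desc_of_mul (hM : RightAngled M) {s : B} {x u : W}
    (hxu : cs.length (x * u) = cs.length x + cs.length u)
    (h1 : cs.IsRightDescent (x * u) s) (h2 : ¬ cs.IsRightDescent u s) :
    cs.IsRightDescent x s ∧ cs.IsLeftDescent (u * cs.simple s) s := by
  induction hn : cs.length u generalizing u with
  | zero =>
    rw [cs.length_eq_zero_iff] at hn
    subst hn
    rw [mul_one] at h1
    refine ⟨h1, ?_⟩
    rw [one_mul, CoxeterSystem.IsLeftDescent]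
    simp
  | succ n ih =>
    have hu : u ≠ 1 := by
      rintro rfl
      rw [cs.length_one] at hn
      omega
    obtain ⟨t, ht⟩ := cs.exists_rightDescent_of_ne_one hu
    have hst : s ≠ t := by
      rintro rfl
      exact h2 ht
    obtain ⟨u', rfl⟩ : ∃ u', u = u' * cs.simple t := ⟨u * cs.simple t, by simp⟩
    have hl1 : cs.length (u' * cs.simple t * cs.simple t) + 1 = cs.length (u' * cs.simple t) :=
      cs.isRightDescent_iff.mp ht
    rw [cs.simple_mul_simple_cancel_right] at hl1
    have hl2 := cs.length_mul_le x u'
    have hl3 := cs.length_mul_simple (x * u') t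
    rw [← mul_assoc] at hxu h1
    have htx : cs.IsRightDescent (x * u' * cs.simple t) t := by
      rw [cs.isRightDescent_iff, cs.simple_mul_simple_cancel_right]
      omega
    have hM2 : M s t = 2 := comm_of_rdesc hM hst h1 htx
    rw [rdesc_mul_comm hM hst hM2] at h1 h2
    obtain ⟨h3, h4⟩ := ih (u := u') (by omega) h1 h2 (by omega)
    refine ⟨h3, ?_⟩
    have hl5 : cs.length (u' * cs.simple s) = cs.length u' + 1 := cs.not_isRightDescent_iff.mp h2
    have hl6 : cs.length (cs.simple s * (u' * cs.simple s)) + 1 = cs.length (u' * cs.simple s) :=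
      cs.isLeftDescent_iff.mp h4
    have hl7 : ¬ cs.IsRightDescent (u' * cs.simple t) s := by
      rw [rdesc_mul_comm hM hst hM2]; exact h2
    have hl8 : cs.length (u' * cs.simple t * cs.simple s) = cs.length (u' * cs.simple t) + 1 :=
      cs.not_isRightDescent_iff.mp hl7
    rw [CoxeterSystem.IsLeftDescent]
    have e : cs.simple s * (u' * cs.simple t * cs.simple s)
        = cs.simple s * (u' * cs.simple s) * cs.simple t := by
      rw [mul_assoc, ← simple_comm hM2]
      simp only [mul_assoc]
    rw [e]
    have hl9 := cs.length_mul_le (cs.simple s * (u' * cs.simple s)) (cs.simple t)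
    rw [cs.length_simple] at hl9
    omega

theorem length_mul_aux (hM : RightAngled M) {x y : W}
    (h : ∀ s, ¬ (cs.IsRightDescent x s ∧ cs.IsLeftDescent y s)) (n : ℕ) :
    ∀ u r : W, y = u * r → cs.length y = cs.length u + cs.length r →
    cs.length (x * u) = cs.length x + cs.length u → cs.length r = n →
    cs.length (x * y) = cs.length x + cs.length y := by
  induction n with
  | zero =>
    intro u r h1 h2 h3 h4
    rw [cs.length_eq_zero_iff] at h4
    subst h4
    rw [mul_one] at h1
    subst h1
    exact h3
  | succ n ih =>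
    intro u r h1 h2 h3 h4
    have hr : r ≠ 1 := by
      rintro rfl
      rw [cs.length_one] at h4
      omega
    obtain ⟨s, hs⟩ := cs.exists_leftDescent_of_ne_one hr
    obtain ⟨r', rfl⟩ : ∃ r', r = cs.simple s * r' := ⟨cs.simple s * r, by simp⟩
    have hl1 : cs.length (cs.simple s * (cs.simple s * r')) + 1 = cs.length (cs.simple s * r') :=
      cs.isLeftDescent_iff.mp hs
    rw [cs.simple_mul_simple_cancel_left] at hl1
    have h5 : y = u * cs.simple s * r' := by rw [h1, mul_assoc]
    have hl2 := cs.length_mul_le (u * cs.simple s) r'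
    rw [← h5] at hl2
    have hl3 := cs.length_mul_simple u s
    have h6 : ¬ cs.IsRightDescent u s := by
      rw [cs.not_isRightDescent_iff]
      omega
    have h7 : ¬ cs.IsRightDescent (x * u) s := by
      intro h7
      obtain ⟨h8, h9⟩ := desc_of_mul hM h3 h7 h6
      apply h s
      refine ⟨h8, ?_⟩
      rw [CoxeterSystem.IsLeftDescent] at h9 ⊢
      have hl4 := cs.length_mul_le (cs.simple s * (u * cs.simple s)) r'
      have e : cs.simple s * y = cs.simple s * (u * cs.simple s) * r' := by
        rw [h5]; simp only [mul_assoc]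
      rw [e]
      omega
    refine ih (u * cs.simple s) r' h5 (by omega) ?_ (by omega)
    rw [← mul_assoc]
    rw [cs.not_isRightDescent_iff] at h7
    omega

/-- `ℓ(xy) = ℓ(x) + ℓ(y)` if `R(x) ∩ L(y) = ∅`. -/
theorem length_mul_of_disjoint (hM : RightAngled M) {x y : W}
    (h : ∀ s, ¬ (cs.IsRightDescent x s ∧ cs.IsLeftDescent y s)) :
    cs.length (x * y) = cs.length x + cs.length y :=
  length_mul_aux hM h _ 1 y (by simp) (by simp) (by simp) rfl

/-- Lists of pairwise commuting distinct generators. -/
def CommList (M : CoxeterMatrix B) (m : List B) : Prop :=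
  m.Nodup ∧ ∀ a ∈ m, ∀ b ∈ m, a ≠ b → M a b = 2

omit [DecidableEq B] in
theorem CommList.tail {a : B} {m : List B} (h : CommList M (a :: m)) : CommList M m :=
  ⟨(List.nodup_cons.mp h.1).2, fun b hb c hc => h.2 b (List.mem_cons_of_mem _ hb) c
    (List.mem_cons_of_mem _ hc)⟩

theorem commList_facts (hM : RightAngled M) (m : List B) : ∀ (x : W), CommList M m →
    (∀ a ∈ m, ¬ cs.IsRightDescent x a) →
    cs.length (x * cs.wordProd m) = cs.length x + m.length ∧
    (∀ a ∈ m, cs.IsRightDescent (x * cs.wordProd m) a) ∧
    (∀ p, p ∉ m → (∀ a ∈ m, M p a = 2) →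
      (cs.IsRightDescent (x * cs.wordProd m) p ↔ cs.IsRightDescent x p)) := by
  induction m with
  | nil =>
    intro x _ _
    simp
  | cons a m ih =>
    intro x hm hx
    have ham : a ∉ m := (List.nodup_cons.mp hm.1).1
    have hxa : ¬ cs.IsRightDescent x a := hx a List.mem_cons_self
    have h1 : ∀ b ∈ m, ¬ cs.IsRightDescent (x * cs.simple a) b := by
      intro b hb
      have hba : b ≠ a := by
        rintro rfl
        exact ham hb
      rw [rdesc_mul_comm hM hba (hm.2 b (List.mem_cons_of_mem _ hb) a List.mem_cons_self hba)]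
      exact hx b (List.mem_cons_of_mem _ hb)
    obtain ⟨h2, h3, h4⟩ := ih (x * cs.simple a) hm.tail h1
    rw [cs.wordProd_cons, ← mul_assoc]
    refine ⟨?_, ?_, ?_⟩
    · rw [h2, cs.not_isRightDescent_iff.mp hxa, List.length_cons]
      omega
    · intro b hb
      rcases List.mem_cons.mp hb with rfl | hb
      · rw [h4 b ham, rdesc_muls]
        · exact hxa
        · intro c hc
          exact hm.2 b List.mem_cons_self c (List.mem_cons_of_mem _ hc)
            (fun h => ham (h ▸ hc))
      · exact h3 b hb
    · intro p hp hpm
      rw [List.mem_cons, not_or] at hp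
      rw [h4 p hp.2 (fun c hc => hpm c (List.mem_cons_of_mem _ hc)),
        rdesc_mul_comm hM hp.1 (hpm a List.mem_cons_self)]

omit [DecidableEq B] in
theorem comm_wordProd {p : B} {m : List B} (h : ∀ a ∈ m, M p a = 2) :
    cs.simple p * cs.wordProd m = cs.wordProd m * cs.simple p := by
  induction m with
  | nil => simp
  | cons a m ih =>
    rw [cs.wordProd_cons, ← mul_assoc, simple_comm (h a List.mem_cons_self), mul_assoc,
      ih (fun b hb => h b (List.mem_cons_of_mem _ hb)), mul_assoc]

end hom

end Pool.Agent.Helper32.KL
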